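import Pool.Agent.Lib_helper23.CKT.Defs

set_option autoImplicit false

namespace Pool.Agent.CKT

open Pool.Agent.CK

theorem apath_sum {Z Q Q' : Type} [Fintype Z] [DecidableEq Z] [Fintype Q] [DecidableEq Q]
    [Fintype Q'] (μ : Z → Q → ℝ) (ρ : List (Z × Q)) (w : Q' → ℝ) (F : Q' → (Z → Q) → ℝ) :
    Pr μ ρ (fun T => ∑ q, w q * F q T) = ∑ q, w q * Pr μ ρ (F q) := by
  rw [pm_sum]
  exact Finset.sum_congr rfl fun q _ => Pr_mul μ ρ (w q) (F q)

theorem apath_ind_and (a b : Bool) : ind (a && b) = ind a * ind b := by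
  cases a <;> cases b <;> simp [ind]

theorem apath_ind_not (a b : Bool) : ind (a == !b) = 1 - ind (a == b) := by
  cases a <;> cases b <;> simp [ind]

/-- one step -/
theorem apath_step {Z Q ι Q' : Type} [Fintype Z] [DecidableEq Z] [Fintype Q] [DecidableEq Q]
    [Fintype Q'] {μ : Z → Q → ℝ} (hμ : IsPD μ) (pos : List Bool → Option (Z × ι))
    (rd : Q → ι → Bool) (O : Lang) (t : Q' → DT Bool) (w : Q' → ℝ) (hw : ∑ q, |w q| ≤ 2)
    (β : Bool) (ε : ℝ) (hε : 0 < ε) (hε1 : ε ≤ 1) (d : ℕ) (hd : ∀ q, (t q).depth ≤ d)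
    (ρ : List (Z × Q))
    (hp : 0 < Pr μ ρ (fun T => ind (decide
      (ε < ∑ q, w q * ind ((t q).eval (patch pos rd O T) == β)))))
    (hF : Pr μ ρ (fun T => ∑ q, w q * ind ((t q).eval (patch pos rd O T) == β)) ≤ ε / 4) :
    ∃ ρ' : List (Z × Q), ρ'.length ≤ ρ.length + d ∧
      (1 + ε / 4) * Pr μ ρ (fun T => ind (decide
        (ε < ∑ q, w q * ind ((t q).eval (patch pos rd O T) == β)))) ≤
      Pr μ ρ' (fun T => ind (decide
        (ε < ∑ q, w q * ind ((t q).eval (patch pos rd O T) == β)))) := by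
  by_contra hcon
  push Not at hcon
  set W : (Z → Q) → Bool := fun T => decide
    (ε < ∑ q, w q * ind ((t q).eval (patch pos rd O T) == β)) with hW
  set p := Pr μ ρ (fun T => ind (W T)) with hpd
  -- the tree lemma for every test and both values
  have key : ∀ (q : Q') (b : Bool), Pr μ ρ (fun T => ind (W T && ((t q).eval (patch pos rd O T) == b)))
      ≤ (1 + ε / 4) * p * Pr μ ρ (fun T => ind ((t q).eval (patch pos rd O T) == b)) := by
    intro q b
    refine tree_lemma hμ pos rd O W (fun β' _ => β' == b) ((1 + ε / 4) * p) (ρ.length + d) ?_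
      (t q) ρ (by have := hd q; omega)
    intro β' ρ' hρ'
    cases hb : (β' == b) with
    | true =>
      simp only [Bool.and_true]
      have h1 : Pr μ ρ' (fun _ => ind true) = 1 := Pr_one hμ ρ'
      rw [h1, mul_one]
      exact (hcon ρ' hρ').le
    | false =>
      simp only [Bool.and_false]
      have h1 : Pr μ ρ' (fun _ => ind false) = 0 := by
        have := Pr_mul μ ρ' 0 (fun _ => (1 : ℝ))
        simpa [ind] using this
      rw [h1, mul_zero]
  -- lower bound
  have h1 : ε * p ≤ Pr μ ρ (fun T => ind (W T) *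
      ∑ q, w q * ind ((t q).eval (patch pos rd O T) == β)) := by
    rw [hpd, ← Pr_mul]
    refine Pr_mono hμ ρ fun T => ?_
    cases hT : W T with
    | false => simp [ind]
    | true =>
      have h2 : ε < ∑ q, w q * ind ((t q).eval (patch pos rd O T) == β) := by
        rw [hW] at hT
        simpa using hT
      simp only [ind, if_true]
      simp only [ind] at h2
      linarith
  -- upper bound
  set a : Q' → ℝ := fun q => Pr μ ρ (fun T => ind ((t q).eval (patch pos rd O T) == β)) with ha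
  have h3 : Pr μ ρ (fun T => ind (W T) * ∑ q, w q * ind ((t q).eval (patch pos rd O T) == β)) =
      ∑ q, w q * Pr μ ρ (fun T => ind (W T && ((t q).eval (patch pos rd O T) == β))) := by
    rw [← apath_sum]
    congr 1
    funext T
    rw [Finset.mul_sum]
    refine Finset.sum_congr rfl fun q _ => ?_
    rw [apath_ind_and]
    ring
  have h4 : ∀ q, w q * Pr μ ρ (fun T => ind (W T && ((t q).eval (patch pos rd O T) == β))) ≤
      (1 + ε / 4) * p * (w q * a q) + |w q| * (ε / 4 * p) := by
    intro q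
    have hk1 := key q β
    have hk2 := key q (!β)
    have hk3 : Pr μ ρ (fun T => ind (W T && ((t q).eval (patch pos rd O T) == !β))) =
        p - Pr μ ρ (fun T => ind (W T && ((t q).eval (patch pos rd O T) == β))) := by
      have e := Pr_add μ ρ (fun T => ind (W T && ((t q).eval (patch pos rd O T) == !β)))
        (fun T => ind (W T && ((t q).eval (patch pos rd O T) == β)))
      have e2 : (fun T => ind (W T && ((t q).eval (patch pos rd O T) == !β)) +
          ind (W T && ((t q).eval (patch pos rd O T) == β))) = fun T => ind (W T) := by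
        funext T
        rw [apath_ind_and, apath_ind_and, apath_ind_not]
        ring
      rw [e2] at e
      linarith
    have hk4 : Pr μ ρ (fun T => ind ((t q).eval (patch pos rd O T) == !β)) = 1 - a q := by
      have e := Pr_add μ ρ (fun T => ind ((t q).eval (patch pos rd O T) == !β))
        (fun T => ind ((t q).eval (patch pos rd O T) == β))
      have e2 : (fun T => ind ((t q).eval (patch pos rd O T) == !β) +
          ind ((t q).eval (patch pos rd O T) == β)) = fun _ => (1 : ℝ) := by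
        funext T
        rw [apath_ind_not]
        ring
      rw [e2, Pr_one hμ ρ] at e
      linarith
    rw [hk3, hk4] at hk2
    set b := Pr μ ρ (fun T => ind (W T && ((t q).eval (patch pos rd O T) == β))) with hb
    change b ≤ (1 + ε / 4) * p * a q at hk1
    have hpos : 0 ≤ ε / 4 * p := by positivity
    rcases le_total 0 (w q) with hwq | hwq
    · rw [abs_of_nonneg hwq]
      have := mul_le_mul_of_nonneg_left hk1 hwq
      have h7 : 0 ≤ w q * (ε / 4 * p) := mul_nonneg hwq hpos
      nlinarith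
    · rw [abs_of_nonpos hwq]
      have h6 : (1 + ε / 4) * p * a q - ε / 4 * p ≤ b := by nlinarith
      have := mul_le_mul_of_nonpos_left h6 hwq
      nlinarith
  have h5 : ∑ q, w q * Pr μ ρ (fun T => ind (W T && ((t q).eval (patch pos rd O T) == β))) ≤
      (1 + ε / 4) * p * ∑ q, w q * a q + (∑ q, |w q|) * (ε / 4 * p) := by
    rw [Finset.mul_sum, Finset.sum_mul, ← Finset.sum_add_distrib]
    exact Finset.sum_le_sum fun q _ => h4 q
  have h6 : ∑ q, w q * a q ≤ ε / 4 := by
    rw [← apath_sum]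
    exact hF
  have h7 : (∑ q, |w q|) * (ε / 4 * p) ≤ 2 * (ε / 4 * p) :=
    mul_le_mul_of_nonneg_right hw (by positivity)
  have h8 : (1 + ε / 4) * p * ∑ q, w q * a q ≤ (1 + ε / 4) * p * (ε / 4) :=
    mul_le_mul_of_nonneg_left h6 (by positivity)
  have h9 : ε * p ≤ (1 + ε / 4) * p * (ε / 4) + 2 * (ε / 4 * p) := by
    rw [h3] at h1
    linarith
  have h10 : 0 < p * ε := by positivity
  nlinarith

theorem apath_lemma {Z Q ι Q' : Type} [Fintype Z] [DecidableEq Z] [Fintype Q] [DecidableEq Q]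
    [Fintype Q'] {μ : Z → Q → ℝ} (hμ : IsPD μ) (pos : List Bool → Option (Z × ι))
    (rd : Q → ι → Bool) (O : Lang) (t : Q' → DT Bool) (w : Q' → ℝ) (hw : ∑ q, |w q| ≤ 2)
    (β : Bool) (B : ℕ) (hB : 1 ≤ B) (hd : ∀ q, (t q).depth ≤ B) (a : ℕ)
    (h0 : (1 / 2 : ℝ) ^ a ≤ Pr μ [] (fun T => ind (decide
      (1 / (B : ℝ) < ∑ q, w q * ind ((t q).eval (patch pos rd O T) == β))))) :
    ∃ ρ : List (Z × Q), ρ.length ≤ 4 * B * (a + 1) * B ∧
      1 / (4 * (B : ℝ)) <
        Pr μ ρ (fun T => ∑ q, w q * ind ((t q).eval (patch pos rd O T) == β)) := by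
  by_contra hcon
  push Not at hcon
  have hBr : (1 : ℝ) ≤ B := by exact_mod_cast hB
  have hB0 : (0 : ℝ) < B := by linarith
  have he : 1 / (4 * (B : ℝ)) = 1 / (B : ℝ) / 4 := by field_simp
  have hε1 : 1 / (B : ℝ) ≤ 1 := by rw [div_le_one hB0]; exact hBr
  set x : ℝ := 1 + 1 / (B : ℝ) / 4 with hx
  have hit : ∀ j : ℕ, j ≤ 4 * B * (a + 1) → ∃ ρ : List (Z × Q), ρ.length ≤ j * B ∧
      x ^ j * (1 / 2) ^ a ≤ Pr μ ρ (fun T => ind (decide
        (1 / (B : ℝ) < ∑ q, w q * ind ((t q).eval (patch pos rd O T) == β)))) := by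
    intro j
    induction j with
    | zero => intro _; exact ⟨[], by simp, by simpa using h0⟩
    | succ j ih =>
      intro hj
      obtain ⟨ρ, h1, h2⟩ := ih (by omega)
      have h3 : ρ.length ≤ 4 * B * (a + 1) * B :=
        h1.trans (Nat.mul_le_mul_right B (by omega))
      have hpos : (0 : ℝ) < x ^ j * (1 / 2) ^ a := by positivity
      obtain ⟨ρ', h4, h5⟩ := apath_step hμ pos rd O t w hw β (1 / (B : ℝ)) (by positivity) hε1 B hd
        ρ (hpos.trans_le h2) (by rw [← he]; exact hcon ρ h3)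
      refine ⟨ρ', h4.trans (by rw [Nat.succ_mul]; omega), le_trans ?_ h5⟩
      rw [pow_succ]
      have hx0 : 0 ≤ x := by positivity
      nlinarith
  obtain ⟨ρ, -, h2⟩ := hit (4 * B * (a + 1)) le_rfl
  have h3 : Pr μ ρ (fun T => ind (decide
      (1 / (B : ℝ) < ∑ q, w q * ind ((t q).eval (patch pos rd O T) == β)))) ≤ 1 := by
    rw [← Pr_one hμ ρ]
    refine Pr_mono hμ ρ fun T => ?_
    unfold ind
    split_ifs
    · exact le_refl _
    · exact zero_le_one
  have h4 : (2 : ℝ) ≤ x ^ (4 * B) := by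
    have h5 := one_add_mul_le_pow (a := 1 / (B : ℝ) / 4) (by
      have : (0 : ℝ) ≤ 1 / (B : ℝ) / 4 := by positivity
      linarith) (4 * B)
    have h6 : ((4 * B : ℕ) : ℝ) * (1 / (B : ℝ) / 4) = 1 := by
      push_cast
      field_simp
    rw [h6] at h5
    linarith
  have h5 : (2 : ℝ) ^ (a + 1) ≤ x ^ (4 * B * (a + 1)) := by
    rw [pow_mul]
    exact pow_le_pow_left₀ (by norm_num) h4 _
  have h6 : (2 : ℝ) ^ (a + 1) * (1 / 2) ^ a = 2 := by
    rw [pow_succ, one_div, inv_pow]
    field_simp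
  have h7 : (2 : ℝ) ^ (a + 1) * (1 / 2) ^ a ≤ x ^ (4 * B * (a + 1)) * (1 / 2) ^ a :=
    mul_le_mul_of_nonneg_right h5 (by positivity)
  linarith

end Pool.Agent.CKT
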