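import Pool.Agent.Lib_helper23.CKT.Defs

/-!
# Addresses with a general exponent (adapted from `Lib_helper74/CKF/ADDR.lean`)
-/

set_option autoImplicit false

namespace Pool.Agent.CKT

open Pool.Agent.CK

variable {H : ℕ → ℕ}

theorem taddrH_inj {e e' : ℕ} {z z' : List Bool} {b b' : ℕ} {c c' : Bool}
    (h : taddrH H e z b c = taddrH H e' z' b' c') : e = e' ∧ z = z' ∧ b = b' ∧ c = c' := by
  unfold taddrH at h
  simp only [List.cons.injEq, true_and] at h
  obtain ⟨hc, h⟩ := h
  obtain ⟨hb, h⟩ := addr_ones_inj _ _ _ _ h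
  obtain ⟨he, h⟩ := addr_ones_inj _ _ _ _ h
  obtain ⟨_, h⟩ := addr_ones_inj _ _ _ _ h
  exact ⟨he, h, hb, hc⟩

theorem tdecH_taddrH (e : ℕ) (z : List Bool) (b : ℕ) (c : Bool) :
    tdecH H (taddrH H e z b c) = some ((e, z), (b, c)) := by
  have h : ∃ p : (ℕ × List Bool) × (ℕ × Bool),
      taddrH H e z b c = taddrH H p.1.1 p.1.2 p.2.1 p.2.2 := ⟨((e, z), (b, c)), rfl⟩
  rw [tdecH, dif_pos h]
  obtain ⟨h1, h2, h3, h4⟩ := taddrH_inj h.choose_spec
  congr 1
  exact Prod.ext (Prod.ext h1.symm h2.symm) (Prod.ext h3.symm h4.symm)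

theorem tdecH_eq {w : List Bool} {p : (ℕ × List Bool) × (ℕ × Bool)} (h : tdecH H w = some p) :
    w = taddrH H p.1.1 p.1.2 p.2.1 p.2.2 := by
  unfold tdecH at h
  split_ifs at h with h'
  · have := h'.choose_spec
    have h2 : h'.choose = p := Option.some.inj h
    rw [h2] at this
    exact this

theorem tdecH_saddr (x y : List Bool) (b : Bool) : tdecH H (saddr x y b) = none := by
  unfold tdecH
  rw [dif_neg]
  rintro ⟨p, hp⟩
  simp [saddr, taddrH] at hp

theorem keyH_le (w : List Bool) : keyH H w ≤ w.length := by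
  unfold keyH
  split
  · rename_i p hp
    have := tdecH_eq hp
    conv_rhs => rw [this]
    simp only [taddrH, ones, List.length_cons, List.length_append, List.length_replicate]
    omega
  · exact le_rfl

theorem keyH_taddrH (e : ℕ) (z : List Bool) (b : ℕ) (c : Bool) :
    keyH H (taddrH H e z b c) = alenH H e z := by
  unfold keyH
  rw [tdecH_taddrH]

theorem keyH_saddr (x y : List Bool) (b : Bool) (h : x.length = y.length) :
    keyH H (saddr x y b) = 2 * x.length + 2 := by
  unfold keyH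
  rw [tdecH_saddr]
  simp only [saddr, List.length_cons, List.length_reverse]
  rw [addr_il_length x y h]

theorem taddrH_length (e : ℕ) (z : List Bool) (b : ℕ) (c : Bool) :
    alenH H e z ≤ (taddrH H e z b c).length := by
  have := keyH_le (H := H) (taddrH H e z b c)
  rwa [keyH_taddrH] at this

theorem gposH_eq_some {n lo hi t e : ℕ} {w : List Bool} {p : ZSH H n lo hi t e × (ℕ × Bool)}
    (h : gposH H n lo hi t e w = some p) : w = taddrH H e p.1.1 p.2.1 p.2.2 := by
  unfold gposH at h
  split at h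
  · rename_i p' hp'
    split_ifs at h with h1
    simp only [Option.some.injEq] at h
    have h2 := tdecH_eq hp'
    rw [← h, h2, h1.1]
  · simp at h

theorem gposH_taddrH {n lo hi t e : ℕ} {z : List Bool} (hz : z ∈ ZSH H n lo hi t e) (b : ℕ)
    (c : Bool) : gposH H n lo hi t e (taddrH H e z b c) = some (⟨z, hz⟩, (b, c)) := by
  unfold gposH
  rw [tdecH_taddrH]
  simp only
  rw [dif_pos ⟨rfl, hz⟩]

/-- other entries are not in the group -/
theorem gposH_taddrH_none {n lo hi t e e' : ℕ} {z : List Bool}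
    (hz : ¬ (e' = e ∧ z ∈ ZSH H n lo hi t e)) (b : ℕ) (c : Bool) :
    gposH H n lo hi t e (taddrH H e' z b c) = none := by
  unfold gposH
  rw [tdecH_taddrH]
  simp only
  rw [dif_neg hz]

theorem gposH_of_spos {n lo hi t e m : ℕ} {w : List Bool} {p : X m × (X m × Bool)}
    (h : spos m w = some p) : gposH H n lo hi t e w = none := by
  rw [spos_eq_some h]
  unfold gposH
  rw [tdecH_saddr]

theorem gposH_saddr {n lo hi t e : ℕ} (x y : List Bool) (b : Bool) :
    gposH H n lo hi t e (saddr x y b) = none := by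
  unfold gposH
  rw [tdecH_saddr]

theorem spos_taddrH (m e : ℕ) (z : List Bool) (b : ℕ) (c : Bool) :
    spos m (taddrH H e z b c) = none := by
  cases hs : spos m (taddrH H e z b c) with
  | none => rfl
  | some p =>
    exfalso
    have := tdecH_saddr (H := H) p.1.1 p.2.1.1 p.2.2
    rw [← spos_eq_some hs, tdecH_taddrH] at this
    simp at this

theorem spos_saddr {m : ℕ} (x y : X m) (b : Bool) :
    spos m (saddr x.1 y.1 b) = some (x, (y, b)) := by
  unfold spos
  rw [sdec_saddr _ _ _ (by rw [x.2, y.2])]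
  simp only
  rw [dif_pos ⟨x.2, y.2⟩]

theorem spos_saddr_none {m : ℕ} (x y : List Bool) (b : Bool) (h : x.length = y.length)
    (hx : x.length ≠ m) : spos m (saddr x y b) = none := by
  unfold spos
  rw [sdec_saddr _ _ _ h]
  simp only
  rw [dif_neg fun h' => hx h'.1]

theorem upos_eq_some {N : ℕ} {w : List Bool} {p : Unit × (X N × Bool)} (h : upos N w = some p) :
    w = saddr (ones N) p.2.1.1 p.2.2 := by
  unfold upos at h
  split at h
  · rename_i p' hp'
    split_ifs at h with h1
    simp only [Option.some.injEq] at h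
    rw [← h, ← h1]
    exact spos_eq_some hp'
  · simp at h

theorem ones_length (N : ℕ) : (ones N).length = N := List.length_replicate

theorem upos_saddr {N : ℕ} (y : X N) (b : Bool) :
    upos N (saddr (ones N) y.1 b) = some ((), (y, b)) := by
  unfold upos
  rw [spos_saddr ⟨ones N, ones_length N⟩ y b]
  simp

theorem saddr_lengthG {x y : List Bool} (h : x.length = y.length) (b : Bool) :
    (saddr x y b).length = 2 * x.length + 2 := by
  simp only [saddr, List.length_cons, List.length_reverse, addr_il_length x y h]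

theorem saddr_length' (N : ℕ) (y : X N) (b : Bool) :
    (saddr (ones N) y.1 b).length = 2 * N + 2 := by
  have h := addr_il_length (ones N) y.1 (by rw [ones_length, y.2])
  simp only [saddr, List.length_cons, List.length_reverse, h, ones_length]

theorem upos_taddrH (N e : ℕ) (z : List Bool) (b : ℕ) (c : Bool) :
    upos N (taddrH H e z b c) = none := by
  unfold upos
  rw [spos_taddrH]

theorem gposH_of_upos {n lo hi t e N : ℕ} {w : List Bool} {p : Unit × (X N × Bool)}
    (h : upos N w = some p) : gposH H n lo hi t e w = none := by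
  rw [upos_eq_some h]
  exact gposH_saddr _ _ _

/-- dependence of the values of an entry; the key fact for the order of the groups -/
theorem num_depH (hH : ∀ e, e ^ 2 ≤ H e) {n t e : ℕ} {z : List Bool} (he : Adeq e) (hn : 2 ≤ n)
    (h1 : 2 ^ 2 ^ t ≤ z.length + 2) (h2 : z.length + 2 < 2 ^ 2 ^ (t + 1))
    (h3 : n ≤ (z.length + 2) ^ (iN e + 3)) :
    (z.length + 2) ^ (iN e + 2) < 2 ^ (2 ^ t * H e) ∧
    (qb n e + 2) ^ (iC e + 2) < 2 ^ (2 ^ t * H e) ∧
    2 * n + 2 < 2 ^ (2 ^ t * H e) ∧ 2 ^ (2 ^ t * H e) ≤ alenH H e z := by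
  obtain ⟨a1, a2, a3, -⟩ := num_dep he hn h1 h2 h3
  have h4 : 2 ^ (2 ^ t * e ^ 2) ≤ 2 ^ (2 ^ t * H e) :=
    Nat.pow_le_pow_right (by norm_num) (Nat.mul_le_mul_left _ (hH e))
  refine ⟨a1.trans_le h4, a2.trans_le h4, a3.trans_le h4, ?_⟩
  unfold alenH
  rw [pow_mul]
  exact Nat.pow_le_pow_left h1 _

theorem two_pow_le_alenH (hH : ∀ e, e ^ 2 ≤ H e) {e : ℕ} (z : List Bool) :
    2 ^ e ≤ alenH H e z := by
  unfold alenH
  calc 2 ^ e ≤ 2 ^ H e :=
        Nat.pow_le_pow_right (by norm_num) ((Nat.le_self_pow (by norm_num) e).trans (hH e))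
    _ ≤ (z.length + 2) ^ H e := Nat.pow_le_pow_left (by omega) _

theorem two_pow_H_le_alenH (e : ℕ) (z : List Bool) : 2 ^ H e ≤ alenH H e z := by
  unfold alenH
  exact Nat.pow_le_pow_left (by omega) _

theorem iN_boundH (hH : ∀ e, e ^ 2 ≤ H e) {e : ℕ} (he : Adeq e) (z : List Bool) :
    (z.length + 2) ^ (iN e + 3) ≤ alenH H e z := by
  unfold alenH
  apply Nat.pow_le_pow_right (by omega)
  have h1 := he.1
  have h2 : iN e + 3 ≤ (2 * iN e + 3) * (iC e + 3) * (iM e + 3) :=
    calc iN e + 3 ≤ 2 * iN e + 3 := by omega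
      _ ≤ (2 * iN e + 3) * (iC e + 3) := Nat.le_mul_of_pos_right _ (by omega)
      _ ≤ _ := Nat.le_mul_of_pos_right _ (by omega)
  have h3 : e ≤ e ^ 2 := Nat.le_self_pow (by norm_num) e
  have h4 := hH e
  omega

theorem alenH_pos {e : ℕ} {z : List Bool} (he : 0 < H e) : z.length + 2 ≤ alenH H e z := by
  unfold alenH
  exact Nat.le_self_pow (by omega) _

theorem H_pos (hH : ∀ e, e ^ 2 ≤ H e) {e : ℕ} (he : Adeq e) : 0 < H e := by
  have h1 := he.1
  have h3 : 0 < (2 * iN e + 3) * (iC e + 3) * (iM e + 3) := by positivity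
  have h4 : 0 < e ^ 2 := by
    have : 0 < e := by omega
    positivity
  exact h4.trans_le (hH e)

theorem ZSH_sub {n lo hi t e : ℕ} (he : 0 < H e) :
    (ZSH H n lo hi t e) ⊆ {z : List Bool | z.length ≤ hi} := by
  intro z hz
  have h1 := hz.2.2.2.2
  have h2 := alenH_pos (z := z) he
  simp only [Set.mem_ofPred_eq]
  omega

theorem ZSH_finite {n lo hi t e : ℕ} (he : 0 < H e) : Finite (ZSH H n lo hi t e) :=
  ((List.finite_length_le Bool _).subset (ZSH_sub he)).to_subtype

theorem ZSH_card {n lo hi t e : ℕ} (he : 0 < H e) [Fintype (ZSH H n lo hi t e)] :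
    Fintype.card (ZSH H n lo hi t e) ≤ 2 ^ (hi + 1) := by
  haveI := multi_finite_le hi
  letI : Fintype {q : List Bool // q.length ≤ hi} := Fintype.ofFinite _
  refine le_trans ?_ (multi_card_le hi)
  refine Fintype.card_le_of_injective (fun z => ⟨z.1, ZSH_sub he z.2⟩) ?_
  intro a b h
  ext1
  simpa using h

/-- the positions of the entries of a group are long -/
theorem gposH_long (hH : ∀ e, e ^ 2 ≤ H e) {n lo hi t e : ℕ} (he : Adeq e) (hn : 2 ≤ n)
    {w : List Bool} {p : ZSH H n lo hi t e × (ℕ × Bool)} (h : gposH H n lo hi t e w = some p) :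
    2 ^ gkH H (t, e) ≤ w.length ∧ lo ≤ w.length := by
  have hz := p.1.2
  obtain ⟨-, -, -, hd⟩ := num_depH hH he hn hz.1 hz.2.1 hz.2.2.1
  have hl := taddrH_length (H := H) e p.1.1 p.2.1 p.2.2
  rw [← gposH_eq_some h] at hl
  have h4 := hz.2.2.2.1
  unfold gkH
  exact ⟨by simp only; omega, by omega⟩

/-- the entries of different groups have different positions -/
theorem gposH_disj {n lo hi t e t' e' : ℕ} (hne : (t', e') ≠ (t, e)) {z : List Bool}
    (hz : z ∈ ZSH H n lo hi t' e') (b : ℕ) (c : Bool) :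
    gposH H n lo hi t e (taddrH H e' z b c) = none := by
  apply gposH_taddrH_none
  rintro ⟨h1, h2⟩
  subst h1
  have := class_unique hz.1 hz.2.1 h2.1 h2.2.1
  subst this
  exact hne rfl

end Pool.Agent.CKT
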