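import Pool.Agent.Lib_helper74.NE.Classes

/-!
# The class `UE^O`
-/

set_option autoImplicit false

namespace Pool.Agent.CK

/-- `L ∈ UE^O`: the program `c` accepts `x` with a witness `y`, in length and time
`2 ^ (k (|x| + 1))`, for exactly the words `x` of `L`, and each `x` has at most one witness. -/
def InUE (O L : Lang) : Prop :=
  ∃ (c : Cmd) (k : ℕ), (∀ x : List Bool, L x = true ↔ ∃ y, NEWitness O c k x y) ∧
    ∀ x y y' : List Bool, NEWitness O c k x y → NEWitness O c k x y' → y = y'

end Pool.Agent.CK
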