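import Pool.Agent.Lib_helper23.CKT.Defs

/-! # CKT block HCP (helper14): hard pairs -/

set_option autoImplicit false

namespace Pool.Agent.CKT

open Pool.Agent.CK

theorem hcp_lift {Q : Type} (Θ : Set (Q → DT Bool)) (O : Lang) (l : List (Q → Bool))
    (h : ∀ f ∈ l, ∃ t ∈ Θ, ∃ β : Bool, f = fun q => (t q).eval O == β) :
    ∃ l' : List ((Q → DT Bool) × Bool), l'.length = l.length ∧ (∀ t ∈ l', t.1 ∈ Θ) ∧
      l = l'.map fun t q => (t.1 q).eval O == t.2 := by
  induction l with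
  | nil => exact ⟨[], rfl, by simp, rfl⟩
  | cons f l ih =>
    obtain ⟨l', h1, h2, h3⟩ := ih fun g hg => h g (List.mem_cons_of_mem _ hg)
    obtain ⟨t, ht, β, hf⟩ := h f (List.mem_cons_self ..)
    refine ⟨(t, β) :: l', by simp [h1], ?_, ?_⟩
    · intro s hs
      rcases List.mem_cons.1 hs with rfl | hs
      · exact ht
      · exact h2 s hs
    · rw [List.map_cons, ← h3, hf]

/-- HCP: hard pairs. -/
theorem hcp (n k B : ℕ) (hB : 1 ≤ B) (hQ : Fintype.card (QK n k) ≤ 2 ^ B)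
    (Θ : Set (QK n k → DT Bool)) (O : Lang) (v : X n → Bool)
    (hard : ∀ A ∈ Cmp n k (4 * B ^ 2 * (2 * B + 1)) Θ, ∃ x, (A x).eval O ≠ v x)
    (e : ℕ) (he : e ≤ k) (hM : ∀ x : X n, PL (iM e) (join O (NL (iC e) O)) x.1 = v x) :
    ∃ ν : Bool → QK n k → ℝ, (∀ b, (∀ q, 0 ≤ ν b q) ∧ ∑ q, ν b q = 1) ∧
      (∀ b q, ν b q ≠ 0 → NL (iC e) O q.1 = b) ∧ Hard ν Θ O (1 / (B : ℝ)) := by
  classical
  rcases hardcore (fun q : QK n k => NL (iC e) O q.1)
    {f | ∃ t ∈ Θ, ∃ β : Bool, f = fun q => (t q).eval O == β} B B hB hQ with h | h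
  · obtain ⟨ν, h1, h2, h3⟩ := h
    exact ⟨ν, h1, h2, fun t ht β => h3 _ ⟨t, ht, β, rfl⟩⟩
  · exfalso
    obtain ⟨l, hl, hD, θ, hθ, hc⟩ := h
    obtain ⟨l', h1, h2, h3⟩ := hcp_lift Θ O l hD
    obtain ⟨x, hx⟩ := hard (fun x => DT.tr (fun w => match qfK n k w with
      | none => DT.leaf false
      | some q => DT.thr (l'.map fun t => (t.1 q).map fun b => b == t.2) θ) (PT (iM e) x.1))
      ⟨e, he, l', by rw [h1]; exact hl, h2, θ, by rw [h1]; exact hθ, rfl⟩
    apply hx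
    rw [← hM x, DT.eval_tr, ← eval_PT]
    have hallQ := allQ_PT (iM e) x.1
    rw [x.2] at hallQ
    refine DT.eval_join_congr _ _ hallQ (fun w _ => rfl) (fun q hq => ?_)
    simp only [List.length_cons] at hq
    have hex : ex (iM e) ≤ k := (ex_le _).trans ((iM_le _).trans he)
    have hp : (n + 2) ^ ex (iM e) ≤ (n + 2) ^ k := Nat.pow_le_pow_right (by omega) hex
    have hq2 : q.length ≤ qk n k := by unfold qk; omega
    simp only [qfK, dif_pos hq2]
    rw [DT.eval_thr, hc ⟨q, hq2⟩, h3, List.countP_map, List.countP_map]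
    congr 2
    apply List.countP_congr
    intro t _
    simp only [Function.comp, DT.eval_map]

end Pool.Agent.CKT
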