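import Pool.Agent.Lib_helper23.CKT.Defs
import Pool.Agent.Lib_helper74.CKF.CARD

/-! # The derived classes are small -/

set_option autoImplicit false

namespace Pool.Agent.CKT

open Pool.Agent.CK

theorem lcard_num (B : ℕ) (hB : 2 ≤ B) :
    (B + (B + ((2 * B + 1) * (4 * B * (3 * B + 1) * B) + ((B + 1) * B + (B + 1) * B)))) ≤
      B ^ 38 := by
  have h1 : (B + (B + ((2 * B + 1) * (4 * B * (3 * B + 1) * B) + ((B + 1) * B + (B + 1) * B)))) ≤
      64 * B ^ 4 := by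
    obtain ⟨b, rfl⟩ : ∃ b, B = b + 2 := ⟨B - 2, by omega⟩
    nlinarith [Nat.zero_le b, Nat.zero_le (b ^ 2), Nat.zero_le (b ^ 3), Nat.zero_le (b ^ 4)]
  have h2 : (2:ℕ) ^ 6 ≤ B ^ 6 := Nat.pow_le_pow_left hB 6
  have h3 : 2 ^ 6 * B ^ 4 ≤ B ^ 6 * B ^ 4 := Nat.mul_le_mul_right _ h2
  have h4 : B ^ 6 * B ^ 4 = B ^ 10 := by ring
  have h5 : B ^ 10 ≤ B ^ 38 := Nat.pow_le_pow_right (by omega) (by norm_num)
  omega

theorem lcard_pow (B : ℕ) (hB : 2 ≤ B) : B ^ 38 + 1 ≤ B ^ CC := by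
  have e : B ^ CC = B ^ 38 * (B * B) := by rw [CC]; ring
  have e2 : 1 ≤ B ^ 38 := Nat.one_le_pow _ _ (by omega)
  rw [e]
  have h4 : 4 ≤ B * B := Nat.mul_le_mul hB hB
  have h5 := Nat.mul_le_mul_left (B ^ 38) h4
  omega

theorem small_lnext {Z Q ι : Type} [Fintype Z] [DecidableEq Z] [Fintype Q] [DecidableEq Q]
    (pos : List Bool → Option (Z × ι)) (rd : Q → ι → Bool) (Θ : Set (Q → DT Bool)) (B : ℕ)
    (hB : 2 ≤ B) (hΘ : Small B Θ) (hZ : Fintype.card Z ≤ 2 ^ B) (hQ : Fintype.card Q ≤ 2 ^ B) :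
    Small (B ^ CC) (LNext pos rd B Θ) := by
  have h1 := card_image (fun p : (Q → DT Bool) × (List (Z × Q) × List Q) =>
      (fun q => sim pos rd (p.1 q) p.2.1 p.2.2 : Q → DT Bool))
    (card_prod (card_fam hΘ) (card_prod (card_lists (card_ZQ hZ hQ) (4 * B * (3 * B + 1) * B))
      (card_lists hQ B)))
  have h2 := card_image (fun p : (Q → DT Bool) × (Q × (List (Z × Q) × (List Q × List Q))) =>
      (fun q => sim pos rd (p.1 p.2.1) p.2.2.1 (p.2.2.2.1 ++ q :: p.2.2.2.2) : Q → DT Bool))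
    (card_prod (card_fam hΘ) (card_prod (card_univ hQ)
      (card_prod (card_lists (card_ZQ hZ hQ) (4 * B * (3 * B + 1) * B))
        (card_prod (card_lists hQ B) (card_lists hQ B)))))
  have h3 := card_mono (card_union (card_mono h1 le_rfl (m := B ^ 38) (by
      have := lcard_num B hB
      omega)) (card_mono h2 le_rfl (lcard_num B hB))) le_rfl (lcard_pow B hB)
  have hsub := card_mono (S := LNext pos rd B Θ) h3 (by
    rintro t' (⟨t, ht, ρ, hρ, r, hr, rfl⟩ | ⟨t, ht, q0, ρ, hρ, pre, post, h4, h5, rfl⟩)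
    · left
      exact ⟨(t, (ρ, r)), ⟨ht, hρ, hr⟩, rfl⟩
    · right
      exact ⟨(t, (q0, (ρ, (pre, post)))), ⟨ht, trivial, hρ, h4, h5⟩, rfl⟩) le_rfl
  refine ⟨hsub.1, hsub.2, ?_⟩
  have hBC : B ≤ B ^ CC := Nat.le_self_pow (by decide) B
  rintro t' (⟨t, ht, ρ, hρ, r, hr, rfl⟩ | ⟨t, ht, q0, ρ, hρ, pre, post, h4, h5, rfl⟩) q
  · exact (depth_sim pos rd _ _ _).trans ((hΘ.2.2 t ht q).trans hBC)
  · exact (depth_sim pos rd _ _ _).trans ((hΘ.2.2 t ht q0).trans hBC)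

theorem small_fix {Y Z Q ι : Type} [Fintype Y] [DecidableEq Z]
    (pos : List Bool → Option (Z × ι)) (rd : Y → ι → Bool) (Θ : Set (Q → DT Bool)) (B s : ℕ)
    (hΘ : Small B Θ) (hY : Fintype.card Y ≤ 2 ^ s) : Small (B + s) (Fix pos rd B Θ) := by
  have h1 := card_image (fun p : (Q → DT Bool) × Y =>
      (fun q => sim pos rd (p.1 q) [] (List.replicate B p.2) : Q → DT Bool))
    (card_prod (S := Θ) (n := B) ⟨hΘ.1, hΘ.2.1⟩ (card_univ hY))
  have h2 := card_mono (S := Fix pos rd B Θ) h1 (by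
    rintro t' ⟨t, ht, y, rfl⟩
    exact ⟨(t, y), ⟨ht, trivial⟩, rfl⟩) le_rfl
  refine ⟨h2.1, h2.2, ?_⟩
  rintro t' ⟨t, ht, y, rfl⟩ q
  have := hΘ.2.2 t ht q
  exact (depth_sim pos rd _ _ _).trans (by omega)

theorem lcard_num2 (B : ℕ) (hB : 2 ≤ B) :
    B + (((B + 1 + 1) * (4 * B ^ 2 * (2 * B + 1))) + (4 * B ^ 2 * (2 * B + 1) + 1 + 1)) ≤
      B ^ 38 := by
  have h1 : B + (((B + 1 + 1) * (4 * B ^ 2 * (2 * B + 1))) +
      (4 * B ^ 2 * (2 * B + 1) + 1 + 1)) ≤ 64 * B ^ 4 := by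
    obtain ⟨b, rfl⟩ : ∃ b, B = b + 2 := ⟨B - 2, by omega⟩
    nlinarith [Nat.zero_le b, Nat.zero_le (b ^ 2), Nat.zero_le (b ^ 3), Nat.zero_le (b ^ 4)]
  have h2 : (2:ℕ) ^ 6 ≤ B ^ 6 := Nat.pow_le_pow_left hB 6
  have h3 : 2 ^ 6 * B ^ 4 ≤ B ^ 6 * B ^ 4 := Nat.mul_le_mul_right _ h2
  have h4 : B ^ 6 * B ^ 4 = B ^ 10 := by ring
  have h5 : B ^ 10 ≤ B ^ 38 := Nat.pow_le_pow_right (by omega) (by norm_num)
  omega

theorem lcard_num3 (B : ℕ) (hB : 2 ≤ B) : B * (4 * B ^ 2 * (2 * B + 1) * B) ≤ B ^ CC := by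
  have h1 : (2 * B + 1) ≤ 4 * B := by omega
  have h2 : (2:ℕ) ^ 4 ≤ B ^ 4 := Nat.pow_le_pow_left hB 4
  calc B * (4 * B ^ 2 * (2 * B + 1) * B) ≤ B * (4 * B ^ 2 * (4 * B) * B) :=
        Nat.mul_le_mul_left _ (Nat.mul_le_mul_right _ (Nat.mul_le_mul_left _ h1))
    _ = 2 ^ 4 * B ^ 5 := by ring
    _ ≤ B ^ 4 * B ^ 5 := Nat.mul_le_mul_right _ h2
    _ = B ^ 9 := by ring
    _ ≤ B ^ CC := Nat.pow_le_pow_right (by omega) (by decide)

theorem small_cmp (n k : ℕ) (Θ : Set (QK n k → DT Bool)) (B : ℕ) (hB : 2 ≤ B) (hΘ : Small B Θ)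
    (hk : k + 1 ≤ 2 ^ B) (hM : (n + 2) ^ k ≤ B) :
    Small (B ^ CC) (Cmp n k (4 * B ^ 2 * (2 * B + 1)) Θ) := by
  set L := 4 * B ^ 2 * (2 * B + 1) with hL
  have hk' : CardBd {e : ℕ | e ≤ k} B := by
    have h : {e : ℕ | e ≤ k} = ((Finset.range (k + 1) : Finset ℕ) : Set ℕ) := by
      ext x
      simp
    rw [h]
    refine ⟨Finset.finite_toSet _, ?_⟩
    rw [Set.ncard_coe_finset, Finset.card_range]
    exact hk
  have hb : CardBd (Set.univ : Set Bool) 1 := card_univ (by simp)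
  have h1 := card_image (fun p : ℕ × (List ((QK n k → DT Bool) × Bool) × ℕ) =>
      (fun x => DT.tr (fun w => match qfK n k w with
      | none => DT.leaf false
      | some q => DT.thr (p.2.1.map fun t => (t.1 q).map fun b => b == t.2) p.2.2)
        (PT (iM p.1) x.1) : X n → DT Bool))
    (card_prod hk' (card_prod (card_list (card_prod (card_fam hΘ) hb) L)
      (card_nat (L + 1))))
  have h2 := card_mono (S := Cmp n k L Θ) h1 (by
    rintro A ⟨e, he, l, hl, hl', θ, hθ, rfl⟩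
    exact ⟨(e, (l, θ)), ⟨he, ⟨hl, fun a ha => ⟨hl' a ha, trivial⟩⟩, by
      change θ ≤ L + 1
      omega⟩, rfl⟩) ((lcard_num2 B hB).trans ((Nat.le_succ _).trans (lcard_pow B hB)))
  refine ⟨h2.1, h2.2, ?_⟩
  rintro A ⟨e, he, l, hl, hl', θ, hθ, rfl⟩ x
  have hPT : (PT (iM e) x.1).depth ≤ B := by
    refine (depth_PT _ _).trans ?_
    rw [x.2]
    exact (Nat.pow_le_pow_right (by omega) ((ex_le _).trans ((iM_le _).trans he))).trans hM
  refine (DT.depth_tr _ (PT (iM e) x.1) (L * B) ?_ ?_).trans ?_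
  · have : 0 < L * B := by positivity
    omega
  · intro w
    cases qfK n k w with
    | none => simp
    | some q =>
      refine (DT.depth_thr _ _ B ?_).trans ?_
      · intro t ht
        obtain ⟨t', ht', rfl⟩ := List.mem_map.1 ht
        rw [DT.depth_map]
        exact hΘ.2.2 _ (hl' t' ht') _
      · rw [List.length_map]
        exact Nat.mul_le_mul_right _ hl
  · exact (Nat.mul_le_mul_right _ hPT).trans (lcard_num3 B hB)

end Pool.Agent.CKT
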