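import Pool.Agent.Lib_helper23.CKT.Defs
import Pool.Agent.Lib_helper23.CKT.APATH

/-!
# Block LSTEP
-/

set_option autoImplicit false

namespace Pool.Agent.CKT

open Pool.Agent.CK

theorem lstep_ind_nonneg (b : Bool) : 0 ≤ ind b := by
  unfold ind; split_ifs <;> norm_num

theorem lstep_ind_le_one (b : Bool) : ind b ≤ 1 := by
  unfold ind; split_ifs <;> norm_num

theorem lstep_ind_true (b : Bool) : ind (b == true) = ind b := by
  cases b <;> rfl

theorem lstep_ind_add (b β : Bool) : ind (b == β) + ind (b == !β) = 1 := by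
  cases b <;> cases β <;> simp [ind]

/-- two-sided version of `hybrid` -/
theorem lstep_hyb {Z Q ι : Type} [Fintype Z] [DecidableEq Z] [Fintype Q] [DecidableEq Q]
    (ν : Bool → Q → ℝ) (hν : ∀ b, (∀ q, 0 ≤ ν b q) ∧ ∑ q, ν b q = 1) (κ : Z → Bool)
    (pos : List Bool → Option (Z × ι)) (rd : Q → ι → Bool) (O : Lang) (β : Bool) (ε : ℝ)
    (hε : 0 ≤ ε) (A : DT Bool) (ρ : List (Z × Q)) (K : ℕ) (hK : A.depth ≤ K)
    (hD : ∀ β' : Bool, ∀ pre post : List Q, pre.length ≤ K → post.length ≤ K →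
      ∑ q, ν true q * ind ((sim pos rd A ρ (pre ++ q :: post)).eval O == β') ≤
        ∑ q, ν false q * ind ((sim pos rd A ρ (pre ++ q :: post)).eval O == β') + ε) :
    |Pr (fun z => ν (κ z)) ρ (fun T => ind (A.eval (patch pos rd O T) == β)) -
      exL (ν false) K (fun r => ind ((sim pos rd A ρ r).eval O == β))| ≤ K * ε := by
  have hμ : IsPD (fun z : Z => ν (κ z)) := fun z => hν (κ z)
  have h1 := hybrid ν hν κ pos rd O β ε hε A ρ K hK (hD β)
  have h2 := hybrid ν hν κ pos rd O (!β) ε hε A ρ K hK (hD (!β))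
  have h3 : Pr (fun z => ν (κ z)) ρ (fun T => ind (A.eval (patch pos rd O T) == β)) +
      Pr (fun z => ν (κ z)) ρ (fun T => ind (A.eval (patch pos rd O T) == !β)) = 1 := by
    rw [← Pr_add, ← Pr_one hμ ρ]
    congr 1
    funext T
    exact lstep_ind_add _ β
  have h4 : exL (ν false) K (fun r => ind ((sim pos rd A ρ r).eval O == β)) +
      exL (ν false) K (fun r => ind ((sim pos rd A ρ r).eval O == !β)) = 1 := by
    rw [← hyb_exL_add, ← hyb_exL_const (hν false).2 K (1 : ℝ)]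
    congr 1
    funext r
    exact lstep_ind_add _ β
  rw [abs_le]
  constructor <;> linarith

/-- iterated convex combinations -/
theorem lstep_exL_mem {Q : Type} [Fintype Q] (S : Set (Lang → ℝ)) (hS : Convex ℝ S) (ν : Q → ℝ)
    (h0 : ∀ q, 0 ≤ ν q) (h1 : ∑ q, ν q = 1) (d : ℕ) (F : List Q → Lang → ℝ)
    (hF : ∀ r : List Q, r.length = d → F r ∈ S) : (fun O => exL ν d (fun r => F r O)) ∈ S := by
  induction d generalizing F with
  | zero => exact hF [] rfl
  | succ d ih =>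
    have h2 : (fun O => exL ν (d + 1) (fun r => F r O)) =
        ∑ q, ν q • (fun O => exL ν d (fun r => F (q :: r) O)) := by
      funext O
      simp [exL, Finset.sum_apply]
    rw [h2]
    exact hS.sum_mem (fun q _ => h0 q) h1 fun q _ =>
      ih (fun r => F (q :: r)) fun r hr => hF (q :: r) (by simp [hr])

/-- LSTEP: one group of the large part, for mixtures. -/
theorem lmix {Z Q ι : Type} [Fintype Z] [DecidableEq Z] [Fintype Q] [DecidableEq Q]
    (pos : List Bool → Option (Z × ι)) (rd : Q → ι → Bool) (Θ : Set (Q → DT Bool)) (B : ℕ)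
    (hΘ : Small B Θ) (ν : Bool → Q → ℝ) (hν : ∀ b, (∀ q, 0 ≤ ν b q) ∧ ∑ q, ν b q = 1)
    (J : Lang → ℝ) (hJ : J ∈ Mix Θ) :
    ∃ J' ∈ Mix (LNext pos rd B Θ), ∀ (O : Lang) (κ : Z → Bool) (ε : ℝ), 0 ≤ ε →
      Hard ν (LNext pos rd B Θ) O ε →
      |Pr (fun z => ν (κ z)) [] (fun T => J (patch pos rd O T)) - J' O| ≤ B * ε := by
  set t : Set (Lang → ℝ) := {J | ∃ J' ∈ Mix (LNext pos rd B Θ), ∀ (O : Lang) (κ : Z → Bool)
      (ε : ℝ), 0 ≤ ε → Hard ν (LNext pos rd B Θ) O ε →
      |Pr (fun z => ν (κ z)) [] (fun T => J (patch pos rd O T)) - J' O| ≤ B * ε} with ht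
  have hconv : Convex ℝ t := by
    rintro J1 ⟨J1', hm1, hb1⟩ J2 ⟨J2', hm2, hb2⟩ a b ha hb hab
    refine ⟨a • J1' + b • J2', (convex_convexHull ℝ _) hm1 hm2 ha hb hab, ?_⟩
    intro O κ ε hε hH
    have e1 := hb1 O κ ε hε hH
    have e2 := hb2 O κ ε hε hH
    have e3 : Pr (fun z => ν (κ z)) [] (fun T => (a • J1 + b • J2) (patch pos rd O T)) =
        a * Pr (fun z => ν (κ z)) [] (fun T => J1 (patch pos rd O T)) +
        b * Pr (fun z => ν (κ z)) [] (fun T => J2 (patch pos rd O T)) := by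
      rw [← Pr_mul, ← Pr_mul, ← Pr_add]
      rfl
    have e4 : (a • J1' + b • J2') O = a * J1' O + b * J2' O := rfl
    rw [e3, e4]
    rw [abs_le] at e1 e2 ⊢
    have hb' : b = 1 - a := by linarith
    subst hb'
    constructor <;> nlinarith [e1.1, e1.2, e2.1, e2.2]
  have hsub : {F : Lang → ℝ | ∃ A : DT Bool, (fun _ => A) ∈ Θ ∧ F = fun O => ind (A.eval O)} ⊆ t := by
    rintro F ⟨A, hA, rfl⟩
    refine ⟨fun O => exL (ν false) B (fun r => ind ((sim pos rd A [] r).eval O)), ?_, ?_⟩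
    · apply lstep_exL_mem (Mix (LNext pos rd B Θ)) (convex_convexHull ℝ _) (ν false) (hν false).1
        (hν false).2 B (fun r O => ind ((sim pos rd A [] r).eval O))
      intro r hr
      apply subset_convexHull ℝ
      exact ⟨sim pos rd A [] r, Or.inl ⟨fun _ => A, hA, [], by simp, r, hr.le, rfl⟩, rfl⟩
    · intro O κ ε hε hH
      obtain ⟨q0⟩ : Nonempty Q := by
        by_contra hne
        rw [not_nonempty_iff] at hne
        have := (hν false).2
        simp at this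
      have h1 := lstep_hyb ν hν κ pos rd O true ε hε A [] B (hΘ.2.2 _ hA q0)
        (fun β' pre post hpre hpost => hH _ (Or.inr ⟨fun _ => A, hA, q0, [], by simp, pre, post,
          hpre, hpost, rfl⟩) β')
      simpa only [lstep_ind_true] using h1
  exact convexHull_min hsub hconv hJ

theorem lstep_mix_bd {Q : Type} (Θ : Set (Q → DT Bool)) (J : Lang → ℝ) (hJ : J ∈ Mix Θ)
    (O : Lang) : 0 ≤ J O ∧ J O ≤ 1 := by
  have hconv : Convex ℝ {J : Lang → ℝ | 0 ≤ J O ∧ J O ≤ 1} := by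
    rintro J1 ⟨h1, h2⟩ J2 ⟨h3, h4⟩ a b ha hb hab
    have e4 : (a • J1 + b • J2) O = a * J1 O + b * J2 O := rfl
    simp only [Set.mem_setOf_eq, e4]
    have hb' : b = 1 - a := by linarith
    subst hb'
    constructor <;> nlinarith
  refine convexHull_min ?_ hconv hJ
  rintro F ⟨A, hA, rfl⟩
  exact ⟨lstep_ind_nonneg _, lstep_ind_le_one _⟩

theorem lstep_exL_le {Q : Type} [Fintype Q] {ν : Q → ℝ} (h0 : ∀ q, 0 ≤ ν q) (h1 : ∑ q, ν q = 1)
    (d : ℕ) (F : List Q → ℝ) (c : ℝ) (hF : ∀ r : List Q, r.length = d → F r ≤ c) :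
    exL ν d F ≤ c := by
  rw [← hyb_exL_const h1 d c]
  exact hyb_exL_mono h0 d hF

theorem lstep_num (B : ℕ) (hB : 4 ≤ B) :
    (2 * (B : ℝ) + 1) * (1 / ((B ^ CC : ℕ) : ℝ)) ≤ 1 / (4 * (B : ℝ)) := by
  have hB' : (4 : ℝ) ≤ B := by exact_mod_cast hB
  have h1 : (B : ℝ) ^ 4 ≤ ((B ^ CC : ℕ) : ℝ) := by
    push_cast
    exact pow_le_pow_right₀ (by linarith) (by norm_num [CC])
  have h2 : (0 : ℝ) < (B : ℝ) ^ 4 := by positivity
  have h3 : (0 : ℝ) < ((B ^ CC : ℕ) : ℝ) := lt_of_lt_of_le h2 h1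
  rw [mul_one_div, div_le_div_iff₀ h3 (by positivity)]
  have h5 : (2 * (B : ℝ) + 1) * (4 * B) ≤ 16 * B ^ 2 := by nlinarith
  have h6 : (16 : ℝ) ≤ (B : ℝ) ^ 2 := by nlinarith
  have h7 : 16 * (B : ℝ) ^ 2 ≤ (B : ℝ) ^ 2 * (B : ℝ) ^ 2 :=
    mul_le_mul_of_nonneg_right h6 (by positivity)
  have h8 : (B : ℝ) ^ 2 * (B : ℝ) ^ 2 = (B : ℝ) ^ 4 := by ring
  linarith

/-- the probability that a test distinguishes the distributions after the patch is small -/
theorem lstep_event {Z Q ι : Type} [Fintype Z] [DecidableEq Z] [Fintype Q] [DecidableEq Q]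
    (pos : List Bool → Option (Z × ι)) (rd : Q → ι → Bool) (Θ : Set (Q → DT Bool)) (B : ℕ)
    (hB : 4 ≤ B) (hΘ : Small B Θ) (ν ν' : Bool → Q → ℝ)
    (hν : ∀ b, (∀ q, 0 ≤ ν b q) ∧ ∑ q, ν b q = 1)
    (hν' : ∀ b, (∀ q, 0 ≤ ν' b q) ∧ ∑ q, ν' b q = 1) (O : Lang) (κ : Z → Bool)
    (hard : Hard ν (LNext pos rd B Θ) O (1 / ((B ^ CC : ℕ) : ℝ)))
    (hard' : Hard ν' (LNext pos rd B Θ) O (1 / ((B ^ CC : ℕ) : ℝ)))
    (t : Q → DT Bool) (ht : t ∈ Θ) (b : Bool) :
    Pr (fun z => ν (κ z)) [] (fun T => ind (decide (1 / (B : ℝ) <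
      ∑ q, (ν' true q - ν' false q) * ind ((t q).eval (patch pos rd O T) == b)))) <
      (1 / 2 : ℝ) ^ (3 * B) := by
  by_contra hcon
  push Not at hcon
  have hμ : IsPD (fun z : Z => ν (κ z)) := fun z => hν (κ z)
  have hw : ∑ q, |ν' true q - ν' false q| ≤ 2 := by
    calc ∑ q, |ν' true q - ν' false q| ≤ ∑ q, (ν' true q + ν' false q) := by
          refine Finset.sum_le_sum fun q _ => ?_
          rw [abs_le]
          have h1 := (hν' true).1 q
          have h2 := (hν' false).1 q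
          constructor <;> linarith
      _ = 2 := by rw [Finset.sum_add_distrib, (hν' true).2, (hν' false).2]; norm_num
  obtain ⟨ρ, hρ, hlt⟩ := apath_lemma hμ pos rd O t (fun q => ν' true q - ν' false q) hw b B
    (by omega) (fun q => hΘ.2.2 t ht q) (3 * B) hcon
  set ε : ℝ := 1 / ((B ^ CC : ℕ) : ℝ) with hεdef
  have hε : 0 ≤ ε := by positivity
  have h1 : Pr (fun z => ν (κ z)) ρ (fun T => ∑ q, (ν' true q - ν' false q) *
      ind ((t q).eval (patch pos rd O T) == b)) = ∑ q, (ν' true q - ν' false q) *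
      Pr (fun z => ν (κ z)) ρ (fun T => ind ((t q).eval (patch pos rd O T) == b)) := by
    rw [pm_sum]
    exact Finset.sum_congr rfl fun q _ => Pr_mul _ _ _ _
  have h2 : ∀ q, |Pr (fun z => ν (κ z)) ρ (fun T => ind ((t q).eval (patch pos rd O T) == b)) -
      exL (ν false) B (fun r => ind ((sim pos rd (t q) ρ r).eval O == b))| ≤ B * ε := fun q =>
    lstep_hyb ν hν κ pos rd O b ε hε (t q) ρ B (hΘ.2.2 t ht q)
      (fun β' pre post hpre hpost => hard _ (Or.inr ⟨t, ht, q, ρ, hρ, pre, post,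
          hpre, hpost, rfl⟩) β')
  have h3 : ∑ q, (ν' true q - ν' false q) *
      Pr (fun z => ν (κ z)) ρ (fun T => ind ((t q).eval (patch pos rd O T) == b)) ≤
      ∑ q, (ν' true q - ν' false q) *
        exL (ν false) B (fun r => ind ((sim pos rd (t q) ρ r).eval O == b)) + 2 * (B * ε) := by
    have h4 : ∀ q, (ν' true q - ν' false q) *
        Pr (fun z => ν (κ z)) ρ (fun T => ind ((t q).eval (patch pos rd O T) == b)) ≤
        (ν' true q - ν' false q) *
        exL (ν false) B (fun r => ind ((sim pos rd (t q) ρ r).eval O == b)) +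
        |ν' true q - ν' false q| * (B * ε) := by
      intro q
      have h5 := h2 q
      have h6 : (ν' true q - ν' false q) *
          (Pr (fun z => ν (κ z)) ρ (fun T => ind ((t q).eval (patch pos rd O T) == b)) -
          exL (ν false) B (fun r => ind ((sim pos rd (t q) ρ r).eval O == b))) ≤
          |ν' true q - ν' false q| * (B * ε) := by
        refine (le_abs_self _).trans ?_
        rw [abs_mul]
        exact mul_le_mul_of_nonneg_left h5 (abs_nonneg _)
      linarith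
    refine (Finset.sum_le_sum fun q _ => h4 q).trans ?_
    rw [Finset.sum_add_distrib, ← Finset.sum_mul]
    have h7 : 0 ≤ (B : ℝ) * ε := by positivity
    have h8 := mul_le_mul_of_nonneg_right hw h7
    linarith
  have h4 : ∑ q, (ν' true q - ν' false q) *
        exL (ν false) B (fun r => ind ((sim pos rd (t q) ρ r).eval O == b)) ≤ ε := by
    rw [← hyb_exL_sum (ν false) B Finset.univ (fun q => ν' true q - ν' false q)
      (fun q r => ind ((sim pos rd (t q) ρ r).eval O == b))]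
    refine lstep_exL_le (hν false).1 (hν false).2 B _ ε fun r hr => ?_
    have h5 := hard' (fun q => sim pos rd (t q) ρ r)
      (Or.inl ⟨t, ht, ρ, hρ, r, hr.le, rfl⟩) b
    simp only [sub_mul, Finset.sum_sub_distrib]
    linarith
  have h5 := lstep_num B hB
  rw [h1] at hlt
  rw [← hεdef] at h5
  linarith

theorem lstep_sg_Pr {Z Q : Type} [Fintype Z] [DecidableEq Z] [Fintype Q] [DecidableEq Q]
    {μ : Z → Q → ℝ} (hμ : IsPD μ) (β : Bool) (F : (Z → Q) → ℝ) :
    Pr μ [] (fun T => sg β (F T)) = sg β (Pr μ [] F) := by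
  cases β with
  | true => simp [sg]
  | false =>
    simp only [sg, Bool.false_eq_true, if_false]
    have h1 : Pr μ [] (fun T => 1 - F T) = Pr μ [] (fun T => 1 + (-1) * F T) := by
      congr 1; funext T; ring
    rw [h1, Pr_add, Pr_mul, Pr_one hμ]
    ring

/-- LSTEP: one group of the large part. -/
theorem lstep {Z Q ι : Type} [Fintype Z] [DecidableEq Z] [Fintype Q] [DecidableEq Q]
    (pos : List Bool → Option (Z × ι)) (rd : Q → ι → Bool) (Θ : Set (Q → DT Bool)) (k B : ℕ)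
    (hB : 4 ≤ B) (hkB : k + 1 ≤ B) (hΘ : Small B Θ) (ν : ℕ → Bool → Q → ℝ)
    (hν : ∀ e b, (∀ q, 0 ≤ ν e b q) ∧ ∑ q, ν e b q = 1) (e0 : ℕ) (he0 : e0 ≤ k)
    (J J' : Lang → ℝ) (hJ : J ∈ Mix Θ) (O : Lang) (κ : Z → Bool)
    (hJ' : |Pr (fun z => ν e0 (κ z)) [] (fun T => J (patch pos rd O T)) - J' O| ≤ 1 / (B : ℝ))
    (hard : ∀ e ≤ k, Hard (ν e) (LNext pos rd B Θ) O (1 / ((B ^ CC : ℕ) : ℝ))) (β : Bool) :
    ∃ T : Z → Q, (∀ z, ν e0 (κ z) (T z) ≠ 0) ∧
      (∀ e ≤ k, Hard (ν e) Θ (patch pos rd O T) (1 / (B : ℝ))) ∧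
      sg β (J' O) - 2 / B ≤ sg β (J (patch pos rd O T)) := by
  classical
  have hB' : (4 : ℝ) ≤ B := by exact_mod_cast hB
  have hB0 : (0 : ℝ) < B := by linarith
  have hμ : IsPD (fun z : Z => ν e0 (κ z)) := fun z => hν e0 (κ z)
  obtain ⟨hfin, hcard, hdep⟩ := id hΘ
  have hcard' : (hfin.toFinset.card : ℝ) ≤ 2 ^ B := by
    have : hfin.toFinset.card ≤ 2 ^ B := by rwa [← Set.ncard_eq_toFinset_card Θ hfin]
    exact_mod_cast this
  set V : ℕ → (Q → DT Bool) → Bool → (Z → Q) → ℝ := fun e t b T =>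
    ind (decide (1 / (B : ℝ) < ∑ q, (ν e true q - ν e false q) *
      ind ((t q).eval (patch pos rd O T) == b))) with hV
  set S : (Z → Q) → ℝ := fun T => ∑ e ∈ Finset.range (k + 1), ∑ t ∈ hfin.toFinset,
    ∑ b : Bool, V e t b T with hS
  have hV0 : ∀ e t b T, 0 ≤ V e t b T := fun e t b T => lstep_ind_nonneg _
  have hPV : ∀ e ∈ Finset.range (k + 1), ∀ t ∈ hfin.toFinset, ∀ b : Bool,
      Pr (fun z => ν e0 (κ z)) [] (V e t b) ≤ (1 / 2 : ℝ) ^ (3 * B) := by
    intro e he t ht b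
    exact (lstep_event pos rd Θ B hB hΘ (ν e0) (ν e) (hν e0) (hν e) O κ (hard e0 he0)
      (hard e (by simpa [Nat.lt_succ_iff] using he)) t (hfin.mem_toFinset.1 ht) b).le
  have hPS : Pr (fun z => ν e0 (κ z)) [] S ≤ (B : ℝ) * (2 ^ B * (2 * (1 / 2 : ℝ) ^ (3 * B))) := by
    have h1 : Pr (fun z => ν e0 (κ z)) [] S = ∑ e ∈ Finset.range (k + 1),
        ∑ t ∈ hfin.toFinset, ∑ b : Bool, Pr (fun z => ν e0 (κ z)) [] (V e t b) := by
      rw [hS, pm_sum]
      refine Finset.sum_congr rfl fun e _ => ?_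
      rw [pm_sum]
      refine Finset.sum_congr rfl fun t _ => ?_
      rw [pm_sum]
    rw [h1]
    have h2 : ∑ e ∈ Finset.range (k + 1), ∑ t ∈ hfin.toFinset, ∑ b : Bool,
        Pr (fun z => ν e0 (κ z)) [] (V e t b) ≤
        ∑ e ∈ Finset.range (k + 1), ∑ t ∈ hfin.toFinset, ∑ b : Bool, (1 / 2 : ℝ) ^ (3 * B) :=
      Finset.sum_le_sum fun e he => Finset.sum_le_sum fun t ht => Finset.sum_le_sum fun b _ =>
        hPV e he t ht b
    refine h2.trans ?_
    simp only [Finset.sum_const, Finset.card_range, nsmul_eq_mul, Finset.card_univ,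
      Fintype.card_bool]
    have h3 : ((k + 1 : ℕ) : ℝ) ≤ B := by exact_mod_cast hkB
    have h4 : (0 : ℝ) ≤ (1 / 2 : ℝ) ^ (3 * B) := by positivity
    refine mul_le_mul h3 ?_ (by positivity) hB0.le
    refine mul_le_mul_of_nonneg_right hcard' (by positivity)
  have hnum : 2 * ((B : ℝ) * (2 ^ B * (2 * (1 / 2 : ℝ) ^ (3 * B)))) < 1 / B := by
    have h1 : (2 : ℝ) ^ B * (1 / 2 : ℝ) ^ (3 * B) = (1 / 4 : ℝ) ^ B := by
      rw [pow_mul, ← mul_pow]
      norm_num
    have h2 : 2 * ((B : ℝ) * (2 ^ B * (2 * (1 / 2 : ℝ) ^ (3 * B)))) = 4 * B * (1 / 4 : ℝ) ^ B := by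
      rw [← h1]; ring
    rw [h2]
    have h3 : ∀ n : ℕ, 4 ≤ n → 4 * (n : ℝ) * n < 4 ^ n := by
      intro n hn
      induction n, hn using Nat.le_induction with
      | base => norm_num
      | succ n hn ih =>
        have hn' : (4 : ℝ) ≤ n := by exact_mod_cast hn
        push_cast
        rw [pow_succ]
        nlinarith
    have h4 := h3 B hB
    have h5 : (0 : ℝ) < 4 ^ B := by positivity
    have h6 : (1 / 4 : ℝ) ^ B = 1 / 4 ^ B := by rw [div_pow, one_pow]
    rw [h6, mul_one_div, div_lt_div_iff₀ h5 hB0]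
    linarith
  set c : ℝ := sg β (J' O) - 2 / B with hc
  have hPJ : sg β (J' O) - 1 / B ≤ Pr (fun z => ν e0 (κ z)) []
      (fun T => sg β (J (patch pos rd O T))) := by
    rw [lstep_sg_Pr hμ]
    rw [abs_le] at hJ'
    cases β with
    | true => simp only [sg, if_true]; linarith [hJ'.1]
    | false => simp only [sg, Bool.false_eq_true, if_false]; linarith [hJ'.2]
  have hcl : -1 < c := by
    have h1 : 0 ≤ Pr (fun z => ν e0 (κ z)) [] (fun T => J (patch pos rd O T)) := by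
      have h2 := Pr_mono hμ [] (F := fun _ => (0 : ℝ)) (G := fun T => J (patch pos rd O T))
        (fun T => (lstep_mix_bd Θ J hJ _).1)
      have h3 := Pr_mul (fun z => ν e0 (κ z)) [] 0 (fun _ => (1 : ℝ))
      simp only [zero_mul] at h3
      linarith
    have h4 : Pr (fun z => ν e0 (κ z)) [] (fun T => J (patch pos rd O T)) ≤ 1 := by
      rw [← Pr_one hμ []]
      exact Pr_mono hμ [] fun T => (lstep_mix_bd Θ J hJ _).2
    rw [abs_le] at hJ'
    have h5 : 1 / (B : ℝ) ≤ 1 / 4 := by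
      rw [div_le_div_iff₀ hB0 (by norm_num)]; linarith
    have h6 : 2 / (B : ℝ) = 2 * (1 / B) := by ring
    rw [hc, h6]
    cases β with
    | true => simp only [sg, if_true]; linarith [hJ'.2]
    | false => simp only [sg, Bool.false_eq_true, if_false]; linarith [hJ'.1]
  have hG : 0 < Pr (fun z => ν e0 (κ z)) [] (fun T => (sg β (J (patch pos rd O T)) +
      (-2) * S T) + (-c) * 1) := by
    rw [Pr_add, Pr_add, Pr_mul, Pr_mul, Pr_one hμ]
    have h6 : 2 / (B : ℝ) = 1 / B + 1 / B := by ring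
    rw [hc, h6]
    linarith
  obtain ⟨T, hT1, hT2⟩ := Pr_pos hμ [] _ hG
  have hS0 : 0 ≤ S T := Finset.sum_nonneg fun e _ => Finset.sum_nonneg fun t _ =>
    Finset.sum_nonneg fun b _ => hV0 e t b T
  refine ⟨T, fun z => hT1 z rfl, ?_, by linarith⟩
  intro e he t ht b
  by_contra hno
  push Not at hno
  have h1 : V e t b T = 1 := by
    have h2 : 1 / (B : ℝ) < ∑ q, (ν e true q - ν e false q) *
        ind ((t q).eval (patch pos rd O T) == b) := by
      simp only [sub_mul, Finset.sum_sub_distrib]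
      linarith
    have h3 : V e t b T = ind (decide (1 / (B : ℝ) < ∑ q, (ν e true q - ν e false q) *
        ind ((t q).eval (patch pos rd O T) == b))) := rfl
    rw [h3, decide_eq_true h2]
    rfl
  have h2 : 1 ≤ S T := by
    rw [← h1]
    calc V e t b T ≤ ∑ b : Bool, V e t b T :=
          Finset.single_le_sum (f := fun b => V e t b T) (fun b _ => hV0 e t b T)
            (Finset.mem_univ b)
      _ ≤ ∑ t ∈ hfin.toFinset, ∑ b : Bool, V e t b T :=
          Finset.single_le_sum (f := fun t => ∑ b : Bool, V e t b T)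
            (fun t _ => Finset.sum_nonneg fun b _ => hV0 e t b T) (hfin.mem_toFinset.2 ht)
      _ ≤ S T := Finset.single_le_sum (f := fun e => ∑ t ∈ hfin.toFinset, ∑ b : Bool, V e t b T)
            (fun e _ => Finset.sum_nonneg fun t _ => Finset.sum_nonneg fun b _ => hV0 e t b T)
            (Finset.mem_range.2 (by omega))
  have h3 : sg β (J (patch pos rd O T)) ≤ 1 := by
    have h4 := lstep_mix_bd Θ J hJ (patch pos rd O T)
    cases β with
    | true => simp only [sg, if_true]; linarith [h4.2]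
    | false => simp only [sg, Bool.false_eq_true, if_false]; linarith [h4.1]
  linarith

end Pool.Agent.CKT
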