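import Pool.Agent.Lib_helper23.CKT.Addr
import Pool.Agent.Lib_helper23.CKT.LCARD
import Pool.Agent.Lib_helper23.CKT.LSTEP

/-!
# The large part of a zone
-/

set_option autoImplicit false

namespace Pool.Agent.CKT

open Pool.Agent.CK

theorem large {H : ℕ → ℕ} (hH : ∀ e, e ^ 2 ≤ H e) (k n N E : ℕ) (hn : 2 ≤ n) (B : ℕ) (hB : 4 ≤ B)
    (hkB : k + 1 ≤ B) (hE : E + 1 ≤ B) (hq : qk n k + 1 ≤ B) (G : Finset (ℕ × ℕ))
    (hG : ∀ g ∈ G, g.2 ≤ k ∧ Adeq g.2) (Θ : Set (QK n k → DT Bool)) (hΘ : Small B Θ) :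
    ∃ Θ0 : Set (QK n k → DT Bool), Small (B ^ CC ^ G.card) Θ0 ∧
      ∀ ν : ℕ → Bool → QK n k → ℝ, (∀ e b, (∀ q, 0 ≤ ν e b q) ∧ ∑ q, ν e b q = 1) →
      ∀ J ∈ Mix Θ, ∃ J0 ∈ Mix Θ0, ∀ O0 : Lang,
        (∀ e ≤ k, Hard (ν e) Θ0 O0 (1 / ((B ^ CC ^ G.card : ℕ) : ℝ))) → ∀ β : Bool, ∃ O' : Lang,
          (∀ w, (∀ g ∈ G, gposH H n N E g.1 g.2 w = none) → O' w = O0 w) ∧
          (∀ g ∈ G, ∀ z ∈ ZSH H n N E g.1 g.2, ∃ q : QK n k,
            ν g.2 (NL (iN g.2) O' z) q ≠ 0 ∧ ∀ b c, O' (taddrH H g.2 z b c) = bit q.1 (b, c)) ∧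
          (∀ e ≤ k, Hard (ν e) Θ O' (1 / (B : ℝ))) ∧
          sg β (J0 O0) - 2 * G.card / B ≤ sg β (J O') := by
  classical
  induction hm : G.card generalizing G B Θ with
  | zero =>
    have hG0 : G = ∅ := Finset.card_eq_zero.1 hm
    refine ⟨Θ, by simpa using hΘ, fun ν _ J hJ => ⟨J, hJ, fun O0 hO0 β => ⟨O0, fun w _ => rfl,
      fun g hg => ?_, fun e he => ?_, ?_⟩⟩⟩
    · rw [hG0] at hg; simp at hg
    · have := hO0 e he
      simpa using this
    · simp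
  | succ m ih =>
    have hne : G.Nonempty := by
      rw [← Finset.card_pos, hm]; omega
    obtain ⟨g, hgG, hgmax⟩ := G.exists_max_image (gkH H) hne
    obtain ⟨hgk, hga⟩ := hG g hgG
    have hHg : 0 < H g.2 := H_pos hH hga
    have hcard : (G.erase g).card = m := by
      rw [Finset.card_erase_of_mem hgG, hm]; omega
    have hBC : B ≤ B ^ CC := Nat.le_self_pow (by decide) B
    have hpow : ∀ j, (B ^ CC) ^ CC ^ j = B ^ CC ^ (j + 1) := fun j => by
      rw [← pow_mul, pow_succ']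
    have hfin := ZSH_finite (H := H) (n := n) (lo := N) (hi := E) (t := g.1) hHg
    let _ : Fintype (ZSH H n N E g.1 g.2) := Fintype.ofFinite _
    have hZ : Fintype.card (ZSH H n N E g.1 g.2) ≤ 2 ^ B :=
      (ZSH_card hHg).trans (Nat.pow_le_pow_right (by norm_num) hE)
    have hQ : Fintype.card (QK n k) ≤ 2 ^ B :=
      (multi_card_le _).trans (Nat.pow_le_pow_right (by norm_num) hq)
    obtain ⟨Θ0, hΘ0, hmain⟩ := ih (B ^ CC) (hB.trans hBC) (hkB.trans hBC) (hE.trans hBC)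
      (hq.trans hBC) (G.erase g) (fun g' hg' => hG g' (Finset.mem_of_mem_erase hg'))
      (LNext (gposH H n N E g.1 g.2) (grdK n k) B Θ)
      (small_lnext _ _ Θ B (by omega) hΘ hZ hQ) hcard
    rw [hpow] at hΘ0 hmain
    refine ⟨Θ0, hΘ0, fun ν hν J hJ => ?_⟩
    obtain ⟨J1, hJ1, hJ1'⟩ := lmix (gposH H n N E g.1 g.2) (grdK n k) Θ B hΘ (ν g.2) (hν g.2) J hJ
    obtain ⟨J0, hJ0, hJ0'⟩ := hmain ν hν J1 hJ1
    refine ⟨J0, hJ0, fun O0 hO0 β => ?_⟩
    obtain ⟨O1, a1, a2, a3, a4⟩ := hJ0' O0 hO0 β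
    have hBpos : (0 : ℝ) < B := by
      have : 0 < B := by omega
      exact_mod_cast this
    have hB1 : (1 : ℝ) ≤ B := by
      have : 1 ≤ B := by omega
      exact_mod_cast this
    have hBCr : (B : ℝ) ^ 2 ≤ ((B ^ CC : ℕ) : ℝ) := by
      have : B ^ 2 ≤ B ^ CC := Nat.pow_le_pow_right (by omega) (by decide)
      exact_mod_cast this
    have hBC0 : (0 : ℝ) < ((B ^ CC : ℕ) : ℝ) := lt_of_lt_of_le (by positivity) hBCr
    have hBBC : (B : ℝ) * (1 / ((B ^ CC : ℕ) : ℝ)) ≤ 1 / B := by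
      rw [mul_one_div, div_le_div_iff₀ hBC0 hBpos]
      nlinarith
    obtain ⟨T, hT1, hT2, hT3⟩ := lstep (gposH H n N E g.1 g.2) (grdK n k) Θ k B hB hkB hΘ ν hν
      g.2 hgk J J1 hJ O1 (fun z => NL (iN g.2) O1 z.1)
      ((hJ1' O1 _ (1 / ((B ^ CC : ℕ) : ℝ)) (by positivity) (a3 g.2 hgk)).trans hBBC) a3 β
    set O' : Lang := patch (gposH H n N E g.1 g.2) (grdK n k) O1 T with hO'
    have hnone : ∀ w, gposH H n N E g.1 g.2 w = none → O' w = O1 w := fun w hw => by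
      rw [hO']; simp only [patch, hw]
    have hagree : ∀ w : List Bool, w.length < 2 ^ gkH H g → O' w = O1 w := by
      intro w hw
      apply hnone
      cases hg : gposH H n N E g.1 g.2 w with
      | none => rfl
      | some p =>
        exfalso
        have := (gposH_long hH hga hn hg).1
        change 2 ^ gkH H g ≤ w.length at this
        omega
    have hNL : ∀ g' ∈ G, ∀ z ∈ ZSH H n N E g'.1 g'.2,
        NL (iN g'.2) O' z = NL (iN g'.2) O1 z := by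
      intro g' hg' z hz
      have hgg : gkH H g' ≤ gkH H g := hgmax g' hg'
      obtain ⟨d1, -, -, -⟩ := num_depH hH (hG g' hg').2 hn hz.1 hz.2.1 hz.2.2.1
      have hle : 2 ^ gkH H g' ≤ 2 ^ gkH H g := Nat.pow_le_pow_right (by norm_num) hgg
      have d1' : (z.length + 2) ^ (iN g'.2 + 2) < 2 ^ gkH H g := lt_of_lt_of_le d1 hle
      apply NL_congr
      intro w hw
      exact hagree w (by omega)
    refine ⟨O', fun w hw => ?_, fun g' hg' z hz => ?_, hT2, ?_⟩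
    · rw [hnone w (hw g hgG)]
      exact a1 w fun g' hg' => hw g' (Finset.mem_of_mem_erase hg')
    · by_cases hgg' : g' = g
      · subst hgg'
        refine ⟨T ⟨z, hz⟩, ?_, fun b c => ?_⟩
        · rw [hNL g' hg' z hz]
          exact hT1 ⟨z, hz⟩
        · rw [hO']
          simp only [patch, gposH_taddrH hz b c, grdK]
      · obtain ⟨q, hq1, hq2⟩ := a2 g' (Finset.mem_erase.2 ⟨hgg', hg'⟩) z hz
        refine ⟨q, by rw [hNL g' hg' z hz]; exact hq1, fun b c => ?_⟩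
        rw [hnone, hq2 b c]
        exact gposH_disj (by simpa using hgg') hz b c
    · have h1 : 2 * (m : ℝ) / ((B ^ CC : ℕ) : ℝ) ≤ 2 * m / B := by
        apply div_le_div_of_nonneg_left (by positivity) hBpos
        nlinarith
      have h2 : 2 * ((m + 1 : ℕ) : ℝ) / B = 2 * m / B + 2 / B := by
        push_cast; ring
      rw [h2]
      linarith

end Pool.Agent.CKT
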