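import Pool.Agent.Lib_helper23.CKT.Defs

/-!
# The numbers of a zone: definitions
-/

set_option autoImplicit false

namespace Pool.Agent.CKT

open Pool.Agent.CK

/-- bound for the number of groups with address lengths below `hi` -/
def RG (k n hi : ℕ) : ℕ :=
  (k + 1) * (Nat.log 2 (Nat.log 2 hi) + k + 6 - Nat.log 2 (Nat.log 2 n))

/-- The numbers of a zone (without the conditions on the time bound). -/
structure NumOK (k n N E B R1 R2 : ℕ) : Prop where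
  hkn : 2 ^ (k + 2) ≤ n
  hnN : 2 * n + 2 < N
  hqN : (qk n k + 2) ^ (k + 3) < N
  hNE : 2 * N + 2 < E
  hB4 : 4 ≤ B
  hEB : E + 1 ≤ B
  hkB : k + 1 ≤ B
  hRB : 16 * R2 ≤ B
  h8 : 8 * B ^ CC ^ R2 ≤ 2 ^ N
  hfin : 3 * ((((B ^ CC ^ R2 + (N + 1)) ^ CC) ^ CC ^ R1 + 1) *
    (((B ^ CC ^ R2 + (N + 1)) ^ CC) ^ CC ^ R1 + 1)) ≤ 2 ^ n

end Pool.Agent.CKT
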