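import Pool.Agent.Lib_helper23.CKT.Defs

/-!
# Block TALLY
-/

set_option autoImplicit false

namespace Pool.Agent.CKT

open Pool.Agent.CK

theorem hard_fix {Y Z Q ι : Type} [DecidableEq Z] [Fintype Q]
    (pos : List Bool → Option (Z × ι)) (rd : Y → ι → Bool) (Θ : Set (Q → DT Bool)) (B : ℕ)
    (hΘ : ∀ t ∈ Θ, ∀ q, (t q).depth ≤ B) (ν : Bool → Q → ℝ) (O : Lang) (ε : ℝ)
    (h : Hard ν (Fix pos rd B Θ) O ε) (y : Y) : Hard ν Θ (patch pos rd O fun _ => y) ε := by
  intro t ht β
  have h1 := h (fun q => sim pos rd (t q) [] (List.replicate B y)) ⟨t, ht, y, rfl⟩ β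
  have e : ∀ q, (sim pos rd (t q) [] (List.replicate B y)).eval O =
      (t q).eval (patch pos rd O fun _ => y) := fun q =>
    step_sim_const pos rd O y (t q) [] B (by intro z q hz; simp at hz) (hΘ t ht q)
  simpa only [e] using h1

/-- the oracle without a secret -/
noncomputable def tally_none (N : ℕ) (O : Lang) : Lang := fun w =>
  match upos N w with
  | none => O w
  | some _ => false

/-- the oracle with a constant secret -/
noncomputable def tally_patch (N : ℕ) (O : Lang) (q : X N × Bool) : Lang :=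
  patch (upos N) urd O fun _ => q

theorem tally_few (N : ℕ) (O : Lang) (t : DT Bool) :
    ∃ Qs : Finset (X N × Bool), Qs.card ≤ t.depth ∧ ∀ q, q ∉ Qs →
      t.eval (tally_patch N O q) = t.eval (tally_none N O) := by
  classical
  obtain ⟨Qs, h1, h2⟩ := ini_few (X := Unit) (upos N) O
    (fun _ => (⟨List.replicate N false, List.length_replicate⟩, false)) () t
  refine ⟨Qs, h1, fun q hq => ?_⟩
  have h3 := h2 q hq
  have e1 : patch (upos N) (fun q i => decide (q = i)) O
      (Function.update (fun _ => (⟨List.replicate N false, List.length_replicate⟩, false)) () q) =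
      tally_patch N O q := by
    unfold tally_patch
    funext w
    unfold patch
    cases hp : upos N w with
    | none => rfl
    | some p =>
      obtain ⟨z, i⟩ := p
      simp only [urd, Function.update_self]
  have e2 : iniO (upos N) O
      (fun _ => (⟨List.replicate N false, List.length_replicate⟩, false)) () =
      tally_none N O := by
    funext w
    unfold iniO tally_none
    cases hp : upos N w with
    | none => rfl
    | some p =>
      obtain ⟨z, i⟩ := p
      simp
  rw [e1, e2] at h3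
  exact h3

/-- the property of mixtures that is needed -/
def TallyOK (N B : ℕ) (O : Lang) (J : Lang → ℝ) : Prop :=
  (0 ≤ J (tally_none N O) ∧ J (tally_none N O) ≤ 1) ∧
  ∃ a : X N × Bool → ℝ, (∀ q, 0 ≤ a q) ∧ ∑ q, a q ≤ B ∧
    ∀ q, |J (tally_patch N O q) - J (tally_none N O)| ≤ a q

theorem tally_convex (N B : ℕ) (O : Lang) : Convex ℝ {J | TallyOK N B O J} := by
  rintro J ⟨⟨h1, h2⟩, a, h3, h4, h5⟩ J' ⟨⟨h1', h2'⟩, a', h3', h4', h5'⟩ u v hu hv huv
  refine ⟨⟨?_, ?_⟩, fun q => u * a q + v * a' q, ?_, ?_, ?_⟩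
  · simp only [Pi.add_apply, Pi.smul_apply, smul_eq_mul]
    positivity
  · simp only [Pi.add_apply, Pi.smul_apply, smul_eq_mul]
    nlinarith
  · intro q
    have := h3 q
    have := h3' q
    positivity
  · rw [Finset.sum_add_distrib, ← Finset.mul_sum, ← Finset.mul_sum]
    have e : (B : ℝ) = u * B + v * B := by rw [← add_mul, huv, one_mul]
    rw [e]
    exact add_le_add (mul_le_mul_of_nonneg_left h4 hu) (mul_le_mul_of_nonneg_left h4' hv)
  · intro q
    simp only [Pi.add_apply, Pi.smul_apply, smul_eq_mul]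
    have e : u * J (tally_patch N O q) + v * J' (tally_patch N O q) -
        (u * J (tally_none N O) + v * J' (tally_none N O)) =
        u * (J (tally_patch N O q) - J (tally_none N O)) +
        v * (J' (tally_patch N O q) - J' (tally_none N O)) := by ring
    rw [e]
    refine (abs_add_le _ _).trans ?_
    rw [abs_mul, abs_mul, abs_of_nonneg hu, abs_of_nonneg hv]
    exact add_le_add (mul_le_mul_of_nonneg_left (h5 q) hu) (mul_le_mul_of_nonneg_left (h5' q) hv)

theorem tally_gen (N B : ℕ) (O : Lang) (A : DT Bool) (hA : A.depth ≤ B) :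
    TallyOK N B O (fun O => ind (A.eval O)) := by
  classical
  obtain ⟨Qs, h1, h2⟩ := tally_few N O A
  refine ⟨⟨?_, ?_⟩, fun q => if q ∈ Qs then 1 else 0, ?_, ?_, ?_⟩
  · simp only [ind]; split_ifs <;> norm_num
  · simp only [ind]; split_ifs <;> norm_num
  · intro q
    simp only
    split_ifs <;> norm_num
  · rw [Finset.sum_ite_mem]
    simp only [Finset.univ_inter, Finset.sum_const, nsmul_eq_mul, mul_one]
    exact_mod_cast h1.trans hA
  · intro q
    by_cases hq : q ∈ Qs
    · simp only [if_pos hq]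
      simp only [ind]
      split_ifs <;> norm_num
    · simp only [if_neg hq, h2 q hq, sub_self, abs_zero, le_refl]

theorem tally_mix {Q : Type} (N : ℕ) (Θ : Set (Q → DT Bool)) (B : ℕ)
    (hΘ : ∀ t ∈ Θ, ∀ q, (t q).depth ≤ B) [hQ : Nonempty Q] (J : Lang → ℝ)
    (hJ : J ∈ Mix Θ) (O : Lang) : TallyOK N B O J := by
  obtain ⟨q0⟩ := hQ
  have h : Mix Θ ⊆ {J | TallyOK N B O J} := by
    unfold Mix
    refine convexHull_min ?_ (tally_convex N B O)
    rintro F ⟨A, hA, rfl⟩
    exact tally_gen N B O A (hΘ _ hA q0)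
  exact h hJ

theorem tally {Q : Type} (N : ℕ) (Θ : Set (Q → DT Bool)) (B : ℕ)
    (hΘ : ∀ t ∈ Θ, ∀ q, (t q).depth ≤ B) [Nonempty Q] (hB : 8 * B ≤ 2 ^ N) (J : Lang → ℝ)
    (hJ : J ∈ Mix Θ) (O : Lang) :
    ∃ (y : X N) (b : Bool), 1 / 4 ≤ sg (!b) (J (patch (upos N) urd O fun _ => (y, b))) := by
  obtain ⟨⟨h1, h2⟩, a, h3, h4, h5⟩ := tally_mix N Θ B hΘ J hJ O
  have key : ∀ b : Bool, ∃ y : X N, a (y, b) ≤ 1 / 4 := by
    intro b
    by_contra hcon
    push Not at hcon
    have hs : ∑ y : X N, a (y, b) ≤ ∑ q, a q := by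
      rw [Fintype.sum_prod_type]
      refine Finset.sum_le_sum fun y _ => ?_
      exact Finset.single_le_sum (f := fun b => a (y, b)) (fun c _ => h3 (y, c))
        (Finset.mem_univ b)
    have hl : ∑ y : X N, (1 / 4 : ℝ) < ∑ y : X N, a (y, b) := by
      refine Finset.sum_lt_sum_of_nonempty ?_ fun y _ => hcon y
      exact ⟨⟨List.replicate N false, List.length_replicate⟩, Finset.mem_univ _⟩
    rw [Finset.sum_const, Finset.card_univ, card_X, nsmul_eq_mul] at hl
    have h8 : (8 : ℝ) * B ≤ 2 ^ N := by exact_mod_cast hB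
    push_cast at hl
    have hB0 : (0 : ℝ) ≤ B := Nat.cast_nonneg B
    linarith
  by_cases hv : 1 / 2 ≤ J (tally_none N O)
  · obtain ⟨y, hy⟩ := key false
    refine ⟨y, false, ?_⟩
    have h6 := abs_le.1 (h5 (y, false))
    have e : sg (!false) (J (patch (upos N) urd O fun _ => (y, false))) =
        J (tally_patch N O (y, false)) := by
      simp [sg, tally_patch]
    rw [e]
    linarith
  · obtain ⟨y, hy⟩ := key true
    refine ⟨y, true, ?_⟩
    have h6 := abs_le.1 (h5 (y, true))
    have e : sg (!true) (J (patch (upos N) urd O fun _ => (y, true))) =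
        1 - J (tally_patch N O (y, true)) := by
      simp [sg, tally_patch]
    rw [e]
    push Not at hv
    linarith

end Pool.Agent.CKT
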