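import Pool.Agent.Lib_helper23.CKT.Multi
import Pool.Agent.Lib_helper23.CKT.Large
import Pool.Agent.Lib_helper23.CKT.NumDefs
import Pool.Agent.Lib_helper23.CKT.HCP
import Pool.Agent.Lib_helper23.CKT.TALLY

/-!
# The core of a zone: main secrets, small part, tally secret, large part
-/

set_option autoImplicit false

namespace Pool.Agent.CKT

open Pool.Agent.CK

theorem Hard.mono {Q : Type} [Fintype Q] {ν : Bool → Q → ℝ} {Θ : Set (Q → DT Bool)} {O : Lang}
    {ε ε' : ℝ} (h : Hard ν Θ O ε) (hε : ε ≤ ε') : Hard ν Θ O ε' := fun t ht β =>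
  (h t ht β).trans (by linarith)

/-- the trivial pair -/
theorem triv_pair {Q : Type} [Fintype Q] [DecidableEq Q] (q0 : Q) (Θ : Set (Q → DT Bool))
    (O : Lang) (ε : ℝ) (hε : 0 ≤ ε) :
    ∃ ν : Bool → Q → ℝ, (∀ b, (∀ q, 0 ≤ ν b q) ∧ ∑ q, ν b q = 1) ∧ Hard ν Θ O ε := by
  refine ⟨fun _ q => if q = q0 then 1 else 0, fun b => ⟨fun q => ?_, ?_⟩, fun t ht β => ?_⟩
  · dsimp only; split_ifs <;> norm_num
  · simp
  · dsimp only; linarith

theorem core_num {x y : ℕ} (h : 3 * (x + 1) * (x + 1) ≤ y) : 2 * x < y := by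
  nlinarith

theorem core_num3 {x x' c r r' y : ℕ} (hc : 1 ≤ c) (hr : r ≤ r') (hx : x ≤ x') (h0 : 0 < x)
    (h : 3 * (((x' ^ c) ^ c ^ r' + 1) * ((x' ^ c) ^ c ^ r' + 1)) ≤ y) :
    3 * ((x ^ c) ^ c ^ r + 1) * ((x ^ c) ^ c ^ r + 1) ≤ y := by
  have h1 : (x ^ c) ^ c ^ r ≤ (x' ^ c) ^ c ^ r' := by
    refine le_trans (Nat.pow_le_pow_left (Nat.pow_le_pow_left hx c) _) ?_
    exact Nat.pow_le_pow_right (Nat.pow_pos (by omega)) (Nat.pow_le_pow_right hc hr)
  rw [mul_assoc]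
  exact (Nat.mul_le_mul_left 3 (Nat.mul_le_mul (Nat.succ_le_succ h1) (Nat.succ_le_succ h1))).trans h

theorem core {H : ℕ → ℕ} (hH : ∀ e, e ^ 2 ≤ H e) {k n N E B R1 R2 : ℕ}
    (num : NumOK k n N E B R1 R2) (P : DT Bool) (hP : P.depth ≤ B) (G1 G2 : Finset (ℕ × ℕ))
    (hG1 : ∀ g ∈ G1, g.2 ≤ k ∧ Adeq g.2) (hG2 : ∀ g ∈ G2, g.2 ≤ k ∧ Adeq g.2)
    (hR1 : G1.card ≤ R1) (hR2 : G2.card ≤ R2) (Ob : Lang) :
    ∃ (S : X n → X n × Bool) (y : X N) (b : Bool) (O' : Lang),
      (∀ w, spos n w = none → (∀ g ∈ G1, gposH H n 0 N g.1 g.2 w = none) → upos N w = none →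
        (∀ g ∈ G2, gposH H n N E g.1 g.2 w = none) → O' w = Ob w) ∧
      (∀ w p, spos n w = some p → O' w = decide (S p.1 = p.2)) ∧
      (∀ w p, upos N w = some p → O' w = decide ((y, b) = p.2)) ∧
      (∀ g ∈ G1, (∀ x : X n, PL (iM g.2) (join O' (NL (iC g.2) O')) x.1 = (S x).2) →
        ∀ z ∈ ZSH H n 0 N g.1 g.2, GoodPH H O' n g.2 z) ∧
      (∀ g ∈ G2, (∀ x : X n, PL (iM g.2) (join O' (NL (iC g.2) O')) x.1 = (S x).2) →
        ∀ z ∈ ZSH H n N E g.1 g.2, ∃ q : QK n k, (∀ b c, O' (taddrH H g.2 z b c) = bit q.1 (b, c)) ∧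
          NL (iC g.2) O' q.1 = NL (iN g.2) O' z) ∧
      P.eval O' ≠ b := by
  classical
  obtain ⟨hkn, hnN, hqN, hNE, hB4, hEB, hkB, hRB, h8, hfin⟩ := num
  have hn : 2 ≤ n := by
    have : 2 ^ 1 ≤ 2 ^ (k + 2) := Nat.pow_le_pow_right (by norm_num) (by omega)
    omega
  have hqk : qk n k + 2 ≤ N := by
    calc qk n k + 2 = (qk n k + 2) ^ 1 := (pow_one _).symm
      _ ≤ (qk n k + 2) ^ (k + 3) := Nat.pow_le_pow_right (by omega) (by omega)
      _ ≤ N := hqN.le
  -- the large part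
  obtain ⟨Θ0, hΘ0, hlarge⟩ := large hH k n N E hn B hB4 hkB hEB (by omega) G2 hG2
    {fun _ => P} ⟨Set.finite_singleton _, by rw [Set.ncard_singleton]; exact Nat.one_le_two_pow,
      fun A hA x => by rw [Set.mem_singleton_iff.1 hA]; exact hP⟩
  set B0 := B ^ CC ^ G2.card with hB0
  clear_value B0
  have hCC : 1 ≤ CC := by decide
  have hB0' : B0 ≤ B ^ CC ^ R2 :=
    hB0 ▸ Nat.pow_le_pow_right (by omega) (Nat.pow_le_pow_right hCC hR2)
  have hBB0 : B ≤ B0 := hB0 ▸ Nat.le_self_pow (by positivity) B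
  set Bs := B0 + (N + 1) with hBs
  clear_value Bs
  have hΘs : Small Bs (Fix (upos N) urd B0 Θ0) := by
    rw [hBs]
    refine small_fix (upos N) urd Θ0 B0 (N + 1) hΘ0 ?_
    rw [Fintype.card_prod, card_X, Fintype.card_bool, pow_succ]
  have hsmall := small_cmp n k _ Bs (by omega) hΘs
    (hkB.trans ((hBB0.trans (by omega : B0 ≤ Bs)).trans Nat.lt_two_pow_self.le))
    (by unfold qk at hqk; omega)
  -- the small part
  have hBs1 : Bs ≤ Bs ^ CC := Nat.le_self_pow (by decide) Bs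
  have hm1 : 3 * ((Bs ^ CC) ^ CC ^ G1.card + 1) * ((Bs ^ CC) ^ CC ^ G1.card + 1) ≤ 2 ^ n :=
    core_num3 hCC hR1 (hBs ▸ Nat.add_le_add_right hB0' (N + 1)) (by omega) hfin
  obtain ⟨S, Os, m1, m2, m3, m4⟩ := multiH hH k n N hn Ob (Bs ^ CC) (by omega) (by omega)
    (by unfold qk at hqk; omega) G1 hG1 hm1 (core_num hm1) _ hsmall
  -- the pairs
  have hQs : Fintype.card (QK n k) ≤ 2 ^ Bs :=
    (multi_card_le _).trans (Nat.pow_le_pow_right (by norm_num) (by omega))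
  have hBs0 : (0 : ℝ) < (Bs : ℝ) := by
    have : 0 < Bs := by omega
    exact_mod_cast this
  have hpairs : ∀ e, ∃ ν : Bool → QK n k → ℝ, (∀ b, (∀ q, 0 ≤ ν b q) ∧ ∑ q, ν b q = 1) ∧
      ((e ≤ k ∧ ∀ x : X n, PL (iM e) (join Os (NL (iC e) Os)) x.1 = (S x).2) →
        ∀ b q, ν b q ≠ 0 → NL (iC e) Os q.1 = b) ∧
      Hard ν (Fix (upos N) urd B0 Θ0) Os (1 / (Bs : ℝ)) := by
    intro e
    by_cases hyp : e ≤ k ∧ ∀ x : X n, PL (iM e) (join Os (NL (iC e) Os)) x.1 = (S x).2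
    · obtain ⟨ν, h1, h2, h3⟩ := hcp n k Bs (by omega) hQs
        (Fix (upos N) urd B0 Θ0) Os (fun x => (S x).2) m4 e hyp.1 hyp.2
      exact ⟨ν, h1, fun _ => h2, h3⟩
    · obtain ⟨ν, h1, h2⟩ := triv_pair (⟨[], Nat.zero_le _⟩ : QK n k)
        (Fix (upos N) urd B0 Θ0) Os (1 / (Bs : ℝ)) (by positivity)
      exact ⟨ν, h1, fun h => absurd h hyp, h2⟩
  choose ν hν hsupp hhard using hpairs
  obtain ⟨J0, hJ0, hJ0'⟩ := hlarge ν hν (fun O => ind (P.eval O))
    (subset_convexHull ℝ _ ⟨P, rfl, rfl⟩)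
  -- the tally secret
  have hne : Nonempty (QK n k) := ⟨⟨[], Nat.zero_le _⟩⟩
  obtain ⟨y, b, hyb⟩ := tally N Θ0 B0 hΘ0.2.2 (by omega) J0 hJ0 Os
  set O0 : Lang := patch (upos N) urd Os fun _ => (y, b) with hO0
  have hB0r : (0 : ℝ) < (B0 : ℝ) := by
    have : 0 < B0 := by omega
    exact_mod_cast this
  obtain ⟨O', l1, l2, -, l4⟩ := hJ0' O0 (fun e he => by
    refine (hard_fix (upos N) urd Θ0 B0 hΘ0.2.2 (ν e) Os _ (hhard e) (y, b)).mono ?_
    apply one_div_le_one_div_of_le hB0r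
    have : B0 ≤ Bs := by omega
    exact_mod_cast this) (!b)
  -- agreement below `N`
  have hup : ∀ w : List Bool, w.length < N → upos N w = none := by
    intro w hw
    cases hu : upos N w with
    | none => rfl
    | some p =>
      exfalso
      have h1 := upos_eq_some hu
      have h2 : w.length = 2 * N + 2 := by
        rw [h1, saddr_length' N p.2.1 p.2.2]
      omega
  have hagree : ∀ w : List Bool, w.length < N → O' w = Os w := by
    intro w hw
    rw [l1 w fun g hg => ?_, hO0]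
    · simp only [patch, hup w hw]
    · cases hgw : gposH H n N E g.1 g.2 w with
      | none => rfl
      | some p =>
        exfalso
        have := (gposH_long hH (hG2 g hg).2 hn hgw).2
        omega
  have hqb : ∀ e ≤ k, (qb n e + 2) ^ (iC e + 2) < N := by
    intro e he
    refine lt_of_le_of_lt ?_ hqN
    have h1 : qb n e ≤ qk n k := by
      unfold qb qk
      have : (n + 2) ^ ex (iM e) ≤ (n + 2) ^ k :=
        Nat.pow_le_pow_right (by omega) ((ex_le _).trans ((iM_le _).trans he))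
      omega
    calc (qb n e + 2) ^ (iC e + 2) ≤ (qk n k + 2) ^ (iC e + 2) :=
          Nat.pow_le_pow_left (by omega) _
      _ ≤ (qk n k + 2) ^ (k + 3) := by
          apply Nat.pow_le_pow_right (by omega)
          have : iC e ≤ e := Nat.unpair_left_le e
          omega
  have hcor : ∀ e ≤ k, (∀ x : X n, PL (iM e) (join O' (NL (iC e) O')) x.1 = (S x).2) →
      ∀ x : X n, PL (iM e) (join Os (NL (iC e) Os)) x.1 = (S x).2 := by
    intro e he h x
    rw [← h x]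
    exact (corr_congr (hqb e he) hagree x).symm
  refine ⟨S, y, b, O', fun w h1 h2 h3 h4 => ?_, fun w p hp => ?_, fun w p hp => ?_,
    fun g hg hc z hz => ?_, fun g hg hc z hz => ?_, ?_⟩
  · rw [l1 w h4, hO0]
    simp only [patch, h3]
    exact m1 w h1 h2
  · have hlen : w.length = 2 * n + 2 := by
      rw [spos_eq_some hp, saddr_lengthG (by rw [p.1.2, p.2.1.2]), p.1.2]
    rw [hagree w (by omega)]
    exact m2 w p hp
  · rw [l1 w fun g _ => gposH_of_upos hp, hO0]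
    simp only [patch, hp, urd]
  · obtain ⟨hgk, hga⟩ := hG1 g hg
    obtain ⟨q, hq1, hq2, hq3⟩ := m3 g hg (hcor g.2 hgk hc) z hz
    have hzN := hz.2.2.2.2
    refine ⟨q, hq1, fun b c => ?_, good_congr (hqb g.2 hgk) ?_ hagree q hq1 hq3⟩
    · rw [l1 _ fun g' _ => gposH_taddrH_none (fun h => ?_) b c, hO0]
      · simp only [patch, upos_taddrH]
        exact hq2 b c
      · have h5 := h.2.2.2.2.1
        rw [← h.1] at h5
        omega
    · have h6 := iN_boundH hH hga z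
      have h7 : (z.length + 2) ^ (iN g.2 + 2) ≤ (z.length + 2) ^ (iN g.2 + 3) :=
        Nat.pow_le_pow_right (by omega) (by omega)
      omega
  · obtain ⟨hgk, hga⟩ := hG2 g hg
    obtain ⟨q, hq1, hq2⟩ := l2 g hg z hz
    refine ⟨q, hq2, ?_⟩
    rw [NL_congr (iC g.2) O' Os q.1]
    · exact hsupp g.2 ⟨hgk, hcor g.2 hgk hc⟩ _ q hq1
    · intro w hw
      apply hagree
      have h1 : (q.1.length + 2) ^ (iC g.2 + 2) ≤ (qk n k + 2) ^ (k + 3) := by
        have hqq := q.2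
        calc (q.1.length + 2) ^ (iC g.2 + 2) ≤ (qk n k + 2) ^ (iC g.2 + 2) :=
              Nat.pow_le_pow_left (by omega) _
          _ ≤ (qk n k + 2) ^ (k + 3) := by
              apply Nat.pow_le_pow_right (by omega)
              have : iC g.2 ≤ g.2 := Nat.unpair_left_le _
              omega
      omega
  · have h1 : 2 * (G2.card : ℝ) / B ≤ 1 / 8 := by
      have hBr : (0 : ℝ) < B := by
        have : 0 < B := by omega
        exact_mod_cast this
      rw [div_le_iff₀ hBr]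
      have : ((16 * G2.card : ℕ) : ℝ) ≤ B := by
        have : 16 * G2.card ≤ B := by omega
        exact_mod_cast this
      push_cast at this
      linarith
    have h2 : (0 : ℝ) < sg (!b) (ind (P.eval O')) := by linarith
    intro h3
    rw [h3] at h2
    cases b <;> simp [sg, ind] at h2

end Pool.Agent.CKT
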