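import Pool.Agent.Lib_helper74.CKF.MULTI
import Pool.Agent.Lib_helper74.CKF.PROG1
import Pool.Agent.Lib_helper74.CKF.ENUM

/-!
# Optimality oracle (MP_675993_lc): common definitions

The construction of `Lib_helper74/CKF` with two changes: the exponent `e ^ 2` in the address length
of the entry `(e, z)` is replaced by a fast growing function `H e`, and each zone contains, besides
the secrets of the main level `n`, one secret for the single string `1^N`, where `N` is a large
power of `n`.
-/

set_option autoImplicit false

namespace Pool.Agent.CKT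

open Pool.Agent.CK

/-! ## Addresses -/

/-- the address length of the entry `(e, z)` -/
def alenH (H : ℕ → ℕ) (e : ℕ) (z : List Bool) : ℕ := (z.length + 2) ^ H e

/-- The address of bit `(b, c)` of the entry `(e, z)`. -/
def taddrH (H : ℕ → ℕ) (e : ℕ) (z : List Bool) (b : ℕ) (c : Bool) : List Bool :=
  true :: c :: (ones b ++ false :: (ones e ++ false :: (ones (alenH H e z) ++ false :: z)))

open Classical in
/-- decoding of table addresses -/
noncomputable def tdecH (H : ℕ → ℕ) (w : List Bool) : Option ((ℕ × List Bool) × (ℕ × Bool)) :=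
  if h : ∃ p : (ℕ × List Bool) × (ℕ × Bool), w = taddrH H p.1.1 p.1.2 p.2.1 p.2.2
  then some h.choose else none

/-- the key (moment of definition) of a position -/
noncomputable def keyH (H : ℕ → ℕ) (w : List Bool) : ℕ := match tdecH H w with
  | some p => alenH H p.1.1 p.1.2
  | none => w.length

/-- `O'` agrees with `O` on the positions with key below `N`. -/
def ExtH (H : ℕ → ℕ) (N : ℕ) (O O' : Lang) : Prop := ∀ w, keyH H w < N → O' w = O w

/-- The entry `(e, z)` of the table in `O` is a correct value of the many-one reduction. -/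
def GoodH (H : ℕ → ℕ) (O : Lang) (e : ℕ) (z : List Bool) : Prop :=
  ∃ q : List Bool, (q.length + 2) ^ (iC e + 2) ≤ alenH H e z ∧
    (∀ b c, O (taddrH H e z b c) = bit q (b, c)) ∧ NL (iC e) O q = NL (iN e) O z

/-- The entries of the group `(t, e)` that are relevant for the level `n` and have address lengths
in `[lo, hi)`. -/
def ZSH (H : ℕ → ℕ) (n lo hi t e : ℕ) : Set (List Bool) :=
  {z | 2 ^ 2 ^ t ≤ z.length + 2 ∧ z.length + 2 < 2 ^ 2 ^ (t + 1) ∧
    n ≤ (z.length + 2) ^ (iN e + 3) ∧ lo ≤ alenH H e z ∧ alenH H e z < hi}

open Classical in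
/-- the positions of the group -/
noncomputable def gposH (H : ℕ → ℕ) (n lo hi t e : ℕ) (w : List Bool) :
    Option (ZSH H n lo hi t e × (ℕ × Bool)) :=
  match tdecH H w with
  | some p => if h : p.1.1 = e ∧ p.1.2 ∈ ZSH H n lo hi t e then some (⟨p.1.2, h.2⟩, p.2) else none
  | none => none

/-- `GoodH` with the length bound that is used for protected entries of the small part. -/
def GoodPH (H : ℕ → ℕ) (O : Lang) (n e : ℕ) (z : List Bool) : Prop :=
  ∃ q : List Bool, q.length ≤ qb n e ∧
    (∀ b c, O (taddrH H e z b c) = bit q (b, c)) ∧ NL (iC e) O q = NL (iN e) O z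

/-- the order in which the groups are processed -/
def gkH (H : ℕ → ℕ) (g : ℕ × ℕ) : ℕ := 2 ^ g.1 * H g.2

/-! ## The questions of the large part -/

/-- the length bound for the values of the entries of the large part -/
def qk (n k : ℕ) : ℕ := n + (n + 2) ^ k

/-- the possible questions -/
abbrev QK (n k : ℕ) : Type := {q : List Bool // q.length ≤ qk n k}

noncomputable instance instFintypeQK (n k : ℕ) : Fintype (QK n k) :=
  haveI := multi_finite_le (qk n k)
  Fintype.ofFinite _

/-- questions as elements of `QK` -/
def qfK (n k : ℕ) (w : List Bool) : Option (QK n k) :=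
  if h : w.length ≤ qk n k then some ⟨w, h⟩ else none

/-- the reading function of the tables -/
def grdK (n k : ℕ) (q : QK n k) (i : ℕ × Bool) : Bool := bit q.1 i

/-! ## Tests and hard pairs -/

section hard

variable {Z Q ι : Type} [DecidableEq Z]

/-- The distributions `ν true`, `ν false` cannot be distinguished by the tests in `Θ`. -/
def Hard [Fintype Q] (ν : Bool → Q → ℝ) (Θ : Set (Q → DT Bool)) (O : Lang) (ε : ℝ) : Prop :=
  ∀ t ∈ Θ, ∀ β : Bool, ∑ q, ν true q * ind ((t q).eval O == β) ≤
    ∑ q, ν false q * ind ((t q).eval O == β) + ε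

/-- The class of tests derived from `Θ`: tests without the table of the group. -/
def LNext (pos : List Bool → Option (Z × ι)) (rd : Q → ι → Bool) (B : ℕ)
    (Θ : Set (Q → DT Bool)) : Set (Q → DT Bool) :=
  {t' | ∃ t ∈ Θ, ∃ ρ : List (Z × Q), ρ.length ≤ 4 * B * (3 * B + 1) * B ∧
    ∃ r : List Q, r.length ≤ B ∧ t' = fun q => sim pos rd (t q) ρ r} ∪
  {t' | ∃ t ∈ Θ, ∃ q0 : Q, ∃ ρ : List (Z × Q), ρ.length ≤ 4 * B * (3 * B + 1) * B ∧
    ∃ pre post : List Q, pre.length ≤ B ∧ post.length ≤ B ∧
    t' = fun q => sim pos rd (t q0) ρ (pre ++ q :: post)}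

/-- mixtures of acceptance probabilities of (constant) tests in `Θ` -/
def Mix (Θ : Set (Q → DT Bool)) : Set (Lang → ℝ) :=
  convexHull ℝ {F | ∃ A : DT Bool, (fun _ => A) ∈ Θ ∧ F = fun O => ind (A.eval O)}

/-- `x` or `1 - x` -/
def sg (β : Bool) (x : ℝ) : ℝ := if β = true then x else 1 - x

/-- The tests in `Θ` with the values of a single entry hard-wired. -/
def Fix {Y : Type} (pos : List Bool → Option (Z × ι)) (rd : Y → ι → Bool) (B : ℕ)
    (Θ : Set (Q → DT Bool)) : Set (Q → DT Bool) :=
  {t' | ∃ t ∈ Θ, ∃ y : Y, t' = fun q => sim pos rd (t q) [] (List.replicate B y)}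

end hard

/-- The machines `iM e`, `e ≤ k`, on inputs of length `n`, with their questions answered by a
threshold of tests. -/
def Cmp (n k L : ℕ) (Θ : Set (QK n k → DT Bool)) : Set (X n → DT Bool) :=
  {A | ∃ e ≤ k, ∃ l : List ((QK n k → DT Bool) × Bool), l.length ≤ L ∧ (∀ t ∈ l, t.1 ∈ Θ) ∧
    ∃ θ ≤ l.length + 1, A = fun x => DT.tr (fun w => match qfK n k w with
      | none => DT.leaf false
      | some q => DT.thr (l.map fun t => (t.1 q).map fun b => b == t.2) θ) (PT (iM e) x.1)}

/-! ## The tally secret -/

open Classical in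
/-- the positions of the secret of `1^N` -/
noncomputable def upos (N : ℕ) (w : List Bool) : Option (Unit × (X N × Bool)) :=
  match spos N w with
  | some p => if p.1.1 = ones N then some ((), p.2) else none
  | none => none

/-- reading of a secret -/
def urd {N : ℕ} (q i : X N × Bool) : Bool := decide (q = i)

/-! ## Adversaries -/

/-- the `a`-th adversary: a program, whether it asks the join of the oracle with a constant
language, and its time bound (`none`: the function `T`; `some s`: `(N + 2) ^ s`) -/
def adv (a : ℕ) : Cmd × Option Bool × Option ℕ :=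
  (Encodable.decode a).getD (Cmd.skip, none, none)

/-- the running time of the adversary -/
def atime (T : ℕ → ℕ) (k N : ℕ) : Option ℕ → ℕ
  | none => T N
  | some s => (N + 2) ^ min s k

/-- the oracle of an adversary -/
def aor (O : Lang) : Option Bool → Lang
  | none => O
  | some β => join O fun _ => β

/-- the decision tree of a program that runs for `t` steps on `x` -/
def CT (c : Cmd) (t : ℕ) (x : List Bool) : DT Bool :=
  (runTree t ([c], init x [])).map fun cf => cf.1.isEmpty && ((cf.2 0).head? == some true)

/-- the decision tree of an adversary -/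
def AT (c : Cmd) (o : Option Bool) (t : ℕ) (x : List Bool) : DT Bool :=
  match o with
  | none => CT c t x
  | some β => DT.tr (fun _ => DT.leaf β) (CT c t x)

end Pool.Agent.CKT
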