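import Pool.Agent.Lib_helper23.CKT.Zone

/-!
# The gaps between the zones (adapted from `Lib_helper74/CKF/FILL.lean`)
-/

set_option autoImplicit false

namespace Pool.Agent.CKT

open Pool.Agent.CK

variable {H : ℕ → ℕ}

open Classical in
/-- fill in the positions with key `N` -/
noncomputable def fill1H (H : ℕ → ℕ) (N : ℕ) (O : Lang) : Lang := fun w =>
  if keyH H w = N then
    match tdecH H w with
    | some p => bit (leak O p.1.1 p.1.2) p.2
    | none => match sdec w with
      | some p => decide (p.2.1 = List.replicate p.1.length false ∧ p.2.2 = false)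
      | none => false
  else O w

theorem fill1H_ext (N : ℕ) (O : Lang) : ExtH H N O (fill1H H N O) := by
  intro w hw
  unfold fill1H
  rw [if_neg (by omega)]

theorem fill1H_spec (hH : ∀ e, e ^ 2 ≤ H e) (N : ℕ) (O O'' : Lang)
    (hO : ExtH H (N + 1) (fill1H H N O) O'') :
    (∀ e z, Adeq e → alenH H e z = N → Nontriv O'' e → GoodH H O'' e z) ∧
      ∀ m, 2 * m + 2 = N → Sec O'' m := by
  have hag : ∀ w : List Bool, w.length < N → O'' w = O w := by
    intro w hw
    have hk := keyH_le (H := H) w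
    rw [hO w (by omega), fill1H_ext N O w (by omega)]
  refine ⟨fun e z he hz hnt => ?_, fun m hm => ?_⟩
  · refine good_leakH hH (O := O) (N := N) he ?_ ?_ hag (fun b c => ?_) hnt
    · rw [← hz]
      exact (ia_bound he).le.trans (two_pow_le_alenH hH z)
    · rw [← hz]
      exact (Nat.pow_le_pow_right (by omega) (by omega)).trans (iN_boundH hH he z)
    · rw [hO _ (by rw [keyH_taddrH]; omega)]
      unfold fill1H
      rw [if_pos (by rw [keyH_taddrH]; exact hz), tdecH_taddrH]
  · apply sec_triv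
    intro x y b hx hy
    have hk : keyH H (saddr x y b) = N := by
      rw [keyH_saddr _ _ _ (by rw [hx, hy]), hx, hm]
    rw [hO _ (by omega)]
    unfold fill1H
    rw [if_pos hk, tdecH_saddr, sdec_saddr _ _ _ (by rw [hx, hy])]

/-- FILL -/
theorem fillH (hH : ∀ e, e ^ 2 ≤ H e) (N N' : ℕ) (h : N ≤ N') (O : Lang) :
    ∃ O' : Lang, ExtH H N O O' ∧ ∀ O'', ExtH H N' O' O'' →
      (∀ e z, Adeq e → N ≤ alenH H e z → alenH H e z < N' → Nontriv O'' e → GoodH H O'' e z) ∧
      ∀ m, N ≤ 2 * m + 2 → 2 * m + 2 < N' → Sec O'' m := by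
  induction N', h using Nat.le_induction with
  | base =>
    exact ⟨O, fun _ _ => rfl, fun O'' _ => ⟨fun e z _ h1 h2 => absurd h2 (by omega),
      fun m h1 h2 => absurd h2 (by omega)⟩⟩
  | succ N' hN ih =>
    obtain ⟨O1, h1, h2⟩ := ih
    refine ⟨fill1H H N' O1, fun w hw => (fill1H_ext N' O1 w (by omega)).trans (h1 w hw),
      fun O'' hO => ?_⟩
    obtain ⟨a1, a2⟩ := h2 O'' fun w hw => by
      rw [hO w (by omega), fill1H_ext N' O1 w hw]
    obtain ⟨b1, b2⟩ := fill1H_spec hH N' O1 O'' hO
    refine ⟨fun e z he hz1 hz2 hnt => ?_, fun m hm1 hm2 => ?_⟩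
    · rcases Nat.lt_or_ge (alenH H e z) N' with h | h
      · exact a1 e z he hz1 h hnt
      · exact b1 e z he (by omega) hnt
    · rcases Nat.lt_or_ge (2 * m + 2) N' with h | h
      · exact a2 m hm1 h
      · exact b2 m (by omega)

end Pool.Agent.CKT
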