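import Pool.Agent.Lib_helper74.NE.Final
import Pool.Agent.Lib_helper74.NE.NUM

/-!
# Numbers of strings and growth of time bounds
-/

set_option autoImplicit false

namespace Pool.Agent.CKT

open Pool.Agent.CKP (num str ofBits two_pow_str num_lt)

theorem bits_snoc : ∀ N : ℕ, 1 ≤ N → ∃ l : List Bool, N.bits = l ++ [true] := by
  intro N
  induction N using Nat.strong_induction_on with
  | _ N ih =>
    intro hN
    have h1 : N.bits = N.bodd :: N.div2.bits := Pool.Agent.CKP.num_bits_cons (by omega)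
    have h2 : N.div2 = N / 2 := Nat.div2_val N
    rcases Nat.eq_zero_or_pos (N / 2) with h | h
    · have h3 : N = 1 := by omega
      subst h3
      exact ⟨[], by simp⟩
    · obtain ⟨l, hl⟩ := ih (N / 2) (by omega) h
      refine ⟨N.bodd :: l, ?_⟩
      rw [h1, h2, hl]
      rfl

theorem num_str {N : ℕ} (h : 1 ≤ N) : num (str N) = N := by
  obtain ⟨l, hl⟩ := bits_snoc N h
  have h1 : ofBits N.bits = N := Pool.Agent.CKP.ofBits_bits N
  unfold num str
  rw [hl, List.dropLast_concat, ← hl, h1]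

/-- GROW -/
theorem growT (T : ℕ → ℕ)
    (hT : ∀ ε : ℝ, 0 < ε → ∀ᶠ n : ℕ in Filter.atTop, (T n : ℝ) ≤ 2 ^ ((2 : ℝ) ^ (ε * n))) :
    ∀ ε : ℝ, 0 < ε → ∀ᶠ N : ℕ in Filter.atTop,
      ((T (str N).length + 2 ^ ((Nat.log 2 N) ^ 2) + 1 : ℕ) : ℝ) ≤ 2 ^ ((N : ℝ) ^ ε) := by
  intro ε hε
  set δ : ℝ := ε / 2 with hδ
  have hδ0 : 0 < δ := by positivity
  obtain ⟨n0, hn0⟩ := Filter.eventually_atTop.1 (hT δ hδ0)
  have hp : Filter.Tendsto (fun x : ℝ => x ^ δ) Filter.atTop Filter.atTop :=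
    tendsto_rpow_atTop hδ0
  have hp' : Filter.Tendsto (fun n : ℕ => (n : ℝ) ^ δ) Filter.atTop Filter.atTop :=
    hp.comp tendsto_natCast_atTop_atTop
  have e1 := hp'.eventually_ge_atTop ((2 : ℝ) ^ δ + 2)
  have hlo := (isLittleO_log_rpow_rpow_atTop (2 : ℝ) hε).bound (show (0 : ℝ) < 1 / 8 by norm_num)
  have e2 := (tendsto_natCast_atTop_atTop (R := ℝ)).eventually hlo
  have hq' : Filter.Tendsto (fun n : ℕ => (n : ℝ) ^ ε) Filter.atTop Filter.atTop :=
    (tendsto_rpow_atTop hε).comp tendsto_natCast_atTop_atTop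
  have e3 := hq'.eventually_ge_atTop (4 : ℝ)
  filter_upwards [e1, e2, e3, Filter.eventually_ge_atTop (2 ^ (n0 + 1)),
    Filter.eventually_ge_atTop 1] with N h1 h2 h3 h4 h5
  have hN0 : (0 : ℝ) < N := by exact_mod_cast h5
  have hNe : (N : ℝ) ^ ε = (N : ℝ) ^ δ * (N : ℝ) ^ δ := by
    rw [← Real.rpow_add hN0]
    congr 1
    rw [hδ]
    ring
  -- the string has length at least `n0`
  have hlen : n0 ≤ (str N).length := by
    have h6 := num_lt (str N)
    rw [num_str h5] at h6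
    have h7 : 2 ^ (n0 + 1) < 2 ^ ((str N).length + 1) := lt_of_le_of_lt h4 h6
    have h8 := (Nat.pow_lt_pow_iff_right (by norm_num : 1 < 2)).1 h7
    omega
  have hT1 := hn0 _ hlen
  have hs : ((2 : ℝ) ^ (str N).length) ≤ 2 * N := by
    have h6 := two_pow_str N
    rw [pow_succ] at h6
    have h7 : 2 ^ (str N).length ≤ 2 * N := by omega
    exact_mod_cast h7
  have hs2 : (2 : ℝ) ^ (δ * ((str N).length : ℝ)) ≤ (2 : ℝ) ^ δ * (N : ℝ) ^ δ := by
    rw [mul_comm δ, Real.rpow_mul (by norm_num), Real.rpow_natCast,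
      ← Real.mul_rpow (by norm_num) hN0.le]
    exact Real.rpow_le_rpow (by positivity) hs hδ0.le
  have hA : (2 : ℝ) ^ δ * (N : ℝ) ^ δ + 2 ≤ (N : ℝ) ^ ε := by
    rw [hNe]
    have h6 : (1 : ℝ) ≤ (2 : ℝ) ^ δ := Real.one_le_rpow (by norm_num) hδ0.le
    nlinarith
  have hT2 : (T (str N).length : ℝ) * 4 ≤ 2 ^ ((N : ℝ) ^ ε) := by
    calc (T (str N).length : ℝ) * 4 ≤ 2 ^ ((2 : ℝ) ^ δ * (N : ℝ) ^ δ) * 4 := by
          refine mul_le_mul_of_nonneg_right (hT1.trans ?_) (by norm_num)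
          exact Real.rpow_le_rpow_of_exponent_le (by norm_num) hs2
      _ = 2 ^ ((2 : ℝ) ^ δ * (N : ℝ) ^ δ + 2) := by
          rw [Real.rpow_add (by norm_num)]
          norm_num
      _ ≤ 2 ^ ((N : ℝ) ^ ε) := Real.rpow_le_rpow_of_exponent_le (by norm_num) hA
  -- the quasi-polynomial term
  have hlog : ((Nat.log 2 N : ℕ) : ℝ) ≤ 2 * Real.log N := by
    have h6 : ((Nat.log 2 N : ℕ) : ℝ) ≤ Real.log N / Real.log 2 := by
      rw [le_div_iff₀ (Real.log_pos (by norm_num)), ← Real.log_rpow (by norm_num),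
        Real.rpow_natCast]
      refine Real.log_le_log (by positivity) ?_
      exact_mod_cast Nat.pow_log_le_self 2 (by omega)
    have h7 : (0.5 : ℝ) < Real.log 2 := lt_trans (by norm_num) Real.log_two_gt_d9
    have h8 : 0 ≤ Real.log N := Real.log_nonneg (by exact_mod_cast h5)
    refine h6.trans ?_
    rw [div_le_iff₀ (by linarith)]
    nlinarith
  have hB : ((Nat.log 2 N : ℕ) : ℝ) ^ 2 + 2 ≤ (N : ℝ) ^ ε := by
    rw [Real.norm_of_nonneg (by positivity), Real.norm_of_nonneg (by positivity)] at h2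
    have h6 : ((Nat.log 2 N : ℕ) : ℝ) ^ 2 ≤ (2 * Real.log N) ^ 2 :=
      pow_le_pow_left₀ (by positivity) hlog 2
    have h7 : Real.log N ^ (2 : ℝ) = Real.log N ^ 2 := Real.rpow_two _
    rw [h7] at h2
    nlinarith
  have hT3 : ((2 : ℝ) ^ ((Nat.log 2 N) ^ 2)) * 4 ≤ 2 ^ ((N : ℝ) ^ ε) := by
    calc ((2 : ℝ) ^ ((Nat.log 2 N) ^ 2)) * 4
        = 2 ^ (((Nat.log 2 N : ℕ) : ℝ) ^ 2 + 2) := by
          rw [Real.rpow_add (by norm_num), ← Real.rpow_natCast]
          push_cast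
          norm_num
      _ ≤ 2 ^ ((N : ℝ) ^ ε) := Real.rpow_le_rpow_of_exponent_le (by norm_num) hB
  have h16 : (2 : ℝ) ≤ 2 ^ ((N : ℝ) ^ ε) := by
    calc (2 : ℝ) = 2 ^ (1 : ℝ) := by norm_num
      _ ≤ 2 ^ ((N : ℝ) ^ ε) := Real.rpow_le_rpow_of_exponent_le (by norm_num) (by linarith)
  push_cast
  linarith

end Pool.Agent.CKT
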