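import Pool.Agent.Lib_helper74.CKF.PROG1
import Pool.Agent.Lib_helper74.NE.Final
import Pool.Agent.Lib_helper23.CKT.ClassUE

/-!
# From the secrets of tally strings to languages in `UE^O ∩ coUE^O`
-/

set_option autoImplicit false

namespace Pool.Agent.CKT

open Pool.Agent.CK
open Pool.Agent.CKP (num str ofBits)

/-! ### the program that writes down the number of the input in unary -/

/-- reverse the input -/
def ue_A : Cmd :=
  Cmd.loop 0 (Cmd.cond 0 Cmd.skip (Cmd.seq (Cmd.pop 0) (Cmd.push 2 false))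
    (Cmd.seq (Cmd.pop 0) (Cmd.push 2 true)))

theorem ue_A_run (O : Lang) (y : List Bool) (x : List Bool) : ∀ c : List Bool,
    prog1_Run O ue_A (prog1_st x y c [] [] [] [] [] [] [])
      (prog1_st [] y (x.reverse ++ c) [] [] [] [] [] [] []) (5 * x.length + 1) := by
  induction x with
  | nil => intro c; exact prog1_loop_nil rfl
  | cons a x ih =>
    intro c
    have h := ih (a :: c)
    have e1 : x.reverse ++ a :: c = (a :: x).reverse ++ c := by simp
    rw [e1] at h
    refine prog1_mono (prog1_loop_cons (T1 := 4) ?_ ?_ h) ?_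
    · simp [prog1_st]
    · cases a with
      | false =>
        exact prog1_cond_false (l := x) rfl (prog1_seq (prog1_pop0 _ _ _ _ _ _ _ _ _ _ O)
          (prog1_push2 _ _ _ _ _ _ _ _ _ _ O false))
      | true =>
        exact prog1_cond_true (l := x) rfl (prog1_seq (prog1_pop0 _ _ _ _ _ _ _ _ _ _ O)
          (prog1_push2 _ _ _ _ _ _ _ _ _ _ O true))
    · simp only [List.length_cons]; omega

theorem ue_ones_succ (n : ℕ) : ones (n + 1) = true :: ones n := rfl

theorem ue_B1_run (O : Lang) (y c : List Bool) (j : ℕ) : ∀ a : ℕ,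
    prog1_Run O (Cmd.loop 3 (Cmd.seq (Cmd.pop 3) (Cmd.seq (Cmd.push 4 true) (Cmd.push 4 true))))
      (prog1_st [] y c (ones j) (ones a) [] [] [] [] [])
      (prog1_st [] y c [] (ones (a + 2 * j)) [] [] [] [] []) (6 * j + 1) := by
  induction j with
  | zero => intro a; exact prog1_loop_nil rfl
  | succ j ih =>
    intro a
    have h := ih (a + 2)
    have e1 : a + 2 + 2 * j = a + 2 * (j + 1) := by ring
    rw [e1] at h
    refine prog1_mono (prog1_loop_cons (T1 := 5) ?_ ?_ h) (by omega)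
    · simp [prog1_st, ones]
    · exact prog1_seq (prog1_pop3 _ _ _ _ _ _ _ _ _ _ O)
        (prog1_seq (prog1_push4 _ _ _ _ _ _ _ _ _ _ O true)
          (prog1_push4 _ _ _ _ _ _ _ _ _ _ O true))

theorem ue_B2_run (O : Lang) (y c : List Bool) (j : ℕ) : ∀ a : ℕ,
    prog1_Run O (Cmd.loop 4 (Cmd.seq (Cmd.pop 4) (Cmd.push 3 true)))
      (prog1_st [] y c (ones a) (ones j) [] [] [] [] [])
      (prog1_st [] y c (ones (a + j)) [] [] [] [] [] []) (4 * j + 1) := by
  induction j with
  | zero => intro a; exact prog1_loop_nil rfl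
  | succ j ih =>
    intro a
    have h := ih (a + 1)
    have e1 : a + 1 + j = a + (j + 1) := by ring
    rw [e1] at h
    refine prog1_mono (prog1_loop_cons (T1 := 3) ?_ ?_ h) (by omega)
    · simp [prog1_st, ones]
    · exact prog1_seq (prog1_pop4 _ _ _ _ _ _ _ _ _ _ O)
        (prog1_push3 _ _ _ _ _ _ _ _ _ _ O true)

theorem ue_pop2 (O : Lang) (a0 a1 a2 a3 a4 a5 a6 a7 a8 a9 : List Bool) :
    prog1_Run O (Cmd.pop 2) (prog1_st a0 a1 a2 a3 a4 a5 a6 a7 a8 a9)
      (prog1_st a0 a1 a2.tail a3 a4 a5 a6 a7 a8 a9) 1 := by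
  have h := prog1_pop O (prog1_st a0 a1 a2 a3 a4 a5 a6 a7 a8 a9) 2
  rwa [prog1_up2] at h

/-- one digit -/
def ue_B : Cmd :=
  Cmd.seq (Cmd.loop 3 (Cmd.seq (Cmd.pop 3) (Cmd.seq (Cmd.push 4 true) (Cmd.push 4 true))))
    (Cmd.seq (Cmd.loop 4 (Cmd.seq (Cmd.pop 4) (Cmd.push 3 true)))
      (Cmd.cond 2 Cmd.skip (Cmd.pop 2) (Cmd.seq (Cmd.pop 2) (Cmd.push 3 true))))

theorem ue_B_run (O : Lang) (y c : List Bool) (b : Bool) (v : ℕ) :
    prog1_Run O ue_B (prog1_st [] y (b :: c) (ones v) [] [] [] [] [] [])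
      (prog1_st [] y c (ones (Nat.bit b v)) [] [] [] [] [] []) (14 * v + 8) := by
  have h1 := ue_B1_run O y (b :: c) v 0
  have h2 := ue_B2_run O y (b :: c) (2 * v) 0
  rw [Nat.zero_add] at h1 h2
  cases b with
  | false =>
    have e : Nat.bit false v = 2 * v := by simp [Nat.bit_val]
    rw [e]
    refine prog1_mono (prog1_seq h1 (prog1_seq (T2 := 2) h2 ?_)) (by omega)
    exact prog1_cond_false (l := c) rfl (ue_pop2 O _ _ _ _ _ _ _ _ _ _)
  | true =>
    have e : Nat.bit true v = 2 * v + 1 := by simp [Nat.bit_val]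
    rw [e]
    refine prog1_mono (prog1_seq h1 (prog1_seq (T2 := 4) h2 ?_)) (by omega)
    exact prog1_cond_true (l := c) rfl (prog1_seq (ue_pop2 O _ _ _ _ _ _ _ _ _ _)
      (prog1_push3 _ _ _ _ _ _ _ _ _ _ O true))

theorem ue_bit_le (b : Bool) (v : ℕ) : v ≤ Nat.bit b v := by
  cases b <;> simp [Nat.bit_val]; all_goals omega

theorem ue_foldl_le (c : List Bool) : ∀ v : ℕ, v ≤ c.foldl (fun v b => Nat.bit b v) v := by
  induction c with
  | nil => intro v; exact le_rfl
  | cons b c ih => intro v; exact (ue_bit_le b v).trans (ih _)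

theorem ue_C_run (O : Lang) (y : List Bool) (c : List Bool) : ∀ v : ℕ,
    prog1_Run O (Cmd.loop 2 ue_B) (prog1_st [] y c (ones v) [] [] [] [] [] [])
      (prog1_st [] y [] (ones (c.foldl (fun v b => Nat.bit b v) v)) [] [] [] [] [] [])
      (c.length * (14 * (c.foldl (fun v b => Nat.bit b v) v) + 9) + 1) := by
  induction c with
  | nil => intro v; exact prog1_mono (prog1_loop_nil rfl) (by omega)
  | cons b c ih =>
    intro v
    have h := ih (Nat.bit b v)
    refine prog1_mono (prog1_loop_cons ?_ (ue_B_run O y c b v) h) ?_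
    · simp [prog1_st]
    · simp only [List.length_cons, List.foldl_cons]
      have h1 := ue_bit_le b v
      have h2 := ue_foldl_le c (Nat.bit b v)
      set F := c.foldl (fun v b => Nat.bit b v) (Nat.bit b v) with hF
      have e : (c.length + 1) * (14 * F + 9) = c.length * (14 * F + 9) + (14 * F + 9) := by ring
      omega

theorem ue_num (x : List Bool) : x.reverse.foldl (fun v b => Nat.bit b v) 1 = num x := by
  rw [List.foldl_reverse]
  unfold num ofBits
  rw [List.foldr_append]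
  rfl

theorem ue_D_run (O : Lang) (y : List Bool) (j : ℕ) : ∀ a : ℕ,
    prog1_Run O (Cmd.loop 3 (Cmd.seq (Cmd.pop 3) (Cmd.push 0 true)))
      (prog1_st (ones a) y [] (ones j) [] [] [] [] [] [])
      (prog1_st (ones (a + j)) y [] [] [] [] [] [] [] []) (4 * j + 1) := by
  induction j with
  | zero => intro a; exact prog1_loop_nil rfl
  | succ j ih =>
    intro a
    have h := ih (a + 1)
    have e1 : a + 1 + j = a + (j + 1) := by ring
    rw [e1] at h
    refine prog1_mono (prog1_loop_cons (T1 := 3) ?_ ?_ h) (by omega)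
    · simp [prog1_st, ones]
    · exact prog1_seq (prog1_pop3 _ _ _ _ _ _ _ _ _ _ O)
        (prog1_push0 _ _ _ _ _ _ _ _ _ _ O true)

/-- the program that writes down the number of the input -/
def ue_E : Cmd :=
  Cmd.seq ue_A (Cmd.seq (Cmd.push 3 true) (Cmd.seq (Cmd.loop 2 ue_B)
    (Cmd.loop 3 (Cmd.seq (Cmd.pop 3) (Cmd.push 0 true)))))

theorem ue_E_run (O : Lang) (x y : List Bool) :
    prog1_Run O ue_E (init x y) (init (ones (num x)) y)
      (x.length * (14 * num x + 14) + 4 * num x + 7) := by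
  rw [prog1_init, prog1_init]
  have h1 := ue_A_run O y x []
  rw [List.append_nil] at h1
  have h2 := ue_C_run O y x.reverse 1
  rw [ue_num, List.length_reverse] at h2
  have h3 := ue_D_run O y (num x) 0
  rw [Nat.zero_add] at h3
  refine prog1_mono (prog1_seq h1 (prog1_seq (prog1_push3 _ _ _ _ _ _ _ _ _ _ O true)
    (prog1_seq h2 h3))) ?_
  have e : x.length * (14 * num x + 14) = x.length * (14 * num x + 9) + 5 * x.length := by ring
  omega

theorem ue_time (n M : ℕ) (hM : M < 2 ^ (n + 1)) :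
    (n * (14 * M + 14) + 4 * M + 7) + (10 * M + 16) + 1 ≤ 2 ^ (9 * (n + 1)) := by
  have hn : n < 2 ^ (n + 1) := (Nat.lt_two_pow_self (n := n)).trans_le
    (Nat.pow_le_pow_right (by norm_num) (by omega))
  have h2 : 2 ≤ 2 ^ (n + 1) := by
    calc 2 = 2 ^ 1 := by norm_num
      _ ≤ 2 ^ (n + 1) := Nat.pow_le_pow_right (by norm_num) (by omega)
  set u := 2 ^ (n + 1) with hu
  have h3 : 2 ^ (9 * (n + 1)) = u ^ 9 := by rw [hu, ← pow_mul]; ring_nf
  rw [h3]
  have h4 : n * (14 * M + 14) ≤ u * (14 * u) := Nat.mul_le_mul hn.le (by omega)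
  have h5 : u ^ 9 = u ^ 7 * (u * u) := by ring
  have h6 : 2 ^ 7 ≤ u ^ 7 := Nat.pow_le_pow_left h2 7
  have h7 : 2 ^ 7 * (u * u) ≤ u ^ 7 * (u * u) := Nat.mul_le_mul_right _ h6
  have h8 : u * 2 ≤ u * u := Nat.mul_le_mul_left _ h2
  rw [h5]
  nlinarith

theorem ue_acc (O : Lang) (b : Bool) (x y : List Bool) :
    NEWitness O (Cmd.seq ue_E (prog1_P b)) 9 x y ↔
      (y.length = num x ∧ O (saddr (ones (num x)) y b) = true) := by
  have hl : (ones (num x)).length = num x := List.length_replicate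
  obtain ⟨s', h1, h2⟩ := prog1_spec O b (ones (num x)) y
  rw [hl] at h1 h2
  have h3 := prog1_final (prog1_seq (ue_E_run O x y) h1)
    (ue_time x.length (num x) (Pool.Agent.CKP.num_lt x))
  have h4 : (run O (Cmd.seq ue_E (prog1_P b)) x y (2 ^ (9 * (x.length + 1)))) = ([], s') := h3
  unfold NEWitness Accepts
  rw [h4]
  simp only [true_and]
  rw [h2]
  constructor
  · exact fun h => h.2
  · intro h
    refine ⟨?_, h⟩
    rw [h.1]
    have h5 := Pool.Agent.CKP.num_lt x
    have h6 : 2 ^ (x.length + 1) ≤ 2 ^ (9 * (x.length + 1)) :=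
      Nat.pow_le_pow_right (by norm_num) (by omega)
    omega

/-- UE -/
theorem inUE_V {O : Lang} (h : ∀ n, Sec O n) : InUE O (fun x => V O (ones (num x))) := by
  have hl : ∀ n, (ones n).length = n := fun n => List.length_replicate
  refine ⟨Cmd.seq ue_E (prog1_P true), 9, fun x => ?_, fun x y y' hy hy' => ?_⟩
  · simp only [V, decide_eq_true_eq, ue_acc, hl]
  · obtain ⟨h1, h2⟩ := (ue_acc O true x y).1 hy
    obtain ⟨h3, h4⟩ := (ue_acc O true x y').1 hy'
    have := (h (num x) (ones (num x)) (hl _)).unique (y₁ := (y, true)) (y₂ := (y', true))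
      ⟨h1, h2⟩ ⟨h3, h4⟩
    exact (Prod.ext_iff.1 this).1

/-- UE -/
theorem inUE_compl_V {O : Lang} (h : ∀ n, Sec O n) :
    InUE O (fun x => !V O (ones (num x))) := by
  have hl : ∀ n, (ones n).length = n := fun n => List.length_replicate
  refine ⟨Cmd.seq ue_E (prog1_P false), 9, fun x => ?_, fun x y y' hy hy' => ?_⟩
  · simp only [Bool.not_eq_true', V, decide_eq_false_iff_not, ue_acc, hl]
    constructor
    · intro hn
      obtain ⟨⟨y, b⟩, ⟨hy, hO⟩, -⟩ := h (num x) (ones (num x)) (hl _)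
      have hb : b = false := by
        cases b with
        | false => rfl
        | true => exact absurd ⟨y, hy, hO⟩ hn
      subst hb
      exact ⟨y, hy, hO⟩
    · rintro ⟨y, hy, hO⟩ ⟨y', hy', hO'⟩
      have := (h (num x) (ones (num x)) (hl _)).unique (y₁ := (y, false)) (y₂ := (y', true))
        ⟨hy, hO⟩ ⟨hy', hO'⟩
      exact absurd (Prod.ext_iff.1 this).2 (by simp)
  · obtain ⟨h1, h2⟩ := (ue_acc O false x y).1 hy
    obtain ⟨h3, h4⟩ := (ue_acc O false x y').1 hy'
    have := (h (num x) (ones (num x)) (hl _)).unique (y₁ := (y, false)) (y₂ := (y', false))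
      ⟨h1, h2⟩ ⟨h3, h4⟩
    exact (Prod.ext_iff.1 this).1

end Pool.Agent.CKT
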