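import Pool.Agent.Lib_helper23.CKT.Oracle
import Pool.Agent.Lib_helper23.CKT.UE
import Pool.Agent.Lib_helper23.CKT.Grow

/-!
# The final theorem
-/

set_option autoImplicit false

namespace Pool.Agent.CKT

open Pool.Agent.CK
open Pool.Agent.CKP (num str PTime Exec Ex toDP toDP_ex unDP unDP_ex exists_pow init_nil
  poly_mono size_bits length_le_sz sz str_ptime run_stable two_pow_str num_lt)

/-- a polynomial-time function as a program that leaves all other stacks empty -/
theorem prep {O : Lang} {f : List Bool → List Bool} (hf : PTime O f) :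
    ∃ (q : Cmd) (k : ℕ), ∀ x : List Bool, ∃ t ≤ (x.length + 2) ^ k,
      Exec O q (init x []) (init (f x) []) t := by
  obtain ⟨Q, hQ⟩ := hf.size_le
  obtain ⟨F, ⟨p, m, P, hp, hm, h⟩, hF⟩ := hf
  obtain ⟨k, hk⟩ := exists_pow (16 * Polynomial.X + 22 + P.comp (4 * Polynomial.X + 1) +
    17 * Q.comp (4 * Polynomial.X + 1))
  refine ⟨.seq toDP (.seq p unDP), k, fun x => ?_⟩
  have e1 := toDP_ex (O := O) x (init x []) rfl rfl
  have e2 : Ex O p (Function.update (init x []) 0 (Pool.Agent.CKP.toD x).enc)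
      (Function.update (Function.update (init x []) 0 (Pool.Agent.CKP.toD x).enc) 0
        (F (Pool.Agent.CKP.toD x)).enc)
      (P.eval (Pool.Agent.CKP.toD x).size) :=
    h (Pool.Agent.CKP.toD x) _ ⟨x, rfl⟩ (by simp) (fun r hr _ => by
      rw [Function.update_of_ne (by omega), init_nil x r hr])
  rw [hF] at e2
  have e3 := unDP_ex (O := O) (f x) (Function.update (Function.update (init x []) 0
    (Pool.Agent.CKP.toD x).enc) 0 (Pool.Agent.CKP.toD (f x)).enc) (by simp) (by simp [init])
  obtain ⟨t, ht, he⟩ := e1.seq (e2.seq e3)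
  have hT : t ≤ (x.length + 2) ^ k := by
    refine ht.trans (le_trans ?_ (hk x.length))
    have h1 := poly_mono P (size_bits x)
    have h2 := hQ x
    have h3 := poly_mono Q (size_bits x)
    have h4 : (f x).length ≤ sz (f x) := length_le_sz _
    have h5 : Q.eval (sz x) = Q.eval (Pool.Agent.CKP.toD x).size := rfl
    simp only [Polynomial.eval_comp, Polynomial.eval_add, Polynomial.eval_mul,
      Polynomial.eval_ofNat, Polynomial.eval_X, Polynomial.eval_one]
    omega
  refine ⟨t, hT, ?_⟩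
  have hst : Function.update (Function.update (Function.update (init x []) 0
      (Pool.Agent.CKP.toD x).enc) 0 (Pool.Agent.CKP.toD (f x)).enc) 0 (f x) = init (f x) [] := by
    funext r
    by_cases hr : r = 0
    · subst hr; simp [init]
    · rw [Function.update_of_ne hr, Function.update_of_ne hr, Function.update_of_ne hr,
        init_nil x r (by omega), init_nil (f x) r (by omega)]
  rw [hst] at he
  exact he

theorem final_UE (T : ℕ → ℕ)
    (hT : ∀ ε : ℝ, 0 < ε → ∀ᶠ n : ℕ in Filter.atTop, (T n : ℝ) ≤ 2 ^ ((2 : ℝ) ^ (ε * n))) :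
    ∃ O V L : Lang, InUP O V ∧ InUP O (fun x => !V x) ∧ ¬ InP O V ∧ ManyOneComplete O V ∧
      (∀ C, InNP O C → TuringReducible O V C → ManyOneComplete O C) ∧
      (∀ C, TuringComplete O C → ManyOneComplete O C) ∧
      InUE O L ∧ InUE O (fun x => !L x) ∧
      ∀ (p : Cmd) (n0 : ℕ), ∃ x : List Bool, n0 ≤ x.length ∧
        ¬ (Halts O p x [] (T x.length) ∧ (Accepts O p x [] (T x.length) ↔ L x = true)) := by
  obtain ⟨O, hS, hP, h1, h2, h3, h4⟩ :=
    main_oracle (fun N => T (str N).length + 2 ^ ((Nat.log 2 N) ^ 2) + 1) (growT T hT)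
  refine ⟨O, V O, fun x => V O (ones (num x)), inUP_V hS, inUP_compl_V hS, hP, h1, h2, h3,
    inUE_V hS, inUE_compl_V hS, fun p n0 => ?_⟩
  by_contra hcon
  push Not at hcon
  have hf : PTime O (fun x : List Bool => str x.length) :=
    Pool.Agent.CKP.PTime.dropLast (Pool.Agent.CKP.PTime.bits
      (Pool.Agent.CKP.PTime.length Pool.Agent.CKP.PTime.id))
  obtain ⟨q, k, hq⟩ := prep hf
  obtain ⟨N, hN, hne⟩ := h4 (Cmd.seq q p) (2 ^ (n0 + 2 * k + 4))
  apply hne
  set L := Nat.log 2 N with hL
  have hN0 : N ≠ 0 := by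
    have : 0 < 2 ^ (n0 + 2 * k + 4) := by positivity
    omega
  have hLb : n0 + 2 * k + 4 ≤ L := by
    rw [hL]
    exact (Nat.le_log_iff_pow_le (by norm_num) hN0).2 hN
  have hN2 : N < 2 ^ (L + 1) := Nat.lt_pow_succ_log_self (by norm_num) N
  have hN1 : 2 ^ L ≤ N := Nat.pow_log_le_self 2 hN0
  set x := str N with hx
  have hnum : num x = N := num_str (by omega)
  have hxl : n0 ≤ x.length := by
    have h5 := num_lt x
    rw [hnum] at h5
    have h6 : 2 ^ L < 2 ^ (x.length + 1) := lt_of_le_of_lt hN1 h5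
    have h7 := (Nat.pow_lt_pow_iff_right (a := 2) (by norm_num)).1 h6
    omega
  obtain ⟨hh, ha⟩ := hcon x hxl
  obtain ⟨t, ht, he⟩ := hq (ones N)
  have hol : (ones N).length = N := List.length_replicate
  rw [hol] at ht he
  have ht2 : t ≤ 2 ^ (L ^ 2) := by
    refine ht.trans ?_
    calc (N + 2) ^ k ≤ (2 ^ (L + 2)) ^ k := by
          apply Nat.pow_le_pow_left
          have h8 : 2 ^ (L + 2) = 2 ^ (L + 1) * 2 := pow_succ _ _
          have h9 : 2 ≤ 2 ^ (L + 1) := by
            calc 2 = 2 ^ 1 := by norm_num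
              _ ≤ 2 ^ (L + 1) := Nat.pow_le_pow_right (by norm_num) (by omega)
          omega
      _ = 2 ^ ((L + 2) * k) := by rw [← pow_mul]
      _ ≤ 2 ^ (L ^ 2) := by
          apply Nat.pow_le_pow_right (by norm_num)
          nlinarith
  -- the run of the composed program
  have hrun1 : (step O)^[t + 1] ([Cmd.seq q p], init (ones N) []) = ([p], init x []) := by
    rw [Function.iterate_succ_apply]
    exact he.sound [p]
  obtain ⟨d, hd⟩ : ∃ d, T x.length + 2 ^ (L ^ 2) + 1 = (T x.length + d) + (t + 1) :=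
    ⟨2 ^ (L ^ 2) - t, by omega⟩
  have hrun2 : run O (Cmd.seq q p) (ones N) [] (T x.length + 2 ^ (L ^ 2) + 1) =
      run O p x [] (T x.length) := by
    rw [hd]
    unfold run
    rw [Function.iterate_add_apply, hrun1]
    exact run_stable hh (Nat.le_add_right _ _)
  have hV : V O (ones (num x)) = V O (ones N) := by rw [hnum]
  change accB O (Cmd.seq q p) (ones N) [] (T x.length + 2 ^ (L ^ 2) + 1) = V O (ones N)
  rw [← hV, Bool.eq_iff_iff, ← ha]
  rw [enum_accB]
  unfold Accepts
  rw [hrun2]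

end Pool.Agent.CKT
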