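import Pool.Agent.Lib_helper23.CKT.Addr
import Pool.Agent.Lib_helper23.CKT.NumDefs
import Pool.Agent.Lib_helper74.CKF.NUM2

/-!
# The groups of a zone (adapted from `Lib_helper74/CKF/NUM2.lean`)
-/

set_option autoImplicit false

namespace Pool.Agent.CKT

open Pool.Agent.CK

theorem groupsH {H : ℕ → ℕ} (hH : ∀ e, e ^ 2 ≤ H e) (k n lo hi : ℕ) (hn : 2 ≤ n) :
    ∃ G : Finset (ℕ × ℕ), G.card ≤ RG k n hi ∧ (∀ g ∈ G, g.2 ≤ k ∧ Adeq g.2) ∧
      ∀ e z, e ≤ k → Adeq e → n ≤ (z.length + 2) ^ (iN e + 3) → lo ≤ alenH H e z →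
        alenH H e z < hi → ∃ t, (t, e) ∈ G ∧ z ∈ ZSH H n lo hi t e := by
  classical
  set Λ := Nat.log 2 n with hΛ
  set s := Nat.log 2 Λ with hs
  set Λ' := Nat.log 2 hi with hΛ'
  set s' := Nat.log 2 Λ' with hs'
  have hΛ1 : 2 ^ Λ ≤ n := Nat.pow_log_le_self 2 (by omega)
  have hΛ2 : n < 2 ^ (Λ + 1) := Nat.lt_pow_succ_log_self (by norm_num) n
  have hΛpos : 1 ≤ Λ := by
    by_contra h
    have : Λ = 0 := by omega
    rw [this] at hΛ2
    norm_num at hΛ2
    omega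
  have hs1 : 2 ^ s ≤ Λ := Nat.pow_log_le_self 2 (by omega)
  refine ⟨(Finset.Icc (s - (k + 5)) s') ×ˢ ((Finset.range (k + 1)).filter Adeq), ?_, ?_, ?_⟩
  · rw [Finset.card_product, RG, Nat.mul_comm]
    apply Nat.mul_le_mul
    · exact (Finset.card_filter_le _ _).trans (by simp)
    · rw [Nat.card_Icc]
      change s' + 1 - (s - (k + 5)) ≤ s' + k + 6 - s
      omega
  · intro g hg
    rw [Finset.mem_product, Finset.mem_filter, Finset.mem_range] at hg
    exact ⟨by omega, hg.2.2⟩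
  · intro e z hek he h1 hlo h2
    set a := z.length + 2 with ha
    set L := Nat.log 2 a with hL
    set t := Nat.log 2 L with ht
    have hL1 : 2 ^ L ≤ a := Nat.pow_log_le_self 2 (by omega)
    have hL2 : a < 2 ^ (L + 1) := Nat.lt_pow_succ_log_self (by norm_num) a
    have hLpos : 1 ≤ L := by
      by_contra h
      have : L = 0 := by omega
      rw [this] at hL2
      norm_num at hL2
      omega
    have ht1 : 2 ^ t ≤ L := Nat.pow_log_le_self 2 (by omega)
    have ht2 : L < 2 ^ (t + 1) := Nat.lt_pow_succ_log_self (by norm_num) L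
    have hiN := num2_iN_le e
    -- n is small compared with a power of a
    have h3 : n ≤ a ^ (k + 3) := h1.trans (Nat.pow_le_pow_right (by omega) (by omega))
    have h4 : 2 ^ Λ < 2 ^ ((L + 1) * (k + 3)) := by
      calc 2 ^ Λ ≤ n := hΛ1
        _ ≤ a ^ (k + 3) := h3
        _ < (2 ^ (L + 1)) ^ (k + 3) := Nat.pow_lt_pow_left hL2 (by omega)
        _ = 2 ^ ((L + 1) * (k + 3)) := by rw [← pow_mul]
    have h5 : Λ < (L + 1) * (k + 3) := (Nat.pow_lt_pow_iff_right (by norm_num)).1 h4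
    have h6 : a < hi := lt_of_le_of_lt (alenH_pos (H_pos hH he)) h2
    have h8 : L ≤ Λ' := Nat.log_mono_right h6.le
    have h9 : t ≤ s' := Nat.log_mono_right h8
    have hk3 : k + 3 < 2 ^ (k + 3) := Nat.lt_two_pow_self
    have h10 : s < t + k + 5 := by
      rw [← Nat.pow_lt_pow_iff_right (a := 2) (by norm_num)]
      calc 2 ^ s ≤ Λ := hs1
        _ < (L + 1) * (k + 3) := h5
        _ ≤ (2 ^ (t + 1)) * (2 ^ (k + 3)) := Nat.mul_le_mul ht2 hk3.le
        _ = 2 ^ (t + k + 4) := by rw [← pow_add]; congr 1; ring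
        _ ≤ 2 ^ (t + k + 5) := Nat.pow_le_pow_right (by norm_num) (by omega)
    refine ⟨t, ?_, ?_, ?_, h1, hlo, h2⟩
    · rw [Finset.mem_product, Finset.mem_Icc, Finset.mem_filter, Finset.mem_range]
      exact ⟨⟨by dsimp only; omega, h9⟩, by dsimp only; omega, he⟩
    · calc 2 ^ 2 ^ t ≤ 2 ^ L := Nat.pow_le_pow_right (by norm_num) ht1
        _ ≤ z.length + 2 := hL1
    · calc z.length + 2 < 2 ^ (L + 1) := hL2
        _ ≤ 2 ^ 2 ^ (t + 1) := Nat.pow_le_pow_right (by norm_num) ht2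

end Pool.Agent.CKT
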