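import Pool.Agent.Lib_helper23.CKT.NUMT

/-!
# The sequence of the zones and the exponents
-/

set_option autoImplicit false

namespace Pool.Agent.CKT

open Pool.Agent.CK

theorem num_seq (T : ℕ → ℕ)
    (hT : ∀ ε : ℝ, 0 < ε → ∀ᶠ N : ℕ in Filter.atTop, (T N : ℝ) ≤ 2 ^ ((N : ℝ) ^ ε)) :
    ∃ (H n N E B : ℕ → ℕ), (∀ e, e ^ 2 ≤ H e) ∧ (∀ k e, k < e → E k ≤ H e) ∧
      (∀ k, E k + 2 ≤ n (k + 1)) ∧ (∀ k, k ≤ N k) ∧
      ∀ k, NumOK k (n k) (N k) (E k) (B k) (RG k (n k) (N k)) (RG k (n k) (E k)) ∧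
        N k + (T (N k) + (N k + 2) ^ k) < E k := by
  choose n0 hn0 using num_zoneT_pr T hT
  choose N' E' B' hnum using hn0
  -- the levels
  let st : (k : ℕ) → {n : ℕ // n0 k ≤ n} := fun k => Nat.rec
    (motive := fun k => {n : ℕ // n0 k ≤ n}) ⟨n0 0, le_rfl⟩
    (fun k s => ⟨max (n0 (k + 1)) (E' k s.1 s.2 + 2), le_max_left _ _⟩) k
  have hst : ∀ k, (st (k + 1)).1 = max (n0 (k + 1)) (E' k (st k).1 (st k).2 + 2) := fun k => rfl
  let E : ℕ → ℕ := fun k => E' k (st k).1 (st k).2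
  refine ⟨fun e => e ^ 2 + ∑ j ∈ Finset.range e, E j, fun k => (st k).1,
    fun k => N' k (st k).1 (st k).2, E, fun k => B' k (st k).1 (st k).2,
    fun e => Nat.le_add_right _ _, fun k e hk => ?_, fun k => ?_, fun k => ?_,
    fun k => hnum k (st k).1 (st k).2⟩
  · have h1 : E k ≤ ∑ j ∈ Finset.range e, E j :=
      Finset.single_le_sum (f := E) (fun _ _ => Nat.zero_le _) (Finset.mem_range.2 hk)
    exact h1.trans (Nat.le_add_left _ _)
  · change E' k (st k).1 (st k).2 + 2 ≤ (st (k + 1)).1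
    rw [hst]
    exact le_max_right _ _
  · have h1 := (hnum k (st k).1 (st k).2).1.hkn
    have h2 := (hnum k (st k).1 (st k).2).1.hnN
    have h3 : k < 2 ^ k := Nat.lt_two_pow_self
    have h4 : 2 ^ k ≤ 2 ^ (k + 2) := Nat.pow_le_pow_right (by norm_num) (by omega)
    dsimp only
    omega

end Pool.Agent.CKT
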