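import Pool.Agent.Lib_helper23.CKT.Fill
import Pool.Agent.Lib_helper23.CKT.Seq

/-!
# The limit of the construction (adapted from `Lib_helper74/CKF/LIMIT.lean`)
-/

set_option autoImplicit false

namespace Pool.Agent.CKT

open Pool.Agent.CK

variable {H : ℕ → ℕ}

theorem ExtH.trans {N N' : ℕ} {O O' O'' : Lang} (h : ExtH H N O O') (h' : ExtH H N' O' O'')
    (hN : N ≤ N') : ExtH H N O O'' := fun w hw => (h' w (hw.trans_le hN)).trans (h w hw)

theorem ExtH.refl (N : ℕ) (O : Lang) : ExtH H N O O := fun _ _ => rfl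

/-- the adversary of the stage `k` -/
def advO (k : ℕ) : Option Bool := (adv k.unpair.1).2.1
/-- the adversary of the stage `k` -/
def advC (k : ℕ) : Cmd := (adv k.unpair.1).1
/-- the adversary of the stage `k` -/
def advM (k : ℕ) : Option ℕ := (adv k.unpair.1).2.2

/-- one stage of the construction -/
theorem stageH (hH : ∀ e, e ^ 2 ≤ H e) (T : ℕ → ℕ) {k a n N E B : ℕ} (han : a ≤ n)
    (num : NumOK k n N E B (RG k n N) (RG k n E)) (hTE : N + (T N + (N + 2) ^ k) < E)
    (hHE : ∀ e, k < e → E ≤ H e) (O : Lang) :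
    ∃ O' : Lang, ExtH H a O O' ∧ ∀ O'', ExtH H E O' O'' →
      (∀ e z, Adeq e → a ≤ alenH H e z → alenH H e z < E → Nontriv O'' e →
        Correct O'' e n → GoodH H O'' e z) ∧
      (∀ m, a ≤ 2 * m + 2 → 2 * m + 2 < E → Sec O'' m) ∧
      (AT (advC k) (advO k) (atime T k N (advM k)) (ones N)).eval O'' ≠ V O'' (ones N) := by
  obtain ⟨O1, h1, h1'⟩ := fillH hH a n han O
  obtain ⟨O2, h2, h2'⟩ := zoneH hH T num hTE hHE (advC k) (advO k) (advM k) O1
  have hnE : n ≤ E := by
    have := num.hnN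
    have := num.hNE
    omega
  refine ⟨O2, h1.trans h2 han, fun O'' hO => ?_⟩
  have h3 : ExtH H n O1 O'' := h2.trans hO hnE
  obtain ⟨a1, a2⟩ := h1' O'' h3
  obtain ⟨b1, b2, b3⟩ := h2' O'' hO
  refine ⟨fun e z he hz1 hz2 hnt hc => ?_, fun m hm1 hm2 => ?_, b3⟩
  · rcases lt_or_ge (alenH H e z) n with h | h
    · exact a1 e z he hz1 h hnt
    · exact b1 e z he h hz2 hnt hc
  · rcases lt_or_ge (2 * m + 2) n with h | h
    · exact a2 m hm1 h
    · exact b2 m h hm2

/-- LIM -/
theorem limitH (T : ℕ → ℕ)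
    (hT : ∀ ε : ℝ, 0 < ε → ∀ᶠ N : ℕ in Filter.atTop, (T N : ℝ) ≤ 2 ^ ((N : ℝ) ^ ε)) :
    ∃ (H N : ℕ → ℕ) (O : Lang), (∀ e, e ^ 2 ≤ H e) ∧ (∀ k, k ≤ N k) ∧
      (∀ e z, Adeq e → Nontriv O e → (∀ n, Correct O e n) → GoodH H O e z) ∧
      (∀ m, Sec O m) ∧
      ∀ k, accB (aor O (advO k)) (advC k) (ones (N k)) [] (atime T k (N k) (advM k)) ≠
        V O (ones (N k)) := by
  obtain ⟨H, n, N, E, B, hH, hEH, hEn, hkN, hnum⟩ := num_seq T hT
  let a : ℕ → ℕ := fun k => match k with
    | 0 => 0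
    | k + 1 => E k
  have han : ∀ k, a k ≤ n k := by
    intro k
    cases k with
    | zero => exact Nat.zero_le _
    | succ k =>
      change E k ≤ n (k + 1)
      have := hEn k
      omega
  have hstage : ∀ k (O : Lang), ∃ O' : Lang, ExtH H (a k) O O' ∧ ∀ O'', ExtH H (a (k + 1)) O' O'' →
      (∀ e z, Adeq e → a k ≤ alenH H e z → alenH H e z < a (k + 1) → Nontriv O'' e →
        Correct O'' e (n k) → GoodH H O'' e z) ∧
      (∀ m, a k ≤ 2 * m + 2 → 2 * m + 2 < a (k + 1) → Sec O'' m) ∧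
      (AT (advC k) (advO k) (atime T k (N k) (advM k)) (ones (N k))).eval O'' ≠
        V O'' (ones (N k)) := fun k O =>
    stageH hH T (han k) (hnum k).1 (hnum k).2 (fun e he => hEH k e he) O
  choose nx h2 h3 using hstage
  let s : ℕ → Lang := fun k => Nat.rec (fun _ => false) (fun k s => nx k s) k
  have hs : ∀ k, s (k + 1) = nx k (s k) := fun k => rfl
  have hlt : ∀ k, a k < a (k + 1) := by
    intro k
    have h1 := han k
    have h4 := (hnum k).1.hnN
    have h5 := (hnum k).1.hNE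
    change a k < E k
    omega
  have hmono : StrictMono a := strictMono_nat_of_lt_succ hlt
  have hge : ∀ k, k ≤ a k := fun k => hmono.id_le k
  have hext : ∀ k j, ExtH H (a k) (s k) (s (k + j)) := by
    intro k j
    induction j with
    | zero => exact ExtH.refl _ _
    | succ j ih =>
      have h4 : ExtH H (a (k + j)) (s (k + j)) (s (k + j + 1)) := by
        rw [hs]; exact h2 _ _
      exact ih.trans h4 (hmono.monotone (by omega))
  let O : Lang := fun w => s (keyH H w + 1) w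
  have hO : ∀ k, ExtH H (a k) (s k) O := by
    intro k w hw
    have hkw : keyH H w < a (keyH H w + 1) := lt_of_lt_of_le (Nat.lt_succ_self _) (hge _)
    change s (keyH H w + 1) w = s k w
    rcases le_total k (keyH H w + 1) with h | h
    · obtain ⟨j, hj⟩ := Nat.exists_eq_add_of_le h
      rw [hj]; exact hext k j w hw
    · obtain ⟨j, hj⟩ := Nat.exists_eq_add_of_le h
      rw [hj]; exact (hext (keyH H w + 1) j w hkw).symm
  have hfind : ∀ x : ℕ, ∃ k, a k ≤ x ∧ x < a (k + 1) := by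
    intro x
    have hex : ∃ k, x < a k := ⟨x + 1, lt_of_lt_of_le (Nat.lt_succ_self _) (hge _)⟩
    classical
    have hpos : Nat.find hex ≠ 0 := by
      intro h0
      have := Nat.find_spec hex
      rw [h0] at this
      exact absurd this (Nat.not_lt_zero _)
    obtain ⟨k, hk⟩ := Nat.exists_eq_succ_of_ne_zero hpos
    refine ⟨k, ?_, ?_⟩
    · have := Nat.find_min hex (m := k) (by omega)
      omega
    · have := Nat.find_spec hex
      rwa [hk] at this
  have hO' : ∀ k, ExtH H (a (k + 1)) (nx k (s k)) O := fun k => by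
    rw [← hs]; exact hO (k + 1)
  refine ⟨H, N, O, hH, hkN, fun e z he hnt hc => ?_, fun m => ?_, fun k => ?_⟩
  · obtain ⟨k, hk1, hk2⟩ := hfind (alenH H e z)
    exact (h3 k (s k) O (hO' k)).1 e z he hk1 hk2 hnt (hc _)
  · obtain ⟨k, hk1, hk2⟩ := hfind (2 * m + 2)
    exact (h3 k (s k) O (hO' k)).2.1 m hk1 hk2
  · have := (h3 k (s k) O (hO' k)).2.2
    rwa [eval_AT] at this

end Pool.Agent.CKT
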