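import Pool.Agent.Lib_helper23.CKT.Final
import Pool.Agent.Lib_helper74.NF.ClassesE

/-!
# The final theorem, with the class `E`
-/

set_option autoImplicit false

namespace Pool.Agent.CKT

open Pool.Agent.CK
open Pool.Agent.CKP (run_stable)

theorem main_sq (ε : ℝ) (hε : 0 < ε) :
    ∀ᶠ n : ℕ in Filter.atTop, ((2 ^ (n ^ 2) : ℕ) : ℝ) ≤ 2 ^ ((2 : ℝ) ^ (ε * n)) := by
  have h1 : Filter.Tendsto (fun n : ℕ => ((n : ℝ)) ^ 2 / ((2 : ℝ) ^ ε) ^ n) Filter.atTop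
      (nhds 0) := by
    apply tendsto_pow_const_div_const_pow_of_one_lt
    exact Real.one_lt_rpow (by norm_num) hε
  filter_upwards [h1.eventually (gt_mem_nhds (show (0 : ℝ) < 1 by norm_num))] with n hn
  have h2 : (0 : ℝ) < ((2 : ℝ) ^ ε) ^ n := by positivity
  rw [div_lt_one h2] at hn
  have h3 : (2 : ℝ) ^ (ε * n) = ((2 : ℝ) ^ ε) ^ n := by
    rw [Real.rpow_mul (by norm_num), Real.rpow_natCast]
  rw [h3]
  push_cast
  rw [← Real.rpow_natCast 2 (n ^ 2)]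
  apply Real.rpow_le_rpow_of_exponent_le (by norm_num)
  push_cast
  exact hn.le

theorem main_add (T : ℕ → ℕ)
    (hT : ∀ ε : ℝ, 0 < ε → ∀ᶠ n : ℕ in Filter.atTop, (T n : ℝ) ≤ 2 ^ ((2 : ℝ) ^ (ε * n))) :
    ∀ ε : ℝ, 0 < ε → ∀ᶠ n : ℕ in Filter.atTop,
      ((T n + 2 ^ (n ^ 2) : ℕ) : ℝ) ≤ 2 ^ ((2 : ℝ) ^ (ε * n)) := by
  intro ε hε
  have h0 : Filter.Tendsto (fun n : ℕ => ((2 : ℝ) ^ (ε / 2)) ^ n) Filter.atTop Filter.atTop :=
    tendsto_pow_atTop_atTop_of_one_lt (Real.one_lt_rpow (by norm_num) (by positivity))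
  filter_upwards [hT (ε / 2) (by positivity), main_sq (ε / 2) (by positivity),
    h0.eventually_ge_atTop 2] with n h1 h2 h3
  have h4 : (2 : ℝ) ^ (ε / 2 * n) = ((2 : ℝ) ^ (ε / 2)) ^ n := by
    rw [Real.rpow_mul (by norm_num), Real.rpow_natCast]
  have h5 : (2 : ℝ) ^ (ε * n) = ((2 : ℝ) ^ (ε / 2)) ^ n * ((2 : ℝ) ^ (ε / 2)) ^ n := by
    rw [← h4, ← Real.rpow_add (by norm_num)]
    congr 1
    ring
  set u := ((2 : ℝ) ^ (ε / 2)) ^ n with hu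
  rw [h4] at h1 h2
  have h6 : u + 1 ≤ (2 : ℝ) ^ (ε * n) := by
    rw [h5]; nlinarith
  calc ((T n + 2 ^ (n ^ 2) : ℕ) : ℝ) = (T n : ℝ) + ((2 ^ (n ^ 2) : ℕ) : ℝ) := by push_cast; ring
    _ ≤ 2 ^ u + 2 ^ u := add_le_add h1 h2
    _ = 2 ^ (u + 1) := by rw [Real.rpow_add (by norm_num), Real.rpow_one]; ring
    _ ≤ 2 ^ ((2 : ℝ) ^ (ε * n)) := Real.rpow_le_rpow_of_exponent_le (by norm_num) h6

theorem main_UE (T : ℕ → ℕ)
    (hT : ∀ ε : ℝ, 0 < ε → ∀ᶠ n : ℕ in Filter.atTop, (T n : ℝ) ≤ 2 ^ ((2 : ℝ) ^ (ε * n))) :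
    ∃ O V L : Lang, InUP O V ∧ InUP O (fun x => !V x) ∧ ¬ InP O V ∧ ManyOneComplete O V ∧
      (∀ C, InNP O C → TuringReducible O V C → ManyOneComplete O C) ∧
      (∀ C, TuringComplete O C → ManyOneComplete O C) ∧
      InUE O L ∧ InUE O (fun x => !L x) ∧ ¬ InE O L ∧
      ∀ (p : Cmd) (n0 : ℕ), ∃ x : List Bool, n0 ≤ x.length ∧
        ¬ (Halts O p x [] (T x.length) ∧ (Accepts O p x [] (T x.length) ↔ L x = true)) := by
  obtain ⟨O, V, L, h1, h2, h3, h4, h5, h6, h7, h8, h9⟩ :=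
    final_UE (fun n => T n + 2 ^ (n ^ 2)) (main_add T hT)
  -- a program that is correct in a smaller time bound is correct in a larger one
  have hup : ∀ (p : Cmd) (x : List Bool) (t t' : ℕ), t ≤ t' →
      (Halts O p x [] t ∧ (Accepts O p x [] t ↔ L x = true)) →
      Halts O p x [] t' ∧ (Accepts O p x [] t' ↔ L x = true) := by
    intro p x t t' htt h
    have e := run_stable h.1 htt
    unfold Halts Accepts at h ⊢
    rw [e]
    exact h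
  refine ⟨O, V, L, h1, h2, h3, h4, h5, h6, h7, h8, fun hE => ?_, fun p n0 => ?_⟩
  · obtain ⟨c, k, hc⟩ := hE
    obtain ⟨x, hx, hx'⟩ := h9 c (2 * k + 2)
    apply hx'
    refine hup c x _ _ ?_ (hc x)
    refine le_trans ?_ (Nat.le_add_left _ _)
    apply Nat.pow_le_pow_right (by norm_num)
    nlinarith
  · obtain ⟨x, hx, hx'⟩ := h9 p n0
    exact ⟨x, hx, fun h => hx' (hup p x _ _ (Nat.le_add_right _ _) h)⟩

end Pool.Agent.CKT
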