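import Pool.Agent.Lib_helper23.CKT.Addr

/-!
# The small part of a zone (adapted from `Lib_helper74/CKF/MULTI.lean`)
-/

set_option autoImplicit false

namespace Pool.Agent.CKT

open Pool.Agent.CK

/-- the reading function of the tables of the small part -/
theorem multiH {H : ℕ → ℕ} (hH : ∀ e, e ^ 2 ≤ H e) (k n hi : ℕ) (hn : 2 ≤ n) (Ob : Lang) (B : ℕ)
    (hB : 2 ≤ B) (hB1 : hi + 1 ≤ B) (hB2 : n + (n + 2) ^ k + 1 ≤ B) (G : Finset (ℕ × ℕ))
    (hG : ∀ g ∈ G, g.2 ≤ k ∧ Adeq g.2)
    (h1 : 3 * (B ^ CC ^ G.card + 1) * (B ^ CC ^ G.card + 1) ≤ 2 ^ n)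
    (h2 : 2 * B ^ CC ^ G.card < 2 ^ n)
    (Fam : Set (X n → DT Bool)) (hF : Small B Fam) :
    ∃ (S : X n → X n × Bool) (O' : Lang),
      (∀ w, spos n w = none → (∀ g ∈ G, gposH H n 0 hi g.1 g.2 w = none) → O' w = Ob w) ∧
      (∀ w p, spos n w = some p → O' w = decide (S p.1 = p.2)) ∧
      (∀ g ∈ G, (∀ x : X n, PL (iM g.2) (join O' (NL (iC g.2) O')) x.1 = (S x).2) →
        ∀ z ∈ ZSH H n 0 hi g.1 g.2, GoodPH H O' n g.2 z) ∧
      ∀ A ∈ Fam, ∃ x, (A x).eval O' ≠ (S x).2 := by
  induction hm : G.card generalizing G B Fam with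
  | zero =>
    have hG0 : G = ∅ := Finset.card_eq_zero.1 hm
    rw [hm, pow_zero, pow_one] at h1 h2
    obtain ⟨S, hS⟩ := ini_lemma (spos n) Ob Fam B hF (by rw [card_X]; exact h1)
      (by rw [card_X]; exact h2)
    refine ⟨S, patch (spos n) (fun q i => decide (q = i)) Ob S, fun w hw _ => ?_,
      fun w p hp => ?_, fun g hg => ?_, hS⟩
    · simp only [patch, hw]
    · simp only [patch, hp]
    · rw [hG0] at hg; simp at hg
  | succ m ih =>
    have hne : G.Nonempty := by
      rw [← Finset.card_pos, hm]; omega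
    obtain ⟨g, hgG, hgmax⟩ := G.exists_max_image (gkH H) hne
    obtain ⟨hgk, hga⟩ := hG g hgG
    have hHg : 0 < H g.2 := H_pos hH hga
    have hcard : (G.erase g).card = m := by
      rw [Finset.card_erase_of_mem hgG, hm]; omega
    have hBC : B ≤ B ^ CC := Nat.le_self_pow (by decide) B
    have hpow : ∀ j, (B ^ CC) ^ CC ^ j = B ^ CC ^ (j + 1) := fun j => by
      rw [← pow_mul, pow_succ']
    haveI := ZSH_finite (n := n) (lo := 0) (hi := hi) (t := g.1) hHg
    letI : Fintype (ZSH H n 0 hi g.1 g.2) := Fintype.ofFinite _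
    haveI := multi_finite_le (qb n g.2)
    letI : Fintype (QS n g.2) := Fintype.ofFinite _
    have hnB : n ≤ B := by omega
    have hexk : ex (iM g.2) ≤ k := (ex_le _).trans ((iM_le _).trans hgk)
    have hpk : (n + 2) ^ ex (iM g.2) ≤ (n + 2) ^ k := Nat.pow_le_pow_right (by omega) hexk
    have hX : Fintype.card (X n) ≤ 2 ^ B := by
      rw [card_X]; exact Nat.pow_le_pow_right (by norm_num) hnB
    have hZ : Fintype.card (ZSH H n 0 hi g.1 g.2) ≤ 2 ^ B :=
      (ZSH_card hHg).trans (Nat.pow_le_pow_right (by norm_num) hB1)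
    have hQ : Fintype.card (QS n g.2) ≤ 2 ^ B := by
      refine (multi_card_le _).trans (Nat.pow_le_pow_right (by norm_num) ?_)
      unfold qb; omega
    have hM : ∀ x : X n, (PT (iM g.2) x.1).depth ≤ B := by
      intro x
      refine (depth_PT _ _).trans ?_
      rw [x.2]; omega
    have hsm := small_next (gposH H n 0 hi g.1 g.2) (grd n g.2) (qf n g.2)
      (fun x : X n => PT (iM g.2) x.1) Fam B hB hF hX hZ hQ hM
    obtain ⟨S, O1, a1, a2, a3, a4⟩ := ih (B ^ CC) (hB.trans hBC) (hB1.trans hBC)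
      (hB2.trans hBC) (G.erase g) (fun g' hg' => hG g' (Finset.mem_of_mem_erase hg'))
      (by rw [hcard, hpow, ← hm]; exact h1) (by rw [hcard, hpow, ← hm]; exact h2) _ hsm hcard
    -- the table of the group `g`
    obtain ⟨T, hT1, hT2⟩ : ∃ T : ZSH H n 0 hi g.1 g.2 → QS n g.2,
        ((∀ x : X n, PL (iM g.2) (join O1 (NL (iC g.2) O1)) x.1 = (S x).2) →
          ∀ z, NL (iC g.2) O1 (T z).1 = NL (iN g.2) O1 z.1) ∧
        ∀ A ∈ Fam, ∃ x, (A x).eval (patch (gposH H n 0 hi g.1 g.2) (grd n g.2) O1 T) ≠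
          (S x).2 := by
      by_cases hyp : ∀ x : X n, PL (iM g.2) (join O1 (NL (iC g.2) O1)) x.1 = (S x).2
      · obtain ⟨T, hT, hT'⟩ := step_table (gposH H n 0 hi g.1 g.2) (grd n g.2) (qf n g.2)
          (fun x : X n => PT (iM g.2) x.1) O1 (fun x => (S x).2)
          (fun z => NL (iN g.2) O1 z.1) (fun q => NL (iC g.2) O1 q.1) Fam B (by omega) hF hX hQ a4
          (fun x => by
            rw [DT.eval_tr, ← hyp x, ← eval_PT]
            have hallQ := allQ_PT (iM g.2) x.1
            rw [x.2] at hallQ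
            refine DT.eval_join_congr _ _ hallQ (fun w _ => rfl) (fun q hq => ?_)
            simp only [List.length_cons] at hq
            have hq2 : q.length ≤ qb n g.2 := by unfold qb; omega
            simp only [qf, dif_pos hq2, DT.eval_leaf])
        exact ⟨T, fun _ => hT, hT'⟩
      · exact ⟨fun _ => ⟨[], Nat.zero_le _⟩, fun h => absurd h hyp,
          step_const _ _ (qf n g.2) (fun x : X n => PT (iM g.2) x.1) O1 (fun x => (S x).2) Fam B hF
            a4 _⟩
    set O' : Lang := patch (gposH H n 0 hi g.1 g.2) (grd n g.2) O1 T with hO'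
    have hnone : ∀ w, gposH H n 0 hi g.1 g.2 w = none → O' w = O1 w := fun w hw => by
      rw [hO']; simp only [patch, hw]
    have hagree : ∀ w : List Bool, w.length < 2 ^ gkH H g → O' w = O1 w := by
      intro w hw
      apply hnone
      cases hg : gposH H n 0 hi g.1 g.2 w with
      | none => rfl
      | some p =>
        exfalso
        have := (gposH_long hH hga hn hg).1
        change 2 ^ gkH H g ≤ w.length at this
        omega
    refine ⟨S, O', fun w hw1 hw2 => ?_, fun w p hp => ?_, fun g' hg' hcor z hz => ?_, hT2⟩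
    · rw [hnone w (hw2 g hgG)]
      exact a1 w hw1 fun g' hg' => hw2 g' (Finset.mem_of_mem_erase hg')
    · rw [hnone w (gposH_of_spos hp)]
      exact a2 w p hp
    · have hgg : gkH H g' ≤ gkH H g := hgmax g' hg'
      have hga' := (hG g' hg').2
      obtain ⟨d1, d2, d3, d4⟩ := num_depH hH hga' hn hz.1 hz.2.1 hz.2.2.1
      have hle : 2 ^ gkH H g' ≤ 2 ^ gkH H g := Nat.pow_le_pow_right (by norm_num) hgg
      have d1' : (z.length + 2) ^ (iN g'.2 + 2) < 2 ^ gkH H g := lt_of_lt_of_le d1 hle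
      have d2' : (qb n g'.2 + 2) ^ (iC g'.2 + 2) < 2 ^ gkH H g := lt_of_lt_of_le d2 hle
      have hcor1 : ∀ x : X n, PL (iM g'.2) (join O1 (NL (iC g'.2) O1)) x.1 = (S x).2 := by
        intro x
        rw [← hcor x]
        exact (corr_congr d2' hagree x).symm
      by_cases hgg' : g' = g
      · subst hgg'
        refine ⟨(T ⟨z, hz⟩).1, (T ⟨z, hz⟩).2, fun b c => ?_,
          good_congr d2' d1' hagree _ (T ⟨z, hz⟩).2 (hT1 hcor1 ⟨z, hz⟩)⟩
        rw [hO']
        simp only [patch, gposH_taddrH hz b c, grd]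
      · obtain ⟨q, hq1, hq2, hq3⟩ := a3 g' (Finset.mem_erase.2 ⟨hgg', hg'⟩) hcor1 z hz
        refine ⟨q, hq1, fun b c => ?_, good_congr d2' d1' hagree q hq1 hq3⟩
        rw [hnone, hq2 b c]
        exact gposH_disj (by simpa using hgg') hz b c

end Pool.Agent.CKT
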