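import Pool.Agent.Lib_helper23.CKT.NumDefs
import Pool.Agent.Lib_helper74.CKF.NUM4

/-!
# Optimality oracle (MP_675993_lc): block NUMT
-/

set_option autoImplicit false

namespace Pool.Agent.CKT

open Pool.Agent.CK

/-- the integer part of a root -/
theorem numt_root (a n : ℕ) : ∃ r : ℕ, r ^ (a + 1) ≤ n ∧ n < (r + 1) ^ (a + 1) := by
  classical
  have hex : ∃ m : ℕ, n < (m + 1) ^ (a + 1) :=
    ⟨n, lt_of_lt_of_le (Nat.lt_succ_self n) (Nat.le_self_pow (by omega) _)⟩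
  refine ⟨Nat.find hex, ?_, Nat.find_spec hex⟩
  rcases Nat.eq_zero_or_pos (Nat.find hex) with h | h
  · rw [h, zero_pow (by omega)]; exact Nat.zero_le _
  · have h1 := Nat.find_min hex (m := Nat.find hex - 1) (by omega)
    rw [Nat.sub_add_cancel h] at h1
    omega

/-- the length of the second zone -/
def numt_E (T : ℕ → ℕ) (k N : ℕ) : ℕ := 3 * N + T N + (N + 2) ^ k + 4

/-- the key asymptotic estimate -/
theorem numt_key (T : ℕ → ℕ)
    (hT : ∀ ε : ℝ, 0 < ε → ∀ᶠ N : ℕ in Filter.atTop, (T N : ℝ) ≤ 2 ^ ((N : ℝ) ^ ε))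
    (k c a C : ℕ) (hc : 1 ≤ c) :
    ∃ n0, ∀ n ≥ n0, C * (Nat.log 2 (numt_E T k (n ^ c)) + 1) ^ a ≤ n := by
  have hcR : (0 : ℝ) < c := by exact_mod_cast hc
  have haR : (0 : ℝ) < (a : ℝ) + 1 := by positivity
  have h1 := hT (1 / (((a : ℝ) + 1) * c)) (by positivity)
  rw [Filter.eventually_atTop] at h1
  obtain ⟨N1, hN1⟩ := h1
  obtain ⟨m0, hm0⟩ := num4_pow_le (((a + 1) * c + 2) * (k + 1))
  set R0 := m0 + C * 2 ^ a + 4 with hR0
  refine ⟨N1 + (R0 + 1) ^ (a + 1) + 1, fun n hn => ?_⟩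
  obtain ⟨r, hr1, hr2⟩ := numt_root a n
  have hn1 : 1 ≤ n := by omega
  have hr : R0 ≤ r := by
    by_contra hcon
    have h2 : (r + 1) ^ (a + 1) ≤ (R0 + 1) ^ (a + 1) := Nat.pow_le_pow_left (by omega) _
    omega
  set N := n ^ c with hN
  have hNpos : 1 ≤ N := Nat.one_le_pow _ _ hn1
  have hNn : n ≤ N := Nat.le_self_pow (by omega) n
  -- the time bound
  have hTN : T N ≤ 2 ^ (r + 1) := by
    have h2 := hN1 N (by omega)
    have h3 : ((N : ℝ) ^ (1 / (((a : ℝ) + 1) * c))) ≤ ((r + 1 : ℕ) : ℝ) := by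
      have h4 : (N : ℝ) ≤ (((r + 1 : ℕ) : ℝ)) ^ (((a : ℝ) + 1) * c) := by
        have h5 : ((a : ℝ) + 1) * c = (((a + 1) * c : ℕ) : ℝ) := by push_cast; ring
        rw [h5, Real.rpow_natCast]
        have h6 : N ≤ (r + 1) ^ ((a + 1) * c) := by
          rw [pow_mul]
          exact Nat.pow_le_pow_left hr2.le c
        exact_mod_cast h6
      calc (N : ℝ) ^ (1 / (((a : ℝ) + 1) * c))
          ≤ ((((r + 1 : ℕ) : ℝ)) ^ (((a : ℝ) + 1) * c)) ^ (1 / (((a : ℝ) + 1) * c)) :=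
            Real.rpow_le_rpow (by positivity) h4 (by positivity)
        _ = ((r + 1 : ℕ) : ℝ) := by
            rw [← Real.rpow_mul (by positivity)]
            rw [mul_one_div_cancel (by positivity), Real.rpow_one]
    have h7 : (T N : ℝ) ≤ 2 ^ (((r + 1 : ℕ)) : ℝ) :=
      h2.trans (Real.rpow_le_rpow_of_exponent_le (by norm_num) h3)
    rw [Real.rpow_natCast] at h7
    exact_mod_cast h7
  -- the polynomial bounds
  have hN2 : N + 2 ≤ (r + 1) ^ ((a + 1) * c + 2) := by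
    have h5 : N ≤ (r + 1) ^ ((a + 1) * c) := by
      rw [pow_mul]
      exact Nat.pow_le_pow_left hr2.le c
    have h6 : 3 ≤ (r + 1) ^ 2 := by
      calc 3 ≤ 2 ^ 2 := by norm_num
        _ ≤ (r + 1) ^ 2 := Nat.pow_le_pow_left (by omega) 2
    calc N + 2 ≤ N * 3 := by omega
      _ ≤ (r + 1) ^ ((a + 1) * c) * (r + 1) ^ 2 := Nat.mul_le_mul h5 h6
      _ = (r + 1) ^ ((a + 1) * c + 2) := by rw [← pow_add]
  have hN3 : 3 * N ≤ (r + 1) ^ ((a + 1) * c + 2) := by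
    have h5 : N ≤ (r + 1) ^ ((a + 1) * c) := by
      rw [pow_mul]
      exact Nat.pow_le_pow_left hr2.le c
    have h6 : 3 ≤ (r + 1) ^ 2 := by
      calc 3 ≤ 2 ^ 2 := by norm_num
        _ ≤ (r + 1) ^ 2 := Nat.pow_le_pow_left (by omega) 2
    calc 3 * N = N * 3 := by ring
      _ ≤ (r + 1) ^ ((a + 1) * c) * (r + 1) ^ 2 := Nat.mul_le_mul h5 h6
      _ = (r + 1) ^ ((a + 1) * c + 2) := by rw [← pow_add]
  have hbig := hm0 (r + 1) (by omega)
  have hA : 3 * N ≤ 2 ^ (r + 1) := by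
    refine hN3.trans (le_trans ?_ hbig)
    exact Nat.pow_le_pow_right (by omega) (Nat.le_mul_of_pos_right _ (by omega))
  have hB : (N + 2) ^ k ≤ 2 ^ (r + 1) := by
    refine le_trans (Nat.pow_le_pow_left hN2 k) (le_trans ?_ hbig)
    rw [← pow_mul]
    exact Nat.pow_le_pow_right (by omega) (Nat.mul_le_mul_left _ (by omega))
  have hD : 4 ≤ 2 ^ (r + 1) := by
    calc 4 = 2 ^ 2 := by norm_num
      _ ≤ 2 ^ (r + 1) := Nat.pow_le_pow_right (by norm_num) (by omega)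
  have hE : numt_E T k N ≤ 2 ^ (r + 3) := by
    unfold numt_E
    have : 2 ^ (r + 3) = 4 * 2 ^ (r + 1) := by ring
    omega
  have hlog : Nat.log 2 (numt_E T k N) + 1 ≤ 2 * r := by
    have h5 : Nat.log 2 (numt_E T k N) ≤ Nat.log 2 (2 ^ (r + 3)) := Nat.log_mono_right hE
    rw [Nat.log_pow (by norm_num)] at h5
    omega
  calc C * (Nat.log 2 (numt_E T k N) + 1) ^ a ≤ C * (2 * r) ^ a :=
        Nat.mul_le_mul_left _ (Nat.pow_le_pow_left hlog a)
    _ = (C * 2 ^ a) * r ^ a := by rw [mul_pow]; ring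
    _ ≤ r * r ^ a := Nat.mul_le_mul_right _ (by omega)
    _ = r ^ (a + 1) := by ring
    _ ≤ n := hr1

/-- the first zone has boundedly many groups -/
theorem numt_R1 (k n c : ℕ) (hn : 2 ≤ n) (hc : 1 ≤ c) :
    RG k n (n ^ c) ≤ (k + 1) * (c + k + 8) := by
  unfold RG
  apply Nat.mul_le_mul_left
  set L := Nat.log 2 n with hL
  have hL1 : 1 ≤ L := by
    have := Nat.log_mono_right (b := 2) hn
    have h2 : Nat.log 2 2 = 1 := by decide
    omega
  have h1 : n < 2 ^ (L + 1) := Nat.lt_pow_succ_log_self (by norm_num) n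
  have h2 : n ^ c < 2 ^ ((L + 1) * c) := by
    rw [pow_mul]
    exact Nat.pow_lt_pow_left h1 (by omega)
  have h3 : Nat.log 2 (n ^ c) ≤ (L + 1) * c := by
    have := Nat.log_mono_right (b := 2) h2.le
    rwa [Nat.log_pow (by norm_num)] at this
  have h4 : L < 2 ^ (Nat.log 2 L + 1) := Nat.lt_pow_succ_log_self (by norm_num) L
  have h5 : c ≤ 2 ^ c := Nat.lt_two_pow_self.le
  have h6 : (L + 1) * c ≤ 2 ^ (Nat.log 2 L + 1 + 1 + c) := by
    calc (L + 1) * c ≤ (2 ^ (Nat.log 2 L + 1)) * 2 ^ c := Nat.mul_le_mul h4 h5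
      _ ≤ (2 ^ (Nat.log 2 L + 1) * 2) * 2 ^ c := Nat.mul_le_mul_right _ (by omega)
      _ = 2 ^ (Nat.log 2 L + 1 + 1 + c) := by ring
  have h7 : Nat.log 2 (Nat.log 2 (n ^ c)) ≤ Nat.log 2 L + 1 + 1 + c := by
    have := Nat.log_mono_right (b := 2) (h3.trans h6)
    rwa [Nat.log_pow (by norm_num)] at this
  omega

/-- the second zone has few groups -/
theorem numt_R2 (k n E : ℕ) :
    RG k n E ≤ (k + 1) * (Nat.log 2 (Nat.log 2 E + 1) + k + 6) := by
  unfold RG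
  apply Nat.mul_le_mul_left
  have : Nat.log 2 (Nat.log 2 E) ≤ Nat.log 2 (Nat.log 2 E + 1) :=
    Nat.log_mono_right (by omega)
  omega

theorem numt_CC (k n E : ℕ) : CC ^ RG k n E ≤
    2 ^ (6 * (k + 1) * (k + 6)) * (Nat.log 2 E + 1) ^ (6 * (k + 1)) := by
  set l := Nat.log 2 E + 1 with hl
  have h1 : 2 ^ Nat.log 2 l ≤ l := Nat.pow_log_le_self 2 (by omega)
  calc CC ^ RG k n E ≤ (2 ^ 6) ^ RG k n E := Nat.pow_le_pow_left (by unfold CC; norm_num) _
    _ ≤ (2 ^ 6) ^ ((k + 1) * (Nat.log 2 l + k + 6)) :=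
        Nat.pow_le_pow_right (by norm_num) (numt_R2 k n E)
    _ = 2 ^ (6 * (k + 1) * (k + 6)) * (2 ^ Nat.log 2 l) ^ (6 * (k + 1)) := by
        rw [← pow_mul, ← pow_mul, ← pow_add]
        congr 1
        ring
    _ ≤ 2 ^ (6 * (k + 1) * (k + 6)) * l ^ (6 * (k + 1)) :=
        Nat.mul_le_mul_left _ (Nat.pow_le_pow_left h1 _)

/-- NUMT: the numbers of a zone exist for all large `n`. -/
theorem num_zoneT_pr (T : ℕ → ℕ)
    (hT : ∀ ε : ℝ, 0 < ε → ∀ᶠ N : ℕ in Filter.atTop, (T N : ℝ) ≤ 2 ^ ((N : ℝ) ^ ε)) (k : ℕ) :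
    ∃ n0, ∀ n ≥ n0, ∃ N E B : ℕ, NumOK k n N E B (RG k n N) (RG k n E) ∧
      N + (T N + (N + 2) ^ k) < E := by
  set c := (k + 2) * (k + 3) + 1 with hc
  have hc1 : 1 ≤ c := by omega
  set K1 := 2 ^ (6 * (k + 1) * (k + 6)) with hK1
  set K2 := (2 * k + 11) * K1 with hK2
  set K3 := CC * CC ^ ((k + 1) * (c + k + 8)) with hK3
  obtain ⟨n1, hn1⟩ := numt_key T hT k c (6 * k + 7) (2 * (K2 + 2) * K3 + 4) hc1
  refine ⟨n1 + 2 ^ (k + 2) + 4, fun n hn => ?_⟩
  have hkp : 1 ≤ 2 ^ (k + 2) := Nat.one_le_two_pow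
  have hkey := hn1 n (by omega)
  set N := n ^ c with hN
  set E := numt_E T k N with hE
  set l := Nat.log 2 E + 1 with hl
  have hEv : E = 3 * N + T N + (N + 2) ^ k + 4 := rfl
  have hE2 : E < 2 ^ l := Nat.lt_pow_succ_log_self (by norm_num) E
  have hn4 : 4 ≤ n := by omega
  have hkn : 2 ^ (k + 2) ≤ n := by omega
  have hK3p : 1 ≤ K3 := by
    rw [hK3]
    exact Nat.mul_pos (by unfold CC; norm_num) (Nat.pow_pos (by unfold CC; norm_num))
  have hl1 : 1 ≤ l := by omega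
  have hlp : 1 ≤ l ^ (6 * k + 7) := Nat.one_le_pow _ _ hl1
  set W := l ^ (6 * k + 7) with hW
  have hlW : l ≤ W := Nat.le_self_pow (by omega) l
  have hNn : n ≤ N := Nat.le_self_pow (by omega) n
  have hN2 : n ^ 2 ≤ N := Nat.pow_le_pow_right (by omega) (by rw [hc]; nlinarith)
  set b := l + 2 * k + 10 with hb
  -- the exponent of the second bound
  have hP : b * CC ^ RG k n E ≤ K2 * W := by
    have h1 : b ≤ (2 * k + 11) * l := by
      have : (2 * k + 10) * 1 ≤ (2 * k + 10) * l := Nat.mul_le_mul_left _ hl1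
      have h2 : (2 * k + 11) * l = (2 * k + 10) * l + l := by ring
      omega
    calc b * CC ^ RG k n E ≤ ((2 * k + 11) * l) * (K1 * l ^ (6 * (k + 1))) :=
          Nat.mul_le_mul h1 (numt_CC k n E)
      _ = (2 * k + 11) * K1 * l ^ (6 * (k + 1) + 1) := by ring
      _ = K2 * W := by
          have h2 : 6 * (k + 1) + 1 = 6 * k + 7 := by ring
          rw [hK2, hW, h2]
  have hBC : (2 ^ b) ^ CC ^ RG k n E ≤ 2 ^ (K2 * W) := by
    rw [← pow_mul]
    exact Nat.pow_le_pow_right (by norm_num) hP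
  have hKW : 2 * (K2 * W + l + 1) * K3 + 4 ≤ n := by
    refine le_trans ?_ hkey
    have h1 : K2 * W + l + 1 ≤ (K2 + 2) * W := by
      have : (K2 + 2) * W = K2 * W + W + W := by ring
      omega
    calc 2 * (K2 * W + l + 1) * K3 + 4 ≤ 2 * ((K2 + 2) * W) * K3 + 4 * W := by
          have h2 : 2 * (K2 * W + l + 1) * K3 ≤ 2 * ((K2 + 2) * W) * K3 :=
            Nat.mul_le_mul_right _ (Nat.mul_le_mul_left _ h1)
          omega
      _ = (2 * (K2 + 2) * K3 + 4) * W := by ring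
  refine ⟨N, E, 2 ^ b, ?_, by rw [hEv]; omega⟩
  refine ⟨hkn, ?_, ?_, ?_, ?_, ?_, ?_, ?_, ?_, ?_⟩
  · have : n ^ 2 = n * n := sq n
    nlinarith
  · -- the questions of the first kind
    have h1 : qk n k + 2 ≤ n ^ (k + 2) := by
      unfold qk
      have h2 : (n + 2) ^ k ≤ n ^ (k + 1) := by
        calc (n + 2) ^ k ≤ (2 * n) ^ k := Nat.pow_le_pow_left (by omega) k
          _ = 2 ^ k * n ^ k := mul_pow _ _ _
          _ ≤ n * n ^ k := Nat.mul_le_mul_right _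
              (le_trans (Nat.pow_le_pow_right (by norm_num) (by omega)) hkn)
          _ = n ^ (k + 1) := by ring
      have h3 : n ≤ n ^ (k + 1) := Nat.le_self_pow (by omega) n
      have h4 : n ^ (k + 2) = n ^ (k + 1) * n := by ring
      have h5 : n ^ (k + 1) * 4 ≤ n ^ (k + 1) * n := Nat.mul_le_mul_left _ hn4
      omega
    calc (qk n k + 2) ^ (k + 3) ≤ (n ^ (k + 2)) ^ (k + 3) := Nat.pow_le_pow_left h1 _
      _ = n ^ ((k + 2) * (k + 3)) := by rw [← pow_mul]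
      _ < n ^ ((k + 2) * (k + 3) + 1) := Nat.pow_lt_pow_right (by omega) (by omega)
      _ = N := by rw [hN, hc]
  · rw [hEv]; omega
  · calc 4 = 2 ^ 2 := by norm_num
      _ ≤ 2 ^ b := Nat.pow_le_pow_right (by norm_num) (by omega)
  · calc E + 1 ≤ 2 ^ l := hE2
      _ ≤ 2 ^ b := Nat.pow_le_pow_right (by norm_num) (by omega)
  · calc k + 1 ≤ 2 ^ k := Nat.lt_two_pow_self
      _ ≤ 2 ^ b := Nat.pow_le_pow_right (by norm_num) (by omega)
  · have h1 := numt_R2 k n E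
    have h2 : Nat.log 2 (Nat.log 2 E + 1) ≤ Nat.log 2 E + 1 := Nat.log_le_self 2 _
    have h3 : k + 1 ≤ 2 ^ k := Nat.lt_two_pow_self
    have h4 : l + k + 6 ≤ 2 ^ (l + k + 6) := Nat.lt_two_pow_self.le
    calc 16 * RG k n E ≤ 16 * ((k + 1) * (l + k + 6)) := by
          apply Nat.mul_le_mul_left
          refine h1.trans (Nat.mul_le_mul_left _ ?_)
          omega
      _ ≤ 2 ^ 4 * (2 ^ k * 2 ^ (l + k + 6)) :=
          Nat.mul_le_mul (by norm_num) (Nat.mul_le_mul h3 h4)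
      _ = 2 ^ b := by rw [← pow_add, ← pow_add]; congr 1; omega
  · have h1 : 3 + K2 * W ≤ N := by
      have : K2 * W + l + 1 ≤ 2 * (K2 * W + l + 1) * K3 := by
        calc K2 * W + l + 1 ≤ 2 * (K2 * W + l + 1) := by omega
          _ ≤ 2 * (K2 * W + l + 1) * K3 := Nat.le_mul_of_pos_right _ (by omega)
      omega
    calc 8 * (2 ^ b) ^ CC ^ RG k n E ≤ 2 ^ 3 * 2 ^ (K2 * W) :=
          Nat.mul_le_mul (by norm_num) hBC
      _ = 2 ^ (3 + K2 * W) := by rw [← pow_add]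
      _ ≤ 2 ^ N := Nat.pow_le_pow_right (by norm_num) h1
  · set M := (K2 * W + l + 1) * K3 with hM
    have h1 : (2 ^ b) ^ CC ^ RG k n E + (N + 1) ≤ 2 ^ (K2 * W + l + 1) := by
      have h2 : N + 1 ≤ 2 ^ l := by
        have h20 : N + 1 ≤ E := by rw [hEv]; omega
        exact h20.trans hE2.le
      have h3 : 2 ^ (K2 * W) ≤ 2 ^ (K2 * W + l) := Nat.pow_le_pow_right (by norm_num) (by omega)
      have h4 : 2 ^ l ≤ 2 ^ (K2 * W + l) := Nat.pow_le_pow_right (by norm_num) (by omega)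
      have h5 : 2 ^ (K2 * W + l + 1) = 2 ^ (K2 * W + l) * 2 := pow_succ _ _
      omega
    have h6 : (((2 ^ b) ^ CC ^ RG k n E + (N + 1)) ^ CC) ^ CC ^ RG k n N ≤ 2 ^ M := by
      calc (((2 ^ b) ^ CC ^ RG k n E + (N + 1)) ^ CC) ^ CC ^ RG k n N
          ≤ ((2 ^ (K2 * W + l + 1)) ^ CC) ^ CC ^ RG k n N :=
            Nat.pow_le_pow_left (Nat.pow_le_pow_left h1 _) _
        _ = 2 ^ ((K2 * W + l + 1) * (CC * CC ^ RG k n N)) := by
            rw [← pow_mul, ← pow_mul, mul_assoc]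
        _ ≤ 2 ^ M := by
            apply Nat.pow_le_pow_right (by norm_num)
            rw [hM, hK3]
            apply Nat.mul_le_mul_left
            apply Nat.mul_le_mul_left
            exact Nat.pow_le_pow_right (by unfold CC; norm_num) (numt_R1 k n c (by omega) hc1)
    have h7 : 1 ≤ 2 ^ M := Nat.one_le_two_pow
    have h8 : (((2 ^ b) ^ CC ^ RG k n E + (N + 1)) ^ CC) ^ CC ^ RG k n N + 1 ≤ 2 ^ (M + 1) := by
      have : 2 ^ (M + 1) = 2 ^ M * 2 := pow_succ _ _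
      omega
    have h9 : 2 * M + 4 ≤ n := by
      have : 2 * M + 4 = 2 * (K2 * W + l + 1) * K3 + 4 := by rw [hM]; ring
      omega
    calc 3 * (((((2 ^ b) ^ CC ^ RG k n E + (N + 1)) ^ CC) ^ CC ^ RG k n N + 1) *
          ((((2 ^ b) ^ CC ^ RG k n E + (N + 1)) ^ CC) ^ CC ^ RG k n N + 1))
        ≤ 2 ^ 2 * (2 ^ (M + 1) * 2 ^ (M + 1)) :=
          Nat.mul_le_mul (by norm_num) (Nat.mul_le_mul h8 h8)
      _ = 2 ^ (2 * M + 4) := by rw [← pow_add, ← pow_add]; congr 1; omega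
      _ ≤ 2 ^ n := Nat.pow_le_pow_right (by norm_num) h9

end Pool.Agent.CKT
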