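import Pool.Agent.Lib_helper23.CKT.Defs
import Pool.Agent.Lib_helper74.CKF.PROG2

/-! # CKT block PROGR (helper14): the machine that reads the table, with `H e` instead of `e ^ 2` -/

set_option autoImplicit false

namespace Pool.Agent.CKT

open Pool.Agent.CK

/-- the program that reads the table; `N` is the exponent of the address length -/
def progr_P (N e : ℕ) : Cmd :=
  Cmd.seq (Cmd.loop 0 prog2_bodyA) (Cmd.seq (Cmd.push 4 true) (Cmd.seq (Cmd.push 4 true)
  (Cmd.seq (Cmd.loop 3 prog2_bodyC) (Cmd.seq (Cmd.push 1 false)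
  (Cmd.seq (prog2_pushN 5 N) (Cmd.seq (Cmd.push 6 true) (Cmd.seq (Cmd.loop 5 prog2_body5)
  (Cmd.seq (Cmd.loop 6 (Cmd.seq (Cmd.pop 6) (Cmd.push 1 true))) (Cmd.seq (Cmd.push 1 false)
  (Cmd.seq (prog2_pushN 1 e) (Cmd.seq (Cmd.push 1 false) (Cmd.seq (Cmd.push 9 true)
    (Cmd.loop 9 prog2_bodyF)))))))))))))

/-- the time bound -/
def progr_T (N e n : ℕ) : ℕ :=
  12 * n + (N * ((n + 2) ^ N * (14 * (n + 2) + 6) + 6)) + 26 * (n + 2) ^ N +
    2 * N + 2 * e + 60

theorem progr_run (H : ℕ → ℕ) (O : Lang) (e : ℕ) (q z : List Bool) (hq : q.length ≤ alenH H e z)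
    (h : ∀ b c, O (taddrH H e z b c) = bit q (b, c)) :
    ∃ s', prog1_Run O (progr_P (H e) e) (init z []) s' (progr_T (H e) e z.length) ∧ s' 0 = q := by
  rw [prog1_init]
  set m := z.length + 2 with hm
  have hal : alenH H e z = m ^ H e := rfl
  set R : List Bool := false :: (ones e ++ false :: (ones (m ^ H e) ++ false :: z)) with hR
  obtain ⟨s', hF, hs'⟩ := prog2_F O q R (ones m) (fun b c => h b c) q.length 0 (by omega)
  refine ⟨s', ?_, hs'⟩
  have hA := prog2_A O z [] []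
  rw [List.append_nil, List.append_nil] at hA
  have hC := prog2_C O (ones m) z.reverse []
  rw [List.reverse_reverse, List.append_nil, List.length_reverse] at hC
  have h5 := prog2_pushN_run O 5 (H e) (prog1_st [] (false :: z) [] [] (ones m) [] [] [] [] [])
  rw [prog1_up5] at h5
  have h5' : ones (H e) ++ (prog1_st [] (false :: z) [] [] (ones m) [] [] [] [] []) 5 =
      ones (H e) := List.append_nil _
  rw [h5'] at h5
  have hD := prog2_D O (false :: z) m (by omega) (H e) 1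
  rw [Nat.one_mul] at hD
  have hE := prog2_E O m (m ^ H e) (false :: z)
  have h1 := prog2_pushN_run O 1 e
    (prog1_st [] (false :: (ones (m ^ H e) ++ false :: z)) [] [] (ones m) [] [] [] [] [])
  rw [prog1_up1] at h1
  refine prog1_mono (prog1_seq hA (prog1_seq (prog1_push4 _ _ _ _ _ _ _ _ _ _ O true)
    (prog1_seq (prog1_push4 _ _ _ _ _ _ _ _ _ _ O true)
    (prog1_seq hC (prog1_seq (prog1_push1 _ _ _ _ _ _ _ _ _ _ O false)
    (prog1_seq h5 (prog1_seq (prog1_push6 _ _ _ _ _ _ _ _ _ _ O true)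
    (prog1_seq hD (prog1_seq hE (prog1_seq (prog1_push1 _ _ _ _ _ _ _ _ _ _ O false)
    (prog1_seq h1 (prog1_seq (prog1_push1 _ _ _ _ _ _ _ _ _ _ O false)
    (prog1_seq (prog1_push9 _ _ _ _ _ _ _ _ _ _ O true) hF))))))))))))) ?_
  rw [progr_T, ← hm]
  rw [hal] at hq
  omega

theorem progr_time (N e n : ℕ) : progr_T N e n ≤
    (n + 2) ^ (100 + 28 * N + 2 * e + (N + 1)) := by
  set m := n + 2 with hm
  have hm2 : 2 ≤ m := by omega
  have hQ1 : m ^ N ≤ m ^ (N + 1) := Nat.pow_le_pow_right (by omega) (by omega)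
  have hQ2 : m ≤ m ^ (N + 1) := Nat.le_self_pow (by omega) m
  have hQ3 : 1 ≤ m ^ (N + 1) := Nat.one_le_pow _ _ (by omega)
  have hQ4 : m ^ (N + 1) = m ^ N * m := pow_succ _ _
  have h1 : progr_T N e n ≤ (100 + 28 * N + 2 * e) * m ^ (N + 1) := by
    rw [progr_T, ← hm]
    have e1 : N * (m ^ N * (14 * m + 6) + 6) = 14 * (N * (m ^ N * m)) + 6 * (N * m ^ N) + 6 * N := by
      ring
    rw [e1, ← hQ4]
    have a1 : N * m ^ N ≤ N * m ^ (N + 1) := Nat.mul_le_mul_left _ hQ1
    have a2 : N ≤ N * m ^ (N + 1) := Nat.le_mul_of_pos_right _ hQ3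
    have a3 : e ≤ e * m ^ (N + 1) := Nat.le_mul_of_pos_right _ hQ3
    have e2 : (100 + 28 * N + 2 * e) * m ^ (N + 1) =
        100 * m ^ (N + 1) + 28 * (N * m ^ (N + 1)) + 2 * (e * m ^ (N + 1)) := by ring
    rw [e2]
    omega
  refine h1.trans ?_
  rw [pow_add m (100 + 28 * N + 2 * e) (N + 1)]
  refine Nat.mul_le_mul_right _ ?_
  exact (Nat.lt_two_pow_self.le).trans (Nat.pow_le_pow_left hm2 _)

/-- PROGR: the machine that reads the table -/
theorem inFP_readH (H : ℕ → ℕ) (O : Lang) (e : ℕ) (f : List Bool → List Bool)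
    (hf : ∀ z, (f z).length ≤ alenH H e z)
    (h : ∀ z b c, O (taddrH H e z b c) = bit (f z) (b, c)) : InFP O f := by
  refine ⟨progr_P (H e) e, 100 + 28 * H e + 2 * e + (H e + 1), fun z => ?_⟩
  obtain ⟨s', h1, h2⟩ := progr_run H O e (f z) z (hf z) (fun b c => h z b c)
  have h3 := prog1_final h1 (progr_time (H e) e z.length)
  constructor
  · simp only [Halts, run, h3]
  · simp only [run, h3]
    exact h2

end Pool.Agent.CKT
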