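import Pool.Agent.Lib_helper23.CKT.Limit
import Pool.Agent.Lib_helper74.CKF.FINAL
import Pool.Agent.Lib_helper23.CKT.PROGR

/-!
# The oracle (adapted from `Lib_helper74/CKF/FINAL.lean`)
-/

set_option autoImplicit false

namespace Pool.Agent.CKT

open Pool.Agent.CK

theorem adv_encode (c : Cmd) (o : Option Bool) (m : Option ℕ) :
    adv (Encodable.encode (c, o, m)) = (c, o, m) := by
  unfold adv
  rw [Encodable.encodek]
  rfl

/-- every adversary is considered at infinitely many stages -/
theorem adv_stage (c : Cmd) (o : Option Bool) (m : Option ℕ) (K : ℕ) :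
    ∃ k ≥ K, advC k = c ∧ advO k = o ∧ advM k = m := by
  refine ⟨Nat.pair (Encodable.encode (c, o, m)) K, Nat.right_le_pair _ _, ?_, ?_, ?_⟩
  · rw [advC, Nat.unpair_pair, adv_encode]
  · rw [advO, Nat.unpair_pair, adv_encode]
  · rw [advM, Nat.unpair_pair, adv_encode]

theorem main_oracle (T : ℕ → ℕ)
    (hT : ∀ ε : ℝ, 0 < ε → ∀ᶠ N : ℕ in Filter.atTop, (T N : ℝ) ≤ 2 ^ ((N : ℝ) ^ ε)) :
    ∃ O : Lang, (∀ m, Sec O m) ∧ ¬ InP O (V O) ∧ ManyOneComplete O (V O) ∧
      (∀ C, InNP O C → TuringReducible O (V O) C → ManyOneComplete O C) ∧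
      (∀ C, TuringComplete O C → ManyOneComplete O C) ∧
      ∀ c : Cmd, ∀ N0, ∃ N ≥ N0, accB O c (ones N) [] (T N) ≠ V O (ones N) := by
  obtain ⟨H, N, O, hH, hkN, hG, hS, hD⟩ := limitH T hT
  have hpoly : ∀ (c : Cmd) (o : Option Bool) (s : ℕ), ∃ M,
      accB (aor O o) c (ones M) [] ((M + 2) ^ s) ≠ V O (ones M) := by
    intro c o s
    obtain ⟨k, hk, h1, h2, h3⟩ := adv_stage c o (some s) s
    refine ⟨N k, ?_⟩
    have h4 := hD k
    rw [h1, h2, h3] at h4
    have h5 : atime T k (N k) (some s) = (N k + 2) ^ s := by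
      simp only [atime, min_eq_left hk]
    rwa [h5] at h4
  have hmain : ∀ C, InNP O C → TuringReducible O (V O) C → ManyOneComplete O C := by
    intro C hC hTu
    refine ⟨hC, fun A hA => ?_⟩
    obtain ⟨i, hi⟩ := exists_NL hC
    obtain ⟨l, hl⟩ := exists_NL hA
    obtain ⟨j, hj⟩ := exists_PL hTu
    have hex : ∀ β : Bool, ∃ q, C q = !β := by
      intro β
      by_contra hcon
      push Not at hcon
      have hCβ : C = fun _ => β := by
        funext q
        have := hcon q
        cases hq : C q <;> cases hb : β <;> simp_all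
      obtain ⟨M, hM⟩ := hpoly (prog j) (some β) (ex j)
      apply hM
      rw [← hj, hCβ, PL, ones_length]
      rfl
    obtain ⟨q0, hq0⟩ := hex true
    obtain ⟨q1, hq1⟩ := hex false
    obtain ⟨e, he1, he2, he3, he4, he5⟩ := exists_index i j l (max q0.length q1.length)
    have hnt : Nontriv O e := by
      refine ⟨q0, q1, (le_max_left _ _).trans he4, (le_max_right _ _).trans he4, ?_, ?_⟩
      · rw [he1, hi, hq0]; rfl
      · rw [he1, hi, hq1]; rfl
    have hcor : ∀ n, Correct O e n := by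
      intro n x _
      rw [he2, he1, hi, hj]
    have hgood := fun z => hG e z he5 hnt hcor
    choose f hf1 hf2 hf3 using hgood
    refine ⟨f, inFP_readH H O e f (fun z => ?_) hf2, fun z => ?_⟩
    · refine le_trans ?_ (hf1 z)
      calc (f z).length ≤ (f z).length + 2 := by omega
        _ = ((f z).length + 2) ^ 1 := (pow_one _).symm
        _ ≤ ((f z).length + 2) ^ (iC e + 2) := Nat.pow_le_pow_right (by omega) (by omega)
    · have := hf3 z
      rw [he1, hi, he3, hl] at this
      exact this.symm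
  have hNP : InNP O (V O) := (inUP_V hS).inNP
  refine ⟨O, hS, fun hP => ?_, hmain _ hNP (turing_refl O _), hmain,
    fun C hC => hmain C hC.1 (hC.2 _ hNP), fun c N0 => ?_⟩
  · obtain ⟨i, hi⟩ := exists_PL hP
    obtain ⟨M, hM⟩ := hpoly (prog i) none (ex i)
    apply hM
    conv_rhs => rw [← hi]
    rw [PL, ones_length]
    rfl
  · obtain ⟨k, hk, h1, h2, h3⟩ := adv_stage c none none N0
    refine ⟨N k, hk.trans (hkN k), ?_⟩
    have h4 := hD k
    rw [h1, h2, h3] at h4
    exact h4

end Pool.Agent.CKT
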