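import Pool.Agent.Lib_helper23.CKT.Core
import Pool.Agent.Lib_helper23.CKT.Groups
import Pool.Agent.Lib_helper74.CKF.ZONE

/-!
# One zone (adapted from `Lib_helper74/CKF/ZONE.lean`)
-/

set_option autoImplicit false

namespace Pool.Agent.CKT

open Pool.Agent.CK

/-! ### the adversaries -/

theorem eval_CT (c : Cmd) (t : ℕ) (O : Lang) (x : List Bool) :
    (CT c t x).eval O = accB O c x [] t := by
  rw [CT, DT.eval_map, mach_eval_runTree]
  rfl

theorem depth_CT (c : Cmd) (t : ℕ) (x : List Bool) : (CT c t x).depth ≤ t := by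
  rw [CT, DT.depth_map]
  exact mach_depth_runTree _ _

theorem allQ_CT (c : Cmd) (t : ℕ) (x : List Bool) :
    (CT c t x).AllQ (fun w => w.length ≤ x.length + t) := by
  rw [CT]
  apply mach_allQ_map
  refine (mach_allQ_runTree _ _ x.length (x.length + t)
    (mach_init_len x [] x.length le_rfl (Nat.zero_le _)) le_rfl).mono ?_
  intro w hw
  exact le_of_lt hw

theorem eval_AT (c : Cmd) (o : Option Bool) (t : ℕ) (O : Lang) (x : List Bool) :
    (AT c o t x).eval O = accB (aor O o) c x [] t := by
  cases o with
  | none => exact eval_CT c t O x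
  | some β =>
    rw [AT, DT.eval_tr]
    simp only [DT.eval_leaf]
    exact eval_CT c t _ x

theorem depth_AT (c : Cmd) (o : Option Bool) (t : ℕ) (x : List Bool) :
    (AT c o t x).depth ≤ t := by
  cases o with
  | none => exact depth_CT c t x
  | some β =>
    refine (DT.depth_tr _ _ 1 le_rfl (fun q => by simp)).trans ?_
    have := depth_CT c t x
    omega

/-- adversaries only see short positions -/
theorem AT_congr (c : Cmd) (o : Option Bool) (t L : ℕ) (O O' : Lang) (x : List Bool)
    (hL : x.length + t < L) (h : ∀ w : List Bool, w.length < L → O' w = O w) :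
    (AT c o t x).eval O' = (AT c o t x).eval O := by
  rw [eval_AT, eval_AT, ← eval_CT, ← eval_CT]
  cases o with
  | none =>
    exact DT.eval_congr _ _ (allQ_CT c t x) fun w hw => h w (by omega)
  | some β =>
    refine DT.eval_join_congr _ _ (allQ_CT c t x) (fun w hw => h w ?_) fun _ _ => rfl
    simp only [List.length_cons] at hw
    omega

/-! ### the leaky rule -/

variable {H : ℕ → ℕ}

theorem agree_of_extH {N : ℕ} {O O' : Lang} (h : ExtH H N O O') (w : List Bool)
    (hw : w.length < N) : O' w = O w := h w ((keyH_le w).trans_lt hw)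

/-- A correct leaky entry stays correct. -/
theorem good_leakH (hH : ∀ e, e ^ 2 ≤ H e) {O O' : Lang} {e N : ℕ} {z : List Bool} (he : Adeq e)
    (h1 : (ia e + 2) ^ (iC e + 2) ≤ N) (h2 : (z.length + 2) ^ (iN e + 2) ≤ N)
    (hO : ∀ w : List Bool, w.length < N → O' w = O w)
    (hb : ∀ b c, O' (taddrH H e z b c) = bit (leak O e z) (b, c)) (hnt : Nontriv O' e) :
    GoodH H O' e z := by
  have hnt' := Nontriv_congr h1 hO hnt
  obtain ⟨l1, l2⟩ := leak_spec hnt' z
  refine ⟨leak O e z, ?_, hb, ?_⟩
  · calc ((leak O e z).length + 2) ^ (iC e + 2) ≤ (ia e + 2) ^ (iC e + 2) :=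
          Nat.pow_le_pow_left (by omega) _
      _ ≤ 2 ^ e := (ia_bound he).le
      _ ≤ alenH H e z := two_pow_le_alenH hH z
  · rw [NL_congr (iC e) O' O, NL_congr (iN e) O' O z, l2]
    · intro w hw
      exact hO w (by omega)
    · intro w hw
      refine hO w (lt_of_lt_of_le hw (le_trans ?_ h1))
      exact Nat.pow_le_pow_left (by omega) _

open Classical in
/-- The background of a zone: keys below `n` as in `O`; leaky entries that do not depend on the
level `n`; trivial secrets. -/
noncomputable def backH (H : ℕ → ℕ) (n : ℕ) (O : Lang) : Lang := fun w =>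
  if keyH H w < n then O w
  else match tdecH H w with
    | some p => if (p.1.2.length + 2) ^ (iN p.1.1 + 3) < n then bit (leak O p.1.1 p.1.2) p.2
        else false
    | none => match sdec w with
      | some p => decide (p.2.1 = List.replicate p.1.length false ∧ p.2.2 = false)
      | none => false

theorem backH_saddr {n : ℕ} {O : Lang} {x y : List Bool} {b : Bool} (h : x.length = y.length)
    (hn : n ≤ 2 * x.length + 2) : backH H n O (saddr x y b) =
      decide (y = List.replicate x.length false ∧ b = false) := by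
  unfold backH
  rw [if_neg (by rw [keyH_saddr _ _ _ h]; omega), tdecH_saddr, sdec_saddr _ _ _ h]

/-- a secret is unique -/
theorem sec_unique {O : Lang} {m : ℕ} (x : X m) (y : X m) (b : Bool)
    (h : ∀ (y' : X m) (b' : Bool), O (saddr x.1 y'.1 b') = decide ((y, b) = (y', b'))) :
    ∃! p : List Bool × Bool, p.1.length = m ∧ O (saddr x.1 p.1 p.2) = true := by
  refine ⟨(y.1, b), ⟨y.2, ?_⟩, ?_⟩
  · simp only
    rw [h y b]
    simp
  · rintro ⟨y', b'⟩ ⟨hy, hb⟩
    simp only at hy hb
    rw [h ⟨y', hy⟩ b'] at hb
    simp only [decide_eq_true_eq, Prod.mk.injEq] at hb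
    rw [hb.1, hb.2]

/-- the value of a secret -/
theorem V_of_sec {O : Lang} {m : ℕ} (x : X m) (y : X m) (b : Bool)
    (h : ∀ (y' : X m) (b' : Bool), O (saddr x.1 y'.1 b') = decide ((y, b) = (y', b'))) :
    V O x.1 = b := by
  unfold V
  have hiff : (∃ y : List Bool, y.length = x.1.length ∧ O (saddr x.1 y true) = true) ↔
      b = true := by
    constructor
    · rintro ⟨y', hy, h1⟩
      have hy' : y'.length = m := hy.trans x.2
      rw [h ⟨y', hy'⟩ true] at h1
      simp only [decide_eq_true_eq, Prod.mk.injEq] at h1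
      exact h1.2
    · intro h1
      refine ⟨y.1, by rw [y.2, x.2], ?_⟩
      rw [h y true, h1]
      simp
  cases b with
  | true => simpa using hiff.2 rfl
  | false =>
    simp only [decide_eq_false_iff_not]
    rw [hiff]
    simp

/-- ZONE -/
theorem zoneH (hH : ∀ e, e ^ 2 ≤ H e) (T : ℕ → ℕ) {k n N E B : ℕ}
    (num : NumOK k n N E B (RG k n N) (RG k n E)) (hTE : N + (T N + (N + 2) ^ k) < E)
    (hHE : ∀ e, k < e → E ≤ H e) (c : Cmd) (o : Option Bool) (mm : Option ℕ) (O : Lang) :
    ∃ O' : Lang, ExtH H n O O' ∧ ∀ O'', ExtH H E O' O'' →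
      (∀ e z, Adeq e → n ≤ alenH H e z → alenH H e z < E → Nontriv O'' e → Correct O'' e n →
        GoodH H O'' e z) ∧
      (∀ m, n ≤ 2 * m + 2 → 2 * m + 2 < E → Sec O'' m) ∧
      (AT c o (atime T k N mm) (ones N)).eval O'' ≠ V O'' (ones N) := by
  obtain ⟨hkn, hnN, hqN, hNE, hB4, hEB, hkB, hRB, h8, hfin⟩ := id num
  have hn : 2 ≤ n := by
    have : 2 ^ 1 ≤ 2 ^ (k + 2) := Nat.pow_le_pow_right (by norm_num) (by omega)
    omega
  obtain ⟨G1, g11, g12, g13⟩ := groupsH hH k n 0 N hn
  obtain ⟨G2, g21, g22, g23⟩ := groupsH hH k n N E hn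
  have htime : atime T k N mm ≤ T N + (N + 2) ^ k := by
    cases mm with
    | none => simp [atime]
    | some s =>
      simp only [atime]
      have : (N + 2) ^ min s k ≤ (N + 2) ^ k :=
        Nat.pow_le_pow_right (by omega) (min_le_right _ _)
      omega
  set P := AT c o (atime T k N mm) (ones N) with hP
  have hPd : P.depth ≤ B := (depth_AT _ _ _ _).trans (by omega)
  obtain ⟨S, y, b, O', a1, a2, a3, a4, a5, a6⟩ :=
    core hH num P hPd G1 G2 g12 g22 g11 g21 (backH H n O)
  -- positions with small keys
  have hsp : ∀ w, keyH H w < n → spos n w = none := by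
    intro w hw
    cases hsw : spos n w with
    | none => rfl
    | some p =>
      exfalso
      rw [spos_eq_some hsw, keyH_saddr _ _ _ (by rw [p.1.2, p.2.1.2]), p.1.2] at hw
      omega
  have hup : ∀ w, keyH H w < n → upos N w = none := by
    intro w hw
    cases hsw : upos N w with
    | none => rfl
    | some p =>
      exfalso
      rw [upos_eq_some hsw, keyH_saddr _ _ _ (by rw [ones_length, p.2.1.2]), ones_length] at hw
      omega
  have hgp : ∀ lo hi t e, Adeq e → ∀ w, keyH H w < n → gposH H n lo hi t e w = none := by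
    intro lo hi t e he w hw
    cases hgw : gposH H n lo hi t e w with
    | none => rfl
    | some p =>
      exfalso
      have hz := p.1.2.2.2.1
      have := iN_boundH hH he p.1.1
      rw [gposH_eq_some hgw, keyH_taddrH] at hw
      omega
  have hext : ExtH H n O O' := by
    intro w hw
    rw [a1 w (hsp w hw) (fun g hg => hgp _ _ _ _ (g12 g hg).2 w hw) (hup w hw)
      (fun g hg => hgp _ _ _ _ (g22 g hg).2 w hw)]
    simp only [backH, if_pos hw]
  refine ⟨O', hext, fun O'' hO'' => ?_⟩
  have hag : ∀ w : List Bool, w.length < E → O'' w = O' w :=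
    fun w hw => agree_of_extH hO'' w hw
  have hagn : ∀ w : List Bool, w.length < n → O'' w = O w := by
    intro w hw
    rw [hag w (by omega)]
    exact agree_of_extH hext w hw
  -- the secrets of the level `n`
  have hSn : ∀ (x y' : X n) (b' : Bool),
      O'' (saddr x.1 y'.1 b') = decide (((S x).1, (S x).2) = (y', b')) := by
    intro x y' b'
    rw [hag _ (by rw [saddr_lengthG (by rw [x.2, y'.2]), x.2]; omega),
      a2 _ _ (spos_saddr x y' b')]
  have hSN : ∀ (y' : X N) (b' : Bool),
      O'' (saddr (ones N) y'.1 b') = decide ((y, b) = (y', b')) := by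
    intro y' b'
    rw [hag _ (by rw [saddr_length']; exact hNE), a3 _ _ (upos_saddr y' b')]
  have hV : ∀ x : X n, V O'' x.1 = (S x).2 := fun x =>
    V_of_sec x (S x).1 (S x).2 (hSn x)
  have hVN : V O'' (ones N) = b := V_of_sec ⟨ones N, ones_length N⟩ y b hSN
  refine ⟨fun e z he hz1 hz2 hnt hcor => ?_, fun m hm1 hm2 => ?_, ?_⟩
  · -- entries
    have hek : e ≤ k := by
      by_contra hcon
      have h1 := hHE e (by omega)
      have h2 := two_pow_H_le_alenH (H := H) e z
      have h3 : H e < 2 ^ H e := Nat.lt_two_pow_self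
      omega
    have hia : (ia e + 2) ^ (iC e + 2) ≤ n := by
      refine (ia_bound he).le.trans (le_trans ?_ hkn)
      exact Nat.pow_le_pow_right (by norm_num) (by omega)
    rcases Nat.lt_or_ge ((z.length + 2) ^ (iN e + 3)) n with hl | hp
    · -- leaky
      have hb2 : (z.length + 2) ^ (iN e + 2) ≤ n := le_trans
        (Nat.pow_le_pow_right (by omega) (by omega)) hl.le
      refine good_leakH hH (O := O) he hia hb2 hagn (fun b c => ?_) hnt
      have hng : ∀ (lo hi : ℕ) (g : ℕ × ℕ), gposH H n lo hi g.1 g.2 (taddrH H e z b c) = none := by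
        intro lo hi g
        apply gposH_taddrH_none
        rintro ⟨h1, h2⟩
        have h3 := h2.2.2.1
        rw [← h1] at h3
        omega
      rw [hO'' _ (by rw [keyH_taddrH]; exact hz2), a1 _ (spos_taddrH _ _ _ _ _)
        (fun g _ => hng _ _ _) (upos_taddrH _ _ _ _ _) (fun g _ => hng _ _ _)]
      unfold backH
      rw [if_neg (by rw [keyH_taddrH]; omega), tdecH_taddrH]
      simp only
      rw [if_pos hl]
    · -- protected
      have hqb : (qb n e + 2) ^ (iC e + 2) ≤ (qk n k + 2) ^ (k + 3) := by
        have h1 : qb n e ≤ qk n k := by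
          unfold qb qk
          have : (n + 2) ^ ex (iM e) ≤ (n + 2) ^ k :=
            Nat.pow_le_pow_right (by omega) ((ex_le _).trans ((iM_le _).trans hek))
          omega
        calc (qb n e + 2) ^ (iC e + 2) ≤ (qk n k + 2) ^ (iC e + 2) :=
              Nat.pow_le_pow_left (by omega) _
          _ ≤ (qk n k + 2) ^ (k + 3) := by
              apply Nat.pow_le_pow_right (by omega)
              have : iC e ≤ e := Nat.unpair_left_le e
              omega
      have hzE : (z.length + 2) ^ (iN e + 2) < E := by
        have h6 := iN_boundH hH he z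
        have h7 : (z.length + 2) ^ (iN e + 2) ≤ (z.length + 2) ^ (iN e + 3) :=
          Nat.pow_le_pow_right (by omega) (by omega)
        omega
      have hcor' : ∀ x : X n, PL (iM e) (join O' (NL (iC e) O')) x.1 = (S x).2 := by
        intro x
        rw [← hV x, ← hcor x.1 x.2]
        exact (corr_congr (n := n) (e := e) (L := E) (by omega) hag x).symm
      rcases Nat.lt_or_ge (alenH H e z) N with hs | hs
      · obtain ⟨t, ht1, ht2⟩ := g13 e z hek he hp (Nat.zero_le _) hs
        obtain ⟨q, hq1, hq2, hq3⟩ := a4 (t, e) ht1 hcor' z ht2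
        change q.length ≤ qb n e at hq1
        obtain ⟨d1, d2, d3, d4⟩ := num_depH hH he hn ht2.1 ht2.2.1 hp
        refine ⟨q, ?_, fun b c => ?_, good_congr (n := n) (L := E) (by omega) hzE hag q hq1 hq3⟩
        · have : (q.length + 2) ^ (iC e + 2) ≤ (qb n e + 2) ^ (iC e + 2) :=
            Nat.pow_le_pow_left (by omega) _
          omega
        · rw [hO'' _ (by rw [keyH_taddrH]; exact hz2)]
          exact hq2 b c
      · obtain ⟨t, ht1, ht2⟩ := g23 e z hek he hp hs hz2
        obtain ⟨q, hq2, hq3⟩ := a5 (t, e) ht1 hcor' z ht2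
        change NL (iC e) O' q.1 = NL (iN e) O' z at hq3
        have hq4 : (q.1.length + 2) ^ (iC e + 2) ≤ (qk n k + 2) ^ (k + 3) := by
          have hqq := q.2
          calc (q.1.length + 2) ^ (iC e + 2) ≤ (qk n k + 2) ^ (iC e + 2) :=
                Nat.pow_le_pow_left (by omega) _
            _ ≤ (qk n k + 2) ^ (k + 3) := by
                apply Nat.pow_le_pow_right (by omega)
                have : iC e ≤ e := Nat.unpair_left_le _
                omega
        refine ⟨q.1, by omega, fun b c => ?_, ?_⟩
        · rw [hO'' _ (by rw [keyH_taddrH]; exact hz2)]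
          exact hq2 b c
        · rw [NL_congr (iC e) O'' O' q.1 (fun w hw => hag w (by omega)),
            NL_congr (iN e) O'' O' z (fun w hw => hag w (by omega)), hq3]
  · -- secrets
    rcases eq_or_ne m n with hmn | hmn
    · subst hmn
      intro x hx
      exact sec_unique ⟨x, hx⟩ _ _ (hSn ⟨x, hx⟩)
    · have htriv : ∀ x y' : List Bool, ∀ b', x.length = m → y'.length = m →
          upos N (saddr x y' b') = none →
          O'' (saddr x y' b') = decide (y' = List.replicate x.length false ∧ b' = false) := by
        intro x y' b' hx hy' hu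
        have hlen := saddr_lengthG (x := x) (y := y') (by rw [hx, hy']) b'
        rw [hag _ (by rw [hlen, hx]; exact hm2), a1 _
          (spos_saddr_none x y' b' (by rw [hx, hy']) (by rw [hx]; exact hmn))
          (fun g _ => gposH_saddr _ _ _) hu (fun g _ => gposH_saddr _ _ _),
          backH_saddr (by rw [hx, hy']) (by rw [hx]; exact hm1)]
      intro x hx
      by_cases hxN : m = N ∧ x = ones N
      · obtain ⟨rfl, rfl⟩ := hxN
        exact sec_unique ⟨ones m, ones_length m⟩ y b hSN
      · refine sec_unique ⟨x, hx⟩ ⟨List.replicate m false, by simp⟩ false fun y' b' => ?_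
        rw [htriv x y'.1 b' hx y'.2 ?_, hx]
        · by_cases h : y'.1 = List.replicate m false ∧ b' = false
          · rw [decide_eq_true h, decide_eq_true]
            obtain ⟨h1, h2⟩ := h
            rw [h2]
            congr 1
            exact Subtype.ext h1.symm
          · rw [decide_eq_false h, decide_eq_false]
            intro h'
            apply h
            simp only [Prod.mk.injEq] at h'
            exact ⟨by rw [← h'.1], h'.2.symm⟩
        · cases hu : upos N (saddr x y'.1 b') with
          | none => rfl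
          | some p =>
            exfalso
            have h1 := upos_eq_some hu
            obtain ⟨h2, h3, -⟩ := addr_saddr_inj (by rw [hx, y'.2])
              (by rw [ones_length, p.2.1.2]) h1
            apply hxN
            refine ⟨?_, h2⟩
            rw [← hx, h2, ones_length]
  · rw [hVN, AT_congr c o (atime T k N mm) E O' O'' (ones N) (by rw [ones_length]; omega) hag]
    exact a6

end Pool.Agent.CKT
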